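import Mathlib
import Pool.Agent.Lib.H55P.Core

/-!
# SSG, part E: the analytic core with a weight modulo powers of p (definitions)

D is the context of H55P (residue class X = c0 + I, smoothing data c, p), q an ideal. The class X is the disjoint union of the classes a + q I;
`cx D q a` is the context of the class of a modulo q I. The weight φ is a function on X which is periodic modulo q I and invariant under the units u.
-/

open NumberField IsDedekindDomain

namespace SSG.E

open H55N H55P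

variable {F : Type} [Field F] [NumberField F] [IQ F] {K : Type} [Field K] [NumberField K]
  [Algebra F K] {m : ℕ}

/-- The context of the residue class of a modulo q I. -/
def cx (D : Ctx F K m) (q : Ideal (𝓞 K)) (a : 𝓞 K) : Ctx F K m := ⟨D.σ, q * D.I, a, D.c, D.p⟩

/-- R is a set of representatives of X modulo q I. -/
structure Rp (D : Ctx F K m) (q : Ideal (𝓞 K)) (R : Finset (𝓞 K)) : Prop where
  sub : ∀ a ∈ R, a ∈ D.X
  ex : ∀ x ∈ D.X, ∃! a, a ∈ R ∧ x - a ∈ q * D.I

/-- The weight φ is periodic modulo q I and invariant under the units u. -/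
structure Wt (D : Ctx F K m) (q : Ideal (𝓞 K)) (u : Fin m → (𝓞 K)ˣ) (φ : 𝓞 K → ℂ) : Prop where
  per : ∀ x ∈ D.X, ∀ y, x - y ∈ q * D.I → φ x = φ y
  inv : ∀ x ∈ D.X, ∀ z, φ ((uu u z : 𝓞 K) * x) = φ x

/-- The weighted sum of the regularised determinants over the classes. -/
noncomputable def Jw (D : Ctx F K m) (q : Ideal (𝓞 K)) (R : Finset (𝓞 K)) (φ : 𝓞 K → ℂ)
    (L : Fin (m + 1) → Lab K m) : ℂ := ∑ a ∈ R, φ a * (cx D q a).Jv L

theorem cx_le (D : Ctx F K m) (q : Ideal (𝓞 K)) : q * D.I ≤ D.I := Ideal.mul_le_right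

theorem cx_mem (D : Ctx F K m) (q : Ideal (𝓞 K)) {a x : 𝓞 K} (ha : a ∈ D.X) (hx : x ∈ (cx D q a).X) : x ∈ D.X := by
  have h1 : x - a ∈ q * D.I := hx
  have h2 : x - D.c₀ = (x - a) + (a - D.c₀) := by ring
  show x - D.c₀ ∈ D.I
  rw [h2]
  exact D.I.add_mem (cx_le D q h1) ha

theorem cx_ok (D : Ctx F K m) (hD : D.Ok) (q : Ideal (𝓞 K)) {a : 𝓞 K} (ha : a ∈ D.X) : (cx D q a).Ok where
  emb := hD.emb
  ne h := by
    have h1 : a ∈ D.I := cx_le D q h
    exact hD.ne (by
      have h2 : D.c₀ = a - (a - D.c₀) := by ring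
      rw [h2]
      exact D.I.sub_mem h1 ha)
  smooth := hD.smooth

theorem cx_self (D : Ctx F K m) (q : Ideal (𝓞 K)) (a : 𝓞 K) : a ∈ (cx D q a).X := by
  show a - a ∈ q * D.I
  rw [sub_self]
  exact (q * D.I).zero_mem

end SSG.E
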