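import Mathlib
import Pool.Agent.Lib.SSG.E.D

/-! # SSG, part E: directions divisible by n -/

open NumberField IsDedekindDomain

namespace SSG.E

open H55N H55P

variable {F : Type} [Field F] [NumberField F] [IQ F] {K : Type} [Field K] [NumberField K]
  [Algebra F K] {m : ℕ}

/-- A basis A of K/F and directions n w' in the ideal n I, adapted to the smoothing primes; the labels A k take values 1 modulo l on X. -/
structure DirN (D : Ctx F K m) (l : 𝓞 F) (n : ℕ) (A : Fin (m + 1) → K) (w' : Fin (m + 1) × Fin 2 → 𝓞 K) : Prop where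
  mem : ∀ i, w' i ∈ D.I
  self : ∀ i, (n : 𝓞 K) * w' i ∉ D.c i
  oth : ∀ i k, k ≠ i → (n : 𝓞 K) * w' i ∈ D.c k
  orth : ∀ i k, k ≠ i.1 → D.Tr (A k) (w' i) = 0
  one : ∀ x ∈ D.X, ∀ k, ∃ y : 𝓞 F, D.Tr (A k) x = eF F (1 + l * y)
  low : ∀ x ∈ D.X, ∀ k, 1 ≤ ‖D.Tr (A k) x‖
  ind : LinearIndependent F A

/-- The directions. -/
def nw (n : ℕ) (w' : Fin (m + 1) × Fin 2 → 𝓞 K) (i : Fin (m + 1) × Fin 2) : 𝓞 K := (n : 𝓞 K) * w' i

end SSG.E
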