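import Mathlib
import Pool.Agent.Lib.SSG.E.DN
import Pool.Agent.Lib.H35P.E0
import Pool.Agent.Lib.H55P.F0

/-! # SSG, part E: the lattice of a label and the value function -/

open NumberField IsDedekindDomain

namespace SSG.E

open H55N H55P

variable {F : Type} [Field F] [NumberField F] [IQ F] {K : Type} [Field K] [NumberField K]
  [Algebra F K] {m : ℕ}

/-- The elements of I in all smoothing primes whose traces against the basis A are divisible by M. -/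
def Lat (D : Ctx F K m) (A : Fin (m + 1) → K) (M : ℕ) : AddSubgroup (𝓞 K) where
  carrier := {x | x ∈ D.I ∧ (∀ i, x ∈ D.c i) ∧ ∀ k, ∃ y : 𝓞 F, D.Tr (A k) x = M * eF F y}
  zero_mem' := ⟨D.I.zero_mem, fun i => (D.c i).zero_mem, fun k => ⟨0, by rw [D.Tr_zero, map_zero, mul_zero]⟩⟩
  add_mem' := by
    rintro x y ⟨h1, h2, h3⟩ ⟨k1, k2, k3⟩
    refine ⟨D.I.add_mem h1 k1, fun i => (D.c i).add_mem (h2 i) (k2 i), fun k => ?_⟩
    obtain ⟨s, hs⟩ := h3 k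
    obtain ⟨t, ht⟩ := k3 k
    exact ⟨s + t, by rw [D.Tr_add, hs, ht, map_add]; ring⟩
  neg_mem' := by
    rintro x ⟨h1, h2, h3⟩
    refine ⟨D.I.neg_mem h1, fun i => (D.c i).neg_mem (h2 i), fun k => ?_⟩
    obtain ⟨s, hs⟩ := h3 k
    refine ⟨-s, ?_⟩
    have h4 := D.Tr_sub (A k) 0 x
    rw [zero_sub, D.Tr_zero, zero_sub] at h4
    rw [h4, hs, map_neg]
    ring

/-- B is a set of representatives of X modulo the lattice. -/
structure RpL (D : Ctx F K m) (A : Fin (m + 1) → K) (M : ℕ) (B : Finset (𝓞 K)) : Prop where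
  sub : ∀ x ∈ B, x ∈ D.X
  ex : ∀ x ∈ D.X, ∃! y, y ∈ B ∧ x - y ∈ Lat D A M

/-- The trace has full image on the lattice. -/
def Full (D : Ctx F K m) (A : Fin (m + 1) → K) (M : ℕ) : Prop :=
  ∀ y : Fin (m + 1) → 𝓞 F, ∃ x : 𝓞 K, x ∈ D.I ∧ (∀ i, x ∈ D.c i) ∧ ∀ k, D.Tr (A k) x = M * eF F (y k)

/-- The data of a rational simplex: basis, directions, integer valued function G, the auxiliary number M prime to P, a Bezout relation. -/
structure LD (D : Ctx F K m) (l : 𝓞 F) (P : ℕ) where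
  A : Fin (m + 1) → K
  w' : Fin (m + 1) × Fin 2 → 𝓞 K
  G : 𝓞 K → ℤ
  M : ℕ
  e₁ : ℤ
  e₂ : ℤ
  B : Finset (𝓞 K)

/-- The hypotheses. -/
structure LD.Ok {D : Ctx F K m} {l : 𝓞 F} {P : ℕ} (S : LD D l P) : Prop where
  dir : DirN D l (2 * P) S.A S.w'
  per : ∀ x y, (∀ i, y ∈ D.c i) → S.G (x + y) = S.G x
  spec : ∀ a ∈ D.X, (cx D (Ideal.span {(P : 𝓞 K)}) a).GSpec (nw (2 * P) S.w') (fun x => ((S.G x : ℤ) : ℂ))
  ne : S.M ≠ 0
  bez : S.e₁ * S.M + S.e₂ * P = 1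
  smo : ∀ i, (S.M : 𝓞 K) ∈ D.c i
  pc : ∀ i, IsCoprime (P : ℤ) (D.p i : ℤ)
  lM : l ∣ (S.M : 𝓞 F)
  full : Full D S.A S.M
  rep : RpL D S.A S.M S.B

/-- The traces of the directions. -/
noncomputable def LD.d {D : Ctx F K m} {l : 𝓞 F} {P : ℕ} (S : LD D l P) (k : Fin (m + 1)) (i : Fin 2) : ℂ :=
  D.Tr (S.A k) (S.w' (k, i))

/-- The torsion point. -/
noncomputable def LD.z {D : Ctx F K m} {l : 𝓞 F} {P : ℕ} (S : LD D l P) (a β : 𝓞 K) (k : Fin (m + 1)) : ℂ :=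
  S.e₁ * D.Tr (S.A k) a / P + (S.e₂ * D.Tr (S.A k) β - S.d k 0 - S.d k 1) / S.M

/-- The value function of a rational simplex on the class X. -/
noncomputable def LD.H {D : Ctx F K m} {l : 𝓞 F} {P : ℕ} (S : LD D l P) (a : 𝓞 K) : ℂ :=
  Matrix.det (Matrix.of fun k i => D.σ i (S.A k)) * ∑ β ∈ S.B, ((S.G β : ℤ) : ℂ) * ∏ k, (S.M : ℂ)⁻¹ *
    (H35P.T2 (LF F) (S.z a β k) ((S.d k 0 + S.d k 1) / S.M) - H35P.T2 (LF F) (S.z a β k) ((S.d k 0 - S.d k 1) / S.M))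

end SSG.E
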