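import Mathlib
import Pool.Agent.Lib.SSG.E.HV

/-! # SSG, part E: interface (definitions): coordinates at the primes above p, weights -/

open NumberField IsDedekindDomain

namespace SSG.E

open H55N H55P

/-- x is integral at p. -/
def LInt {K : Type} [Field K] [NumberField K] (p : ℕ) (x : K) : Prop :=
  ∃ d : ℕ, ¬ p ∣ d ∧ ∃ y : 𝓞 K, (d : K) * x = y

/-- The ring of integers of F modulo p^N. -/
abbrev RN (F : Type) [Field F] [NumberField F] (p N : ℕ) : Type := 𝓞 F ⧸ Ideal.span {(p : 𝓞 F) ^ N}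

/-- The coordinates of 𝓞 K modulo p^N at the m + 1 primes v k above p (p totally split in K/F). -/
structure Crd {F : Type} [Field F] [NumberField F] {K : Type} [Field K] [NumberField K] [Algebra F K] {m : ℕ} (p N : ℕ)
    (v : Fin (m + 1) → HeightOneSpectrum (𝓞 K)) (r : Fin (m + 1) → 𝓞 K →+* RN F p N) : Prop where
  inj : Function.Injective v
  prod : Ideal.span {(p : 𝓞 K)} = ∏ k, (v k).asIdeal
  alg : ∀ k (a : 𝓞 F), r k (algebraMap (𝓞 F) (𝓞 K) a) = Ideal.Quotient.mk _ a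
  surj : ∀ y : Fin (m + 1) → RN F p N, ∃ x, ∀ k, r k x = y k
  ker : ∀ x, (∀ k, r k x = 0) ↔ (p : 𝓞 K) ^ N ∣ x
  pow : ∀ x k (e : ℕ), e ≤ N → (x ∈ (v k).asIdeal ^ e ↔ Ideal.Quotient.mk _ ((p : 𝓞 F) ^ e) ∣ r k x)
  tr : ∀ (x : 𝓞 K) (t : 𝓞 F), Algebra.trace F K (x : K) = (t : F) → Ideal.Quotient.mk _ t = ∑ k, r k x
  nm : ∀ (x : 𝓞 K) (n : 𝓞 F), Algebra.norm F (x : K) = (n : F) → Ideal.Quotient.mk _ n = ∏ k, r k x

/-- The coordinate vector, as integers of F. -/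
noncomputable def cr {F : Type} [Field F] [NumberField F] {K : Type} [Field K] [NumberField K] {m : ℕ} {p N : ℕ}
    (r : Fin (m + 1) → 𝓞 K →+* RN F p N) (x : 𝓞 K) (k : Fin (m + 1)) : 𝓞 F := Quotient.out (r k x)

/-- Weights on the class of c₀ modulo I: periodic modulo P I, invariant under the units. -/
structure WtU {K : Type} [Field K] [NumberField K] (I : Ideal (𝓞 K)) (c₀ : 𝓞 K) (P : ℕ) (φ : 𝓞 K → ℂ) : Prop where
  per : ∀ x ∈ XS I c₀, ∀ y, x - y ∈ Ideal.span {(P : 𝓞 K)} * I → φ x = φ y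
  inv : ∀ x ∈ XS I c₀, ∀ v : (𝓞 K)ˣ, φ ((v : 𝓞 K) * x) = φ x

/-- R is a set of representatives of the class of c₀ modulo I, modulo P I. -/
structure RpU {K : Type} [Field K] [NumberField K] (I : Ideal (𝓞 K)) (c₀ : 𝓞 K) (P : ℕ) (R : Finset (𝓞 K)) : Prop where
  sub : ∀ a ∈ R, a ∈ XS I c₀
  ex : ∀ x ∈ XS I c₀, ∃! a, a ∈ R ∧ x - a ∈ Ideal.span {(P : 𝓞 K)} * I

end SSG.E
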