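import Mathlib
import Pool.Agent.Lib.SSG.F.Defs

open NumberField

namespace SSG

variable {F : Type} [Field F] [NumberField F] {C : Type} [NormedField C] [IsUltrametricDist C] {L : LTF F C} {N : ℕ}
  {ι : Type} [Fintype ι]

/-! Chunk A1 (M). The functions Fn form a ring, closed under uniform limits. hs : all coordinates have norm < 1 (field small of LTF.Ok).
Poly: for Q with coefficients of norm <= 1 and points of norm <= 1 the value has norm <= 1 (MvPolynomial.eval_eq: finite sum, IsUltrametricDist.norm_sum_le_of_forall_le_of_nonneg or induction; norm_prod). Fn_le: ‖H a‖ <= max (‖H a - Q(a)‖, ‖Q(a)‖) <= max (ε, 1) for all ε.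
const: MvPolynomial.C c. X: the coordinate function (MvPolynomial.X k). add: Q1 + Q2 (coeff_add, ultrametric). neg: -Q. mul: Q1 * Q2 (MvPolynomial.coeff_mul: a finite sum over the antidiagonal of products of norm <= 1), H1 H2 - Q1 Q2 = H1 (H2 - Q2) + (H1 - Q1) Q2, norms <= ε.
sum, prod: Finset.induction. lim: take H' for ε, then Q for H' and ε. scal: const * H. pow: induction. -/

theorem Fn_const {c : C} (hc : ‖c‖ ≤ 1) : L.Fn N ι (fun _ => c) := by
  classical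
  intro ε hε
  refine ⟨MvPolynomial.C c, fun m => ?_, fun a => ?_⟩
  · rw [MvPolynomial.coeff_C]
    split_ifs
    · exact hc
    · rw [norm_zero]
      exact zero_le_one
  · rw [MvPolynomial.eval_C, sub_self, norm_zero]
    exact hε.le

theorem Fn_X (k : ι) : L.Fn N ι (fun a => L.X N (a k)) := by
  classical
  intro ε hε
  refine ⟨MvPolynomial.X k, fun m => ?_, fun a => ?_⟩
  · rw [MvPolynomial.coeff_X]
    split_ifs
    · rw [norm_one]
    · rw [norm_zero]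
      exact zero_le_one
  · rw [MvPolynomial.eval_X, sub_self, norm_zero]
    exact hε.le

theorem a1_eval_le {Q : MvPolynomial ι C} (hQ : ∀ m, ‖Q.coeff m‖ ≤ 1) {x : ι → C}
    (hx : ∀ i, ‖x i‖ ≤ 1) : ‖MvPolynomial.eval x Q‖ ≤ 1 := by
  rw [MvPolynomial.eval_eq']
  refine IsUltrametricDist.norm_sum_le_of_forall_le_of_nonneg zero_le_one fun m _ => ?_
  rw [norm_mul, norm_prod]
  refine mul_le_one₀ (hQ m) (Finset.prod_nonneg fun i _ => norm_nonneg _)
    (Finset.prod_le_one (fun i _ => norm_nonneg _) fun i _ => ?_)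
  rw [norm_pow]
  exact pow_le_one₀ (norm_nonneg _) (hx i)

theorem a1_max {x y : C} {ε : ℝ} (hx : ‖x‖ ≤ ε) (hy : ‖y‖ ≤ ε) : ‖x + y‖ ≤ ε :=
  (IsUltrametricDist.norm_add_le_max x y).trans (max_le hx hy)

theorem Fn_le (hs : ∀ N a, ‖L.X N a‖ < 1) {H : (ι → 𝓞 F) → C} (h : L.Fn N ι H) (a : ι → 𝓞 F) : ‖H a‖ ≤ 1 := by
  obtain ⟨Q, hQ, hQ2⟩ := h 1 one_pos
  have h1 := a1_max (hQ2 a) (a1_eval_le hQ fun i => (hs N (a i)).le)
  rwa [sub_add_cancel] at h1

theorem Fn_add {H₁ H₂ : (ι → 𝓞 F) → C} (h₁ : L.Fn N ι H₁) (h₂ : L.Fn N ι H₂) : L.Fn N ι (fun a => H₁ a + H₂ a) := by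
  intro ε hε
  obtain ⟨Q₁, hQ₁, hQ₁'⟩ := h₁ ε hε
  obtain ⟨Q₂, hQ₂, hQ₂'⟩ := h₂ ε hε
  refine ⟨Q₁ + Q₂, fun m => ?_, fun a => ?_⟩
  · rw [MvPolynomial.coeff_add]
    exact a1_max (hQ₁ m) (hQ₂ m)
  · rw [map_add, add_sub_add_comm]
    exact a1_max (hQ₁' a) (hQ₂' a)

theorem Fn_neg {H : (ι → 𝓞 F) → C} (h : L.Fn N ι H) : L.Fn N ι (fun a => -H a) := by
  intro ε hε
  obtain ⟨Q, hQ, hQ'⟩ := h ε hε
  refine ⟨-Q, fun m => ?_, fun a => ?_⟩
  · rw [MvPolynomial.coeff_neg, norm_neg]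
    exact hQ m
  · rw [map_neg, neg_sub_neg, norm_sub_rev]
    exact hQ' a

theorem Fn_sub {H₁ H₂ : (ι → 𝓞 F) → C} (h₁ : L.Fn N ι H₁) (h₂ : L.Fn N ι H₂) : L.Fn N ι (fun a => H₁ a - H₂ a) := by
  have h := Fn_add h₁ (Fn_neg h₂)
  simp only [← sub_eq_add_neg] at h
  exact h

theorem Fn_mul (hs : ∀ N a, ‖L.X N a‖ < 1) {H₁ H₂ : (ι → 𝓞 F) → C} (h₁ : L.Fn N ι H₁) (h₂ : L.Fn N ι H₂) :
    L.Fn N ι (fun a => H₁ a * H₂ a) := by
  classical
  intro ε hε
  obtain ⟨Q₁, hQ₁, hQ₁'⟩ := h₁ ε hε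
  obtain ⟨Q₂, hQ₂, hQ₂'⟩ := h₂ ε hε
  refine ⟨Q₁ * Q₂, fun m => ?_, fun a => ?_⟩
  · rw [MvPolynomial.coeff_mul]
    refine IsUltrametricDist.norm_sum_le_of_forall_le_of_nonneg zero_le_one fun x _ => ?_
    rw [norm_mul]
    exact mul_le_one₀ (hQ₁ _) (norm_nonneg _) (hQ₂ _)
  · rw [map_mul]
    have h3 : H₁ a * H₂ a - MvPolynomial.eval (fun i => L.X N (a i)) Q₁ *
        MvPolynomial.eval (fun i => L.X N (a i)) Q₂ =
        H₁ a * (H₂ a - MvPolynomial.eval (fun i => L.X N (a i)) Q₂) +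
          (H₁ a - MvPolynomial.eval (fun i => L.X N (a i)) Q₁) *
            MvPolynomial.eval (fun i => L.X N (a i)) Q₂ := by ring
    rw [h3]
    refine a1_max ?_ ?_
    · rw [norm_mul]
      exact (mul_le_of_le_one_left (norm_nonneg _) (Fn_le hs h₁ a)).trans (hQ₂' a)
    · rw [norm_mul]
      exact (mul_le_of_le_one_right (norm_nonneg _)
        (a1_eval_le hQ₂ fun i => (hs N (a i)).le)).trans (hQ₁' a)

theorem Fn_pow (hs : ∀ N a, ‖L.X N a‖ < 1) {H : (ι → 𝓞 F) → C} (h : L.Fn N ι H) (n : ℕ) :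
    L.Fn N ι (fun a => H a ^ n) := by
  induction n with
  | zero =>
    simp only [pow_zero]
    exact Fn_const norm_one.le
  | succ n ih =>
    simp only [pow_succ]
    exact Fn_mul hs ih h

theorem Fn_scal (hs : ∀ N a, ‖L.X N a‖ < 1) {c : C} (hc : ‖c‖ ≤ 1) {H : (ι → 𝓞 F) → C} (h : L.Fn N ι H) :
    L.Fn N ι (fun a => c * H a) :=
  Fn_mul hs (Fn_const hc) h

theorem Fn_sum {κ : Type} (s : Finset κ) {H : κ → (ι → 𝓞 F) → C} (h : ∀ k ∈ s, L.Fn N ι (H k)) :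
    L.Fn N ι (fun a => ∑ k ∈ s, H k a) := by
  classical
  induction s using Finset.induction_on with
  | empty =>
    simp only [Finset.sum_empty]
    exact Fn_const (by rw [norm_zero]; exact zero_le_one)
  | insert k s hk ih =>
    simp only [Finset.sum_insert hk]
    exact Fn_add (h k (Finset.mem_insert_self k s))
      (ih fun l hl => h l (Finset.mem_insert_of_mem hl))

theorem Fn_prod (hs : ∀ N a, ‖L.X N a‖ < 1) {κ : Type} (s : Finset κ) {H : κ → (ι → 𝓞 F) → C}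
    (h : ∀ k ∈ s, L.Fn N ι (H k)) : L.Fn N ι (fun a => ∏ k ∈ s, H k a) := by
  classical
  induction s using Finset.induction_on with
  | empty =>
    simp only [Finset.prod_empty]
    exact Fn_const norm_one.le
  | insert k s hk ih =>
    simp only [Finset.prod_insert hk]
    exact Fn_mul hs (h k (Finset.mem_insert_self k s))
      (ih fun l hl => h l (Finset.mem_insert_of_mem hl))

theorem Fn_lim {H : (ι → 𝓞 F) → C} (h : ∀ ε : ℝ, 0 < ε → ∃ H', L.Fn N ι H' ∧ ∀ a, ‖H a - H' a‖ ≤ ε) : L.Fn N ι H := by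
  intro ε hε
  obtain ⟨H', h1, h2⟩ := h ε hε
  obtain ⟨Q, hQ, hQ'⟩ := h1 ε hε
  refine ⟨Q, hQ, fun a => ?_⟩
  have h3 := a1_max (h2 a) (hQ' a)
  rwa [sub_add_sub_cancel] at h3

end SSG
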