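import Mathlib
import Pool.Agent.Lib.SSG.E.A1

open NumberField

namespace SSG

variable {F : Type} [Field F] [NumberField F] {C : Type} [NormedField C] [IsUltrametricDist C] {L : LTF F C} {N : ℕ}
  {ι : Type} [Fintype ι]

/-! Chunk A2 (M). (1) A function of Fn is periodic modulo p^N: the coordinates X N (a k) are equal (hL.inj), so the polynomials have the same value at a and b, ‖H a - H b‖ <= ε for all ε. (2) H has finitely many values: it factors through
(ι → 𝓞 F ⧸ span {p^N}), a finite type (Ideal.finiteQuotientOfFreeOfNeBot or the instance of absNorm; p^N <> 0); the maximum of ‖H a - u‖ over the finitely many classes is < 1 (if ι → quotient is a Fintype: Finset.exists_max_image on univ; choose representatives by Quotient.out). -/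

theorem Fn_per {p : ℕ} (hL : L.Ok p) {H : (ι → 𝓞 F) → C} (h : L.Fn N ι H) (a b : ι → 𝓞 F)
    (hab : ∀ k, (p : 𝓞 F) ^ N ∣ a k - b k) : H a = H b := by
  have h1 : ∀ ε > 0, ‖H a - H b‖ ≤ ε := by
    intro ε hε
    obtain ⟨Q, _, hQ⟩ := h (ε / 2) (by positivity)
    have h2 := hQ a
    have h3 := hQ b
    have h4 : (fun i => L.X N (b i)) = fun i => L.X N (a i) := by
      funext i
      exact ((hL.inj N (a i) (b i)).2 (hab i)).symm
    rw [h4] at h3
    have h5 : H a - H b =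
        (H a - MvPolynomial.eval (fun i => L.X N (a i)) Q) -
          (H b - MvPolynomial.eval (fun i => L.X N (a i)) Q) := by
      ring
    rw [h5]
    refine (norm_sub_le _ _).trans ?_
    linarith
  have h2 : ‖H a - H b‖ ≤ 0 := le_of_forall_pos_le_add (by
    intro ε hε
    rw [zero_add]
    exact h1 ε hε)
  exact sub_eq_zero.1 (norm_le_zero_iff.1 h2)

theorem Fn_unif {p : ℕ} (hp : p ≠ 0) (hL : L.Ok p) {H : (ι → 𝓞 F) → C} (h : L.Fn N ι H) (u : C)
    (hu : ∀ a, ‖H a - u‖ < 1) : ∃ ρ : ℝ, 0 ≤ ρ ∧ ρ < 1 ∧ ∀ a, ‖H a - u‖ ≤ ρ := by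
  have hne : Ideal.span {((p : 𝓞 F)) ^ N} ≠ ⊥ := by
    rw [Ne, Ideal.span_singleton_eq_bot]
    exact pow_ne_zero _ (by exact_mod_cast hp)
  haveI : Finite (𝓞 F ⧸ Ideal.span {((p : 𝓞 F)) ^ N}) :=
    Ring.HasFiniteQuotients.finiteQuotient hne
  have hout : ∀ x : 𝓞 F ⧸ Ideal.span {((p : 𝓞 F)) ^ N}, ∃ r : 𝓞 F, Ideal.Quotient.mk _ r = x :=
    Ideal.Quotient.mk_surjective
  choose r hr using hout
  obtain ⟨x₀, hx₀⟩ := Finite.exists_max
    (fun x : ι → 𝓞 F ⧸ Ideal.span {((p : 𝓞 F)) ^ N} => ‖H (fun i => r (x i)) - u‖)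
  refine ⟨‖H (fun i => r (x₀ i)) - u‖, norm_nonneg _, hu _, fun a => ?_⟩
  · have h1 : H a = H (fun i => r (Ideal.Quotient.mk _ (a i))) := by
      refine Fn_per hL h _ _ fun k => ?_
      rw [← Ideal.mem_span_singleton, ← Ideal.Quotient.eq]
      exact (hr _).symm
    rw [h1]
    exact hx₀ (fun i => Ideal.Quotient.mk _ (a i))

end SSG
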