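import Mathlib
import Pool.Agent.Lib.SSG.E.A2

open NumberField

namespace SSG

variable {F : Type} [Field F] [NumberField F] {C : Type} [NormedField C] [IsUltrametricDist C] {L : LTF F C} {N : ℕ}
  {ι : Type} [Fintype ι]

/-! Chunk A3 (M). Inverses. ‖u‖ = 1, ρ from Fn_unif. G a := 1 - u⁻¹ H a is in Fn (u⁻¹ has norm 1) and ‖G a‖ <= ρ < 1. Partial sums P_n a = u⁻¹ * sum over k < n of (G a)^k are in Fn (Fn_sum, Fn_pow, Fn_scal), and
(H a)⁻¹ - P_n a = (H a)⁻¹ (G a)^n (geometric sum: H a * P_n a = (1 - G a) * sum = 1 - G^n; H a <> 0 because ‖H a‖ = 1: ‖H a - u‖ < ‖u‖), norm <= ρ^n. Fn_lim with ρ^n <= ε. -/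

theorem Fn_inv {p : ℕ} (hp : p ≠ 0) (hL : L.Ok p) {H : (ι → 𝓞 F) → C} (h : L.Fn N ι H) {u : C} (h1 : ‖u‖ = 1)
    (hu : ∀ a, ‖H a - u‖ < 1) : L.Fn N ι (fun a => (H a)⁻¹) := by
  obtain ⟨ρ, hρ0, hρ1, hρ⟩ := Fn_unif hp hL h u hu
  have hs := hL.small
  have hu0 : u ≠ 0 := by
    intro h0
    rw [h0, norm_zero] at h1
    exact zero_ne_one h1
  have hui : ‖u⁻¹‖ = 1 := by rw [norm_inv, h1, inv_one]
  have hHn : ∀ a, ‖H a‖ = 1 := by
    intro a
    have h2 : H a = u + (H a - u) := by ring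
    have h3 : ‖u‖ ≠ ‖H a - u‖ := by
      rw [h1]
      exact (hu a).ne'
    rw [h2, IsUltrametricDist.norm_add_eq_max_of_norm_ne_norm h3, h1]
    exact max_eq_left (hu a).le
  have hH0 : ∀ a, H a ≠ 0 := by
    intro a h0
    have := hHn a
    rw [h0, norm_zero] at this
    exact zero_ne_one this
  set G : (ι → 𝓞 F) → C := fun a => 1 - u⁻¹ * H a with hG
  have hGF : L.Fn N ι G := Fn_sub (Fn_const (by simp)) (Fn_scal hs hui.le h)
  have hGn : ∀ a, ‖G a‖ ≤ ρ := by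
    intro a
    have h2 : G a = - (u⁻¹ * (H a - u)) := by
      simp only [hG]
      field_simp
      ring
    rw [h2, norm_neg, norm_mul, hui, one_mul]
    exact hρ a
  apply Fn_lim
  intro ε hε
  obtain ⟨n, hn⟩ := exists_pow_lt_of_lt_one hε hρ1
  refine ⟨fun a => u⁻¹ * ∑ k ∈ Finset.range n, G a ^ k, ?_, ?_⟩
  · exact Fn_scal hs hui.le (Fn_sum _ (fun k _ => Fn_pow hs hGF k))
  · intro a
    have h2 : u⁻¹ * H a = 1 - G a := by
      simp only [hG]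
      ring
    have h3 : H a * (u⁻¹ * ∑ k ∈ Finset.range n, G a ^ k) = 1 - G a ^ n := by
      calc H a * (u⁻¹ * ∑ k ∈ Finset.range n, G a ^ k)
          = (u⁻¹ * H a) * ∑ k ∈ Finset.range n, G a ^ k := by ring
        _ = (1 - G a) * ∑ k ∈ Finset.range n, G a ^ k := by rw [h2]
        _ = 1 - G a ^ n := mul_neg_geom_sum (G a) n
    have h4 : (H a)⁻¹ - u⁻¹ * ∑ k ∈ Finset.range n, G a ^ k = (H a)⁻¹ * G a ^ n := by
      have h5 : u⁻¹ * ∑ k ∈ Finset.range n, G a ^ k = (H a)⁻¹ * (1 - G a ^ n) := by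
        rw [← h3, ← mul_assoc, inv_mul_cancel₀ (hH0 a), one_mul]
      rw [h5]
      ring
    rw [h4, norm_mul, norm_inv, hHn a, inv_one, one_mul, norm_pow]
    exact (pow_le_pow_left₀ (norm_nonneg _) (hGn a) n).trans hn.le

end SSG
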