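import Mathlib
import Pool.Agent.Lib.SSG.E.A2

open NumberField

namespace SSG

variable {F : Type} [Field F] [NumberField F] {C : Type} [NormedField C] [IsUltrametricDist C] {L : LTF F C} {N : ℕ}
  {ι : Type} [Fintype ι]

/-! Chunk A4 (M). The solution of v = 1 + A t^4 v^2 + B t^6 v^3 is in Fn. Fn_unif with u = 0 gives ρ < 1 with ‖t a‖ <= ρ. v_0 = 1, v_(n+1) = 1 + A t^4 v_n^2 + B t^6 v_n^3 are in Fn (ring operations); ‖v a - v_n a‖ <= (ρ^4)^n by induction: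
v^2 - v_n^2 = (v - v_n)(v + v_n), v^3 - v_n^3 = (v - v_n)(v^2 + v v_n + v_n^2), all norms <= 1 (Fn_le), ‖t‖^6 <= ‖t‖^4 <= ρ^4. If ρ = 0 all is trivial (use max ρ (1/2)). Fn_lim. -/

/-- The successive approximations. -/
def a4_seq (A B : C) (t : (ι → 𝓞 F) → C) : ℕ → (ι → 𝓞 F) → C
  | 0 => fun _ => 1
  | n + 1 => fun a => 1 + A * (t a ^ 4 * a4_seq A B t n a ^ 2) + B * (t a ^ 6 * a4_seq A B t n a ^ 3)

theorem a4e_add {x y : C} {e : ℝ} (hx : ‖x‖ ≤ e) (hy : ‖y‖ ≤ e) : ‖x + y‖ ≤ e :=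
  (IsUltrametricDist.norm_add_le_max x y).trans (max_le hx hy)

theorem Fn_v {p : ℕ} (hp : p ≠ 0) (hL : L.Ok p) {A B : C} (hA : ‖A‖ ≤ 1) (hB : ‖B‖ ≤ 1) {t v : (ι → 𝓞 F) → C}
    (ht : L.Fn N ι t) (ht1 : ∀ a, ‖t a‖ < 1) (hv1 : ∀ a, ‖v a‖ ≤ 1)
    (hv : ∀ a, v a = 1 + A * t a ^ 4 * v a ^ 2 + B * t a ^ 6 * v a ^ 3) : L.Fn N ι v := by
  have hs := hL.small
  obtain ⟨ρ, hρ0, hρ1, hρ⟩ := Fn_unif hp hL ht 0 (fun a => by rw [sub_zero]; exact ht1 a)
  have hseq : ∀ n, L.Fn N ι (a4_seq A B t n) := by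
    intro n
    induction n with
    | zero => exact Fn_const (c := (1 : C)) (le_of_eq norm_one)
    | succ n ih =>
      exact Fn_add (Fn_add (Fn_const (c := (1 : C)) (le_of_eq norm_one))
        (Fn_scal hs hA (Fn_mul hs (Fn_pow hs ht 4) (Fn_pow hs ih 2))))
        (Fn_scal hs hB (Fn_mul hs (Fn_pow hs ht 6) (Fn_pow hs ih 3)))
  have hdist : ∀ n a, ‖v a - a4_seq A B t n a‖ ≤ ρ ^ n := by
    intro n a
    induction n with
    | zero =>
      rw [pow_zero]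
      have h1 : a4_seq A B t 0 a = 1 := rfl
      rw [h1, sub_eq_add_neg]
      exact a4e_add (hv1 a) (by rw [norm_neg, norm_one])
    | succ n ih =>
      have hw := Fn_le hs (hseq n) a
      have ht0 : ‖t a‖ ≤ ρ := by
        have := hρ a
        rwa [sub_zero] at this
      have ht4 : ‖t a‖ ^ 4 ≤ ρ := by
        have h1 : ‖t a‖ ^ 4 ≤ ‖t a‖ := by
          have := pow_le_pow_of_le_one (norm_nonneg (t a)) (ht1 a).le (show 1 ≤ 4 by norm_num)
          rwa [pow_one] at this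
        exact h1.trans ht0
      have ht6 : ‖t a‖ ^ 6 ≤ ρ := by
        have h1 : ‖t a‖ ^ 6 ≤ ‖t a‖ := by
          have := pow_le_pow_of_le_one (norm_nonneg (t a)) (ht1 a).le (show 1 ≤ 6 by norm_num)
          rwa [pow_one] at this
        exact h1.trans ht0
      have h1 : v a - a4_seq A B t (n + 1) a =
          A * (t a ^ 4 * ((v a - a4_seq A B t n a) * (v a + a4_seq A B t n a))) +
            B * (t a ^ 6 * ((v a - a4_seq A B t n a) *
              (v a ^ 2 + v a * a4_seq A B t n a + a4_seq A B t n a ^ 2))) := by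
        have h2 : a4_seq A B t (n + 1) a = 1 + A * (t a ^ 4 * a4_seq A B t n a ^ 2) +
          B * (t a ^ 6 * a4_seq A B t n a ^ 3) := rfl
        rw [h2]
        nth_rewrite 1 [hv a]
        ring
      rw [h1, pow_succ ρ n]
      have hρn : 0 ≤ ρ ^ n := pow_nonneg hρ0 n
      have key : ∀ {c s x : C}, ‖c‖ ≤ 1 → ‖s‖ ≤ ρ → ‖x‖ ≤ 1 →
          ‖c * (s * ((v a - a4_seq A B t n a) * x))‖ ≤ ρ ^ n * ρ := by
        intro c s x hc hs' hx
        rw [norm_mul, norm_mul, norm_mul]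
        have e1 : ‖v a - a4_seq A B t n a‖ * ‖x‖ ≤ ρ ^ n * 1 :=
          mul_le_mul ih hx (norm_nonneg _) hρn
        rw [mul_one] at e1
        have e2 : ‖s‖ * (‖v a - a4_seq A B t n a‖ * ‖x‖) ≤ ρ * ρ ^ n :=
          mul_le_mul hs' e1 (mul_nonneg (norm_nonneg _) (norm_nonneg _)) hρ0
        have e3 : ‖c‖ * (‖s‖ * (‖v a - a4_seq A B t n a‖ * ‖x‖)) ≤ 1 * (ρ * ρ ^ n) :=
          mul_le_mul hc e2 (mul_nonneg (norm_nonneg _) (mul_nonneg (norm_nonneg _) (norm_nonneg _)))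
            zero_le_one
        rw [one_mul] at e3
        rw [mul_comm (ρ ^ n) ρ]
        exact e3
      have hvv : ‖v a ^ 2‖ ≤ 1 := by rw [norm_pow]; exact pow_le_one₀ (norm_nonneg _) (hv1 a)
      have hww : ‖a4_seq A B t n a ^ 2‖ ≤ 1 := by rw [norm_pow]; exact pow_le_one₀ (norm_nonneg _) hw
      have hvw : ‖v a * a4_seq A B t n a‖ ≤ 1 := by
        rw [norm_mul]; exact mul_le_one₀ (hv1 a) (norm_nonneg _) hw
      have ht4' : ‖t a ^ 4‖ ≤ ρ := by rw [norm_pow]; exact ht4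
      have ht6' : ‖t a ^ 6‖ ≤ ρ := by rw [norm_pow]; exact ht6
      exact a4e_add (key hA ht4' (a4e_add (hv1 a) hw)) (key hB ht6' (a4e_add (a4e_add hvv hvw) hww))
  refine Fn_lim fun ε hε => ?_
  obtain ⟨n, hn⟩ := exists_pow_lt_of_lt_one hε hρ1
  exact ⟨a4_seq A B t n, hseq n, fun a => (hdist n a).trans hn.le⟩

end SSG
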