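import Mathlib

namespace SSG

/-! Chunk A5 (S/M). Pure algebra (field_simp, linear_combination). t = x/y, v = y^2/x^3, so t^2 v = 1/x, t^3 v = 1/y, t v^2 = y^3/x^5, t^3 v^3 = y^3/x^6. -/

/-- The numerator of x(P + R) + x(P). -/
def nX {k : Type} [Field k] (A B x₀ y₀ t v : k) : k :=
  A * t ^ 2 * v ^ 2 + B * t ^ 4 * v ^ 3 - 2 * y₀ * t * v ^ 2 + y₀ ^ 2 * t ^ 4 * v ^ 3 + 2 * x₀ * v - x₀ ^ 2 * t ^ 2 * v ^ 2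

/-- The numerator of y(P + R) + y(P) up to a factor. -/
def nY {k : Type} [Field k] (A B x₀ y₀ t v : k) : k :=
  A * t * v ^ 2 + B * t ^ 3 * v ^ 3 - 2 * y₀ * v ^ 2 + y₀ ^ 2 * t ^ 3 * v ^ 3 + 3 * x₀ ^ 2 * t * v ^ 2 - 2 * x₀ ^ 3 * t ^ 3 * v ^ 3

theorem a5_v {k : Type} [Field k] {A B x y : k} (h : y ^ 2 = x ^ 3 + A * x + B) (hx : x ≠ 0) (hy : y ≠ 0) :
    y ^ 2 / x ^ 3 = 1 + A * (x / y) ^ 4 * (y ^ 2 / x ^ 3) ^ 2 + B * (x / y) ^ 6 * (y ^ 2 / x ^ 3) ^ 3 := by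
  field_simp
  linear_combination h

theorem a5_x {k : Type} [Field k] {A B x₀ y₀ x y : k} (h : y ^ 2 = x ^ 3 + A * x + B)
    (hx : x ≠ 0) (hy : y ≠ 0) (hne : x ≠ x₀) :
    ((y - y₀) / (x - x₀)) ^ 2 - x₀ - x =
      nX A B x₀ y₀ (x / y) (y ^ 2 / x ^ 3) * (y ^ 2 / x ^ 3 * (1 - x₀ * (x / y) ^ 2 * (y ^ 2 / x ^ 3)) ^ 2)⁻¹ - x₀ := by
  have h1 : x - x₀ ≠ 0 := sub_ne_zero.2 hne
  have e1 : y ^ 2 / x ^ 3 * (1 - x₀ * (x / y) ^ 2 * (y ^ 2 / x ^ 3)) ^ 2 = y ^ 2 * (x - x₀) ^ 2 / x ^ 5 := by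
    field_simp
  rw [e1]
  unfold nX
  field_simp
  linear_combination h

theorem a5_y {k : Type} [Field k] {A B x₀ y₀ x y : k} (h : y ^ 2 = x ^ 3 + A * x + B)
    (hx : x ≠ 0) (hy : y ≠ 0) (hne : x ≠ x₀) :
    -((y - y₀) / (x - x₀) * (((y - y₀) / (x - x₀)) ^ 2 - x₀ - x - x₀) + y₀) =
      -y₀ - (1 - y₀ * (x / y) ^ 3 * (y ^ 2 / x ^ 3)) * nY A B x₀ y₀ (x / y) (y ^ 2 / x ^ 3) *
        (y ^ 2 / x ^ 3 * (1 - x₀ * (x / y) ^ 2 * (y ^ 2 / x ^ 3)) ^ 3)⁻¹ := by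
  have h1 : x - x₀ ≠ 0 := sub_ne_zero.2 hne
  have e1 : y ^ 2 / x ^ 3 * (1 - x₀ * (x / y) ^ 2 * (y ^ 2 / x ^ 3)) ^ 3 = y ^ 2 * (x - x₀) ^ 3 / x ^ 6 := by
    field_simp
  rw [e1]
  unfold nY
  field_simp
  linear_combination (-(y - y₀)) * h

end SSG
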