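import Mathlib
import Pool.Agent.Lib.H55K.G3
import Pool.Agent.Lib.SSG.E.A5

open NumberField IsDedekindDomain WeierstrassCurve

namespace SSG

open H55P (IQ embF eF LF Per IsHecke Pt ac Inert Dec)
open H35P (WAB Ker tt)
open H55K

variable {F : Type} [Field F] {A B : F} {Ω : Type} [Field Ω] [DecidableEq Ω] [Algebra F Ω] {V : ValuationSubring Ω}

/-- The function y^2/x^3 (1 at infinity). -/
noncomputable def vv (R : Pt (WAB A B) Ω) : Ω := if R = 0 then 1 else yc R ^ 2 / xc R ^ 3

/-- The coordinates of P + R. -/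
theorem vv_eq (hV : GV A B V) {R : Pt (WAB A B) Ω} (hR : Ker V R) :
    vv R = 1 + algebraMap F Ω A * tt R ^ 4 * vv R ^ 2 + algebraMap F Ω B * tt R ^ 6 * vv R ^ 3 ∧
      V.valuation (vv R) ≤ 1 ∧ V.valuation (vv R - 1) < 1 := by
  unfold vv
  by_cases h0 : R = 0
  · subst h0
    have e : tt (0 : Pt (WAB A B) Ω) = 0 := by rw [tt_eq, xc_zero, zero_div]
    simp [e]
  · rw [if_neg h0]
    obtain ⟨h1, h2, h3⟩ := tt_val hV hR h0
    have ht1 := ttlt hV hR
    have hx1 : 1 < V.valuation (xc R) := (ker_iff V h0).1 hR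
    have hy0 : yc R ≠ 0 := by
      intro h
      rw [h, map_zero, mul_zero] at h2
      exact zero_ne_one h2
    have hx0 : xc R ≠ 0 := by
      intro h
      rw [h, map_zero] at hx1
      exact absurd hx1 (not_lt.2 zero_le)
    have htt : tt R = xc R / yc R := tt_eq R
    have heq := eqnA h0
    have key := a5_v heq hx0 hy0
    rw [← htt] at key
    have hv : V.valuation (yc R ^ 2 / xc R ^ 3) = 1 := by
      rw [map_div₀, map_pow, map_pow]
      have e1 : V.valuation (yc R) ^ 2 = V.valuation (xc R) ^ 3 := by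
        have hvt : V.valuation (tt R) ≠ 0 := by
          rw [Valuation.ne_zero_iff, htt]
          exact div_ne_zero hx0 hy0
        have e2 : V.valuation (tt R) ^ 6 * V.valuation (yc R) ^ 2 = V.valuation (tt R) ^ 6 * V.valuation (xc R) ^ 3 := by
          calc V.valuation (tt R) ^ 6 * V.valuation (yc R) ^ 2 = (V.valuation (tt R) ^ 3 * V.valuation (yc R)) ^ 2 := by rw [mul_pow, ← pow_mul]
            _ = 1 := by rw [h2, one_pow]
            _ = (V.valuation (tt R) ^ 2 * V.valuation (xc R)) ^ 3 := by rw [h1, one_pow]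
            _ = V.valuation (tt R) ^ 6 * V.valuation (xc R) ^ 3 := by rw [mul_pow, ← pow_mul]
        exact mul_left_cancel₀ (pow_ne_zero 6 hvt) e2
      rw [e1]
      exact div_self (pow_ne_zero 3 ((Valuation.ne_zero_iff _).2 hx0))
    refine ⟨key, hv.le, ?_⟩
    have e3 : yc R ^ 2 / xc R ^ 3 - 1 = algebraMap F Ω A * tt R ^ 4 * (yc R ^ 2 / xc R ^ 3) ^ 2 +
        algebraMap F Ω B * tt R ^ 6 * (yc R ^ 2 / xc R ^ 3) ^ 3 := by
      linear_combination key
    rw [e3]
    refine V.valuation.map_add_lt ?_ ?_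
    · rw [map_mul, map_mul, map_pow, map_pow, hv, one_pow, mul_one]
      calc _ ≤ 1 * V.valuation (tt R) ^ 4 := mul_le_mul_left ((V.valuation_le_one_iff _).2 hV.a) _
        _ < 1 := by rw [one_mul]; exact pow_lt_one₀ zero_le ht1 (by norm_num)
    · rw [map_mul, map_mul, map_pow, map_pow, hv, one_pow, mul_one]
      calc _ ≤ 1 * V.valuation (tt R) ^ 6 := mul_le_mul_left ((V.valuation_le_one_iff _).2 hV.b) _
        _ < 1 := by rw [one_mul]; exact pow_lt_one₀ zero_le ht1 (by norm_num)

/-- The coordinates of P + R, P not in the kernel of reduction, R in the kernel. -/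
theorem add_xy (hV : GV A B V) {P R : Pt (WAB A B) Ω} (hP : ¬ Ker V P) (hR : Ker V R) :
    xc (P + R) = nX (algebraMap F Ω A) (algebraMap F Ω B) (xc P) (yc P) (tt R) (vv R) *
        (vv R * (1 - xc P * tt R ^ 2 * vv R) ^ 2)⁻¹ - xc P ∧
    yc (P + R) = -yc P - (1 - yc P * tt R ^ 3 * vv R) *
        nY (algebraMap F Ω A) (algebraMap F Ω B) (xc P) (yc P) (tt R) (vv R) *
        (vv R * (1 - xc P * tt R ^ 2 * vv R) ^ 3)⁻¹ := by
  obtain ⟨hP0, hPx⟩ := not_ker V hP
  by_cases h0 : R = 0
  · subst h0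
    have e : tt (0 : Pt (WAB A B) Ω) = 0 := by rw [tt_eq, xc_zero, zero_div]
    have e' : vv (0 : Pt (WAB A B) Ω) = 1 := by simp [vv]
    rw [add_zero, e, e']
    constructor
    · simp [nX]
      ring
    · simp [nY]
      ring
  · have hx1 : 1 < V.valuation (xc R) := (ker_iff V h0).1 hR
    obtain ⟨h1, h2, h3⟩ := tt_val hV hR h0
    have hy0 : yc R ≠ 0 := by
      intro h
      rw [h, map_zero, mul_zero] at h2
      exact zero_ne_one h2
    have hx0 : xc R ≠ 0 := by
      intro h
      rw [h, map_zero] at hx1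
      exact absurd hx1 (not_lt.2 zero_le)
    have hne : xc P ≠ xc R := by
      intro he
      rw [he] at hPx
      exact absurd hx1 (not_lt.2 hPx)
    obtain ⟨a1, a2, a3⟩ := add_coords hP0 h0 hne
    have hs : (yc P - yc R) / (xc P - xc R) = (yc R - yc P) / (xc R - xc P) := by
      rw [← neg_sub (yc R) (yc P), ← neg_sub (xc R) (xc P), neg_div_neg_eq]
    have htt : tt R = xc R / yc R := tt_eq R
    have hvv : vv R = yc R ^ 2 / xc R ^ 3 := by unfold vv; rw [if_neg h0]
    have k1 := a5_x (A := algebraMap F Ω A) (B := algebraMap F Ω B) (y₀ := yc P) (eqnA h0) hx0 hy0 (Ne.symm hne)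
    have k2 := a5_y (A := algebraMap F Ω A) (B := algebraMap F Ω B) (y₀ := yc P) (eqnA h0) hx0 hy0 (Ne.symm hne)
    rw [htt, hvv]
    constructor
    · rw [a2, hs]
      linear_combination k1
    · rw [a3, a2, hs]
      linear_combination k2

end SSG
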