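import Mathlib
import Pool.Agent.Lib.SSG.LT.Defs
import Pool.Agent.Lib.SSG.E.A3
import Pool.Agent.Lib.SSG.E.A4
import Pool.Agent.Lib.SSG.E.A6

open NumberField IsDedekindDomain WeierstrassCurve

namespace SSG

open H55P (IQ embF eF LF Per IsHecke Pt ac Inert Dec)
open H35P (WAB Ker tt)
open H55K

variable {F : Type} [Field F] [NumberField F] [IQ F] {A B : F} {Om : ℂ} {Ω : Type} [Field Ω] [DecidableEq Ω]
  [Algebra F Ω] {j : Ω →+* ℂ} {act : 𝓞 F →+* AddMonoid.End (Pt (WAB A B) Ω)} {p : ℕ} [Fact p.Prime]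
  {V : ValuationSubring Ω} {i : Ω →+* ℂ_[p]} {T : ℕ → Pt (WAB A B) Ω} {L : LTF F ℂ_[p]}

/-! Chunk A7 (M). (1) loc_le, loc_lt, loc_eq: from hL.val: V.valuation x <= 1 iff x in V iff ‖i x‖ <= 1; x <> 0: V.valuation x < 1 iff not (x⁻¹ in V) (ValuationSubring.valuation_lt_one_iff ..: v x⁻¹ = (v x)⁻¹) iff not ‖i x‖⁻¹ <= 1 iff ‖i x‖ < 1.
(2) fn_t is hL.fn; ‖i (tt R)‖ < 1 by ttlt hV (hL.ker N _) and loc_lt. (3) fn_vv: Fn_v (A4) with A := i (algebraMap F Ω A), B likewise (norms <= 1: hV.a, hV.b), vv_eq (A6), map_add, map_mul, map_pow of i.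
(4) fn_x, fn_y: add_xy (A6) with R = act (sum c_k a_k) (T N) in Ker (hL.ker); apply i (map_mul, map_inv₀, ..); nX, nY are polynomials (unfold; Fn_add, Fn_mul, Fn_const with norms of i (xc P), i (yc P), i A, i B, 2, 3 at most 1: not_ker, gv_y; ‖2‖, ‖3‖ <= 1: norm of a natural number, IsUltrametricDist.norm_natCast_le_one);
the inverse: Fn_inv (A3) with u = 1: vv * (1 - x0 t^2 vv)^2 - 1 has norm < 1 (‖vv - 1‖ < 1, ‖t‖ < 1). (5) x_cong: transl (G3) and loc_lt: V(xc (P+R) - xc P) <= max (V(2 yc P tt R), V(tt R)^2) < 1. -/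

theorem loc_le (hL : LocM A B Om j act p V i T L) (x : Ω) : V.valuation x ≤ 1 ↔ ‖i x‖ ≤ 1 := by
  rw [V.valuation_le_one_iff]
  exact hL.val x

theorem loc_lt (hL : LocM A B Om j act p V i T L) (x : Ω) : V.valuation x < 1 ↔ ‖i x‖ < 1 := by
  rcases eq_or_ne x 0 with rfl | hx
  · simp
  · have h1 := loc_le hL x⁻¹
    have hvx : V.valuation x ≠ 0 := (Valuation.ne_zero_iff _).2 hx
    have hix : i x ≠ 0 := (map_ne_zero i).2 hx
    have h2 : V.valuation x < 1 ↔ ¬ V.valuation x⁻¹ ≤ 1 := by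
      rw [map_inv₀, not_le, one_lt_inv₀ (zero_lt_iff.2 hvx)]
    have h3 : ‖i x‖ < 1 ↔ ¬ ‖i x⁻¹‖ ≤ 1 := by
      rw [map_inv₀, norm_inv, not_le, one_lt_inv₀ (norm_pos_iff.2 hix)]
    rw [h2, h3, h1]

theorem loc_eq (hL : LocM A B Om j act p V i T L) (x : Ω) : V.valuation x = 1 ↔ ‖i x‖ = 1 := by
  rw [le_antisymm_iff, le_antisymm_iff, ← not_lt, ← not_lt, ← not_lt, ← not_lt, loc_lt hL x, not_lt, not_lt, not_lt,
    loc_le hL x]

theorem a7_nat (n : ℕ) : ‖(n : ℂ_[p])‖ ≤ 1 := IsUltrametricDist.norm_natCast_le_one _ n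

theorem a7_lt (hV : GV A B V) (hL : LocM A B Om j act p V i T L) (N : ℕ) (a : 𝓞 F) :
    ‖i (tt (act a (T N)))‖ < 1 := (loc_lt hL _).1 (ttlt hV (hL.ker N a))

theorem fn_vv (hV : GV A B V) (hL : LocM A B Om j act p V i T L) (N : ℕ) {ι : Type} [Fintype ι] (c : ι → 𝓞 F) :
    L.Fn N ι (fun a => i (vv (act (∑ k, c k * a k) (T N)))) := by
  have hA : ‖i (algebraMap F Ω A)‖ ≤ 1 := (hL.val _).1 hV.a
  have hB : ‖i (algebraMap F Ω B)‖ ≤ 1 := (hL.val _).1 hV.b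
  refine Fn_v (Fact.out : p.Prime).ne_zero hL.ok hA hB (hL.fn N ι c) (fun a => a7_lt hV hL N _)
    (fun a => (loc_le hL _).1 (vv_eq hV (hL.ker N _)).2.1) fun a => ?_
  have h1 := (vv_eq hV (hL.ker N (∑ k, c k * a k))).1
  have h2 := congrArg i h1
  simpa only [map_add, map_mul, map_pow, map_one] using h2

theorem a7_one (hV : GV A B V) (hL : LocM A B Om j act p V i T L) (N : ℕ) (s : 𝓞 F) {x : ℂ_[p]} (hx : ‖x‖ ≤ 1) :
    ‖(1 - x * i (tt (act s (T N))) ^ 2 * i (vv (act s (T N)))) - 1‖ < 1 := by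
  have ht := a7_lt hV hL N s
  have hv : ‖i (vv (act s (T N)))‖ ≤ 1 := (loc_le hL _).1 (vv_eq hV (hL.ker N s)).2.1
  have e : (1 - x * i (tt (act s (T N))) ^ 2 * i (vv (act s (T N)))) - 1 =
      -(x * i (tt (act s (T N))) ^ 2 * i (vv (act s (T N)))) := by ring
  rw [e, norm_neg, norm_mul, norm_mul, norm_pow]
  calc ‖x‖ * ‖i (tt (act s (T N)))‖ ^ 2 * ‖i (vv (act s (T N)))‖
      ≤ 1 * ‖i (tt (act s (T N)))‖ ^ 2 * 1 := by gcongr
    _ < 1 := by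
      rw [one_mul, mul_one]
      exact pow_lt_one₀ (norm_nonneg _) ht (by norm_num)

theorem a7_mulone {x y : ℂ_[p]} (hx : ‖x - 1‖ < 1) (hy : ‖y - 1‖ < 1) : ‖x * y - 1‖ < 1 := by
  have hx1 : ‖x‖ ≤ 1 := by
    have e : x = (x - 1) + 1 := by ring
    rw [e]
    exact (IsUltrametricDist.norm_add_le_max _ _).trans (max_le hx.le norm_one.le)
  have e : x * y - 1 = x * (y - 1) + (x - 1) := by ring
  rw [e]
  refine (IsUltrametricDist.norm_add_le_max _ _).trans_lt (max_lt ?_ hx)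
  rw [norm_mul]
  calc ‖x‖ * ‖y - 1‖ ≤ 1 * ‖y - 1‖ := by gcongr
    _ < 1 := by rw [one_mul]; exact hy

theorem a7_powone {x : ℂ_[p]} (hx : ‖x - 1‖ < 1) (n : ℕ) : ‖x ^ n - 1‖ < 1 := by
  induction n with
  | zero => simp
  | succ n ih => rw [pow_succ]; exact a7_mulone ih hx

theorem a7_inv (hV : GV A B V) (hL : LocM A B Om j act p V i T L) (N : ℕ) {ι : Type} [Fintype ι] (c : ι → 𝓞 F)
    {x : ℂ_[p]} (hx : ‖x‖ ≤ 1) (n : ℕ) : L.Fn N ι (fun a => (i (vv (act (∑ k, c k * a k) (T N))) *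
      (1 - x * i (tt (act (∑ k, c k * a k) (T N))) ^ 2 * i (vv (act (∑ k, c k * a k) (T N)))) ^ n)⁻¹) := by
  have hs := hL.ok.small
  refine Fn_inv (Fact.out : p.Prime).ne_zero hL.ok (u := 1) ?_ norm_one fun a => ?_
  · exact Fn_mul hs (fn_vv hV hL N c) (Fn_pow hs (Fn_sub (Fn_const norm_one.le)
      (Fn_mul hs (Fn_scal hs hx (Fn_pow hs (hL.fn N ι c) 2)) (fn_vv hV hL N c))) n)
  · refine a7_mulone ?_ (a7_powone (a7_one hV hL N _ hx) n)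
    have h1 := (loc_lt hL _).1 (vv_eq hV (hL.ker N (∑ k, c k * a k))).2.2
    rwa [map_sub, map_one] at h1

theorem fn_x (hV : GV A B V) (hL : LocM A B Om j act p V i T L) (N : ℕ) {ι : Type} [Fintype ι] (c : ι → 𝓞 F)
    {P : Pt (WAB A B) Ω} (hP : ¬ Ker V P) : L.Fn N ι (fun a => i (xc (P + act (∑ k, c k * a k) (T N)))) := by
  have hs := hL.ok.small
  have hA : ‖i (algebraMap F Ω A)‖ ≤ 1 := (hL.val _).1 hV.a
  have hB : ‖i (algebraMap F Ω B)‖ ≤ 1 := (hL.val _).1 hV.b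
  have hx : ‖i (xc P)‖ ≤ 1 := (loc_le hL _).1 (not_ker V hP).2
  have hy : ‖i (yc P)‖ ≤ 1 := (loc_le hL _).1 (gv_y hV hP)
  have ht := hL.fn N ι c
  have hv := fn_vv hV hL N c
  have e : (fun a : ι → 𝓞 F => i (xc (P + act (∑ k, c k * a k) (T N)))) = fun a =>
      (i (algebraMap F Ω A) * i (tt (act (∑ k, c k * a k) (T N))) ^ 2 * i (vv (act (∑ k, c k * a k) (T N))) ^ 2 +
        i (algebraMap F Ω B) * i (tt (act (∑ k, c k * a k) (T N))) ^ 4 * i (vv (act (∑ k, c k * a k) (T N))) ^ 3 -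
        ((2 : ℕ) : ℂ_[p]) * i (yc P) * i (tt (act (∑ k, c k * a k) (T N))) * i (vv (act (∑ k, c k * a k) (T N))) ^ 2 +
        i (yc P) ^ 2 * i (tt (act (∑ k, c k * a k) (T N))) ^ 4 * i (vv (act (∑ k, c k * a k) (T N))) ^ 3 +
        ((2 : ℕ) : ℂ_[p]) * i (xc P) * i (vv (act (∑ k, c k * a k) (T N))) -
        i (xc P) ^ 2 * i (tt (act (∑ k, c k * a k) (T N))) ^ 2 * i (vv (act (∑ k, c k * a k) (T N))) ^ 2) *
        (i (vv (act (∑ k, c k * a k) (T N))) *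
          (1 - i (xc P) * i (tt (act (∑ k, c k * a k) (T N))) ^ 2 * i (vv (act (∑ k, c k * a k) (T N)))) ^ 2)⁻¹ -
        i (xc P) := by
    funext a
    rw [(add_xy hV hP (hL.ker N (∑ k, c k * a k))).1]
    simp only [nX, map_sub, map_mul, map_add, map_inv₀, map_pow, map_one, map_ofNat, Nat.cast_ofNat]
  rw [e]
  have hxx : ‖i (xc P) ^ 2‖ ≤ 1 := by rw [norm_pow]; exact pow_le_one₀ (norm_nonneg _) hx
  have hyy : ‖i (yc P) ^ 2‖ ≤ 1 := by rw [norm_pow]; exact pow_le_one₀ (norm_nonneg _) hy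
  have h2x : ‖((2 : ℕ) : ℂ_[p]) * i (xc P)‖ ≤ 1 := by
    rw [norm_mul]; exact mul_le_one₀ (a7_nat 2) (norm_nonneg _) hx
  have h2y : ‖((2 : ℕ) : ℂ_[p]) * i (yc P)‖ ≤ 1 := by
    rw [norm_mul]; exact mul_le_one₀ (a7_nat 2) (norm_nonneg _) hy
  refine Fn_sub (Fn_mul hs ?_ (a7_inv hV hL N c hx 2)) (Fn_const hx)
  refine Fn_sub (Fn_add (Fn_add (Fn_sub (Fn_add ?_ ?_) ?_) ?_) ?_) ?_
  · exact Fn_mul hs (Fn_scal hs hA (Fn_pow hs ht 2)) (Fn_pow hs hv 2)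
  · exact Fn_mul hs (Fn_scal hs hB (Fn_pow hs ht 4)) (Fn_pow hs hv 3)
  · exact Fn_mul hs (Fn_scal hs h2y ht) (Fn_pow hs hv 2)
  · exact Fn_mul hs (Fn_scal hs hyy (Fn_pow hs ht 4)) (Fn_pow hs hv 3)
  · exact Fn_scal hs h2x hv
  · exact Fn_mul hs (Fn_scal hs hxx (Fn_pow hs ht 2)) (Fn_pow hs hv 2)

theorem fn_y (hV : GV A B V) (hL : LocM A B Om j act p V i T L) (N : ℕ) {ι : Type} [Fintype ι] (c : ι → 𝓞 F)
    {P : Pt (WAB A B) Ω} (hP : ¬ Ker V P) : L.Fn N ι (fun a => i (yc (P + act (∑ k, c k * a k) (T N)))) := by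
  have hs := hL.ok.small
  have hA : ‖i (algebraMap F Ω A)‖ ≤ 1 := (hL.val _).1 hV.a
  have hB : ‖i (algebraMap F Ω B)‖ ≤ 1 := (hL.val _).1 hV.b
  have hx : ‖i (xc P)‖ ≤ 1 := (loc_le hL _).1 (not_ker V hP).2
  have hy : ‖i (yc P)‖ ≤ 1 := (loc_le hL _).1 (gv_y hV hP)
  have ht := hL.fn N ι c
  have hv := fn_vv hV hL N c
  have e : (fun a : ι → 𝓞 F => i (yc (P + act (∑ k, c k * a k) (T N)))) = fun a =>
      -i (yc P) - (1 - i (yc P) * i (tt (act (∑ k, c k * a k) (T N))) ^ 3 * i (vv (act (∑ k, c k * a k) (T N)))) *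
      (i (algebraMap F Ω A) * i (tt (act (∑ k, c k * a k) (T N))) * i (vv (act (∑ k, c k * a k) (T N))) ^ 2 +
        i (algebraMap F Ω B) * i (tt (act (∑ k, c k * a k) (T N))) ^ 3 * i (vv (act (∑ k, c k * a k) (T N))) ^ 3 -
        ((2 : ℕ) : ℂ_[p]) * i (yc P) * i (vv (act (∑ k, c k * a k) (T N))) ^ 2 +
        i (yc P) ^ 2 * i (tt (act (∑ k, c k * a k) (T N))) ^ 3 * i (vv (act (∑ k, c k * a k) (T N))) ^ 3 +
        ((3 : ℕ) : ℂ_[p]) * i (xc P) ^ 2 * i (tt (act (∑ k, c k * a k) (T N))) * i (vv (act (∑ k, c k * a k) (T N))) ^ 2 -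
        ((2 : ℕ) : ℂ_[p]) * i (xc P) ^ 3 * i (tt (act (∑ k, c k * a k) (T N))) ^ 3 *
          i (vv (act (∑ k, c k * a k) (T N))) ^ 3) *
        (i (vv (act (∑ k, c k * a k) (T N))) *
          (1 - i (xc P) * i (tt (act (∑ k, c k * a k) (T N))) ^ 2 * i (vv (act (∑ k, c k * a k) (T N)))) ^ 3)⁻¹ := by
    funext a
    rw [(add_xy hV hP (hL.ker N (∑ k, c k * a k))).2]
    simp only [nY, map_sub, map_mul, map_add, map_inv₀, map_pow, map_one, map_neg, map_ofNat, Nat.cast_ofNat]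
  rw [e]
  have hyy : ‖i (yc P) ^ 2‖ ≤ 1 := by rw [norm_pow]; exact pow_le_one₀ (norm_nonneg _) hy
  have h2y : ‖((2 : ℕ) : ℂ_[p]) * i (yc P)‖ ≤ 1 := by
    rw [norm_mul]; exact mul_le_one₀ (a7_nat 2) (norm_nonneg _) hy
  have h3x : ‖((3 : ℕ) : ℂ_[p]) * i (xc P) ^ 2‖ ≤ 1 := by
    rw [norm_mul, norm_pow]; exact mul_le_one₀ (a7_nat 3) (pow_nonneg (norm_nonneg _) _) (pow_le_one₀ (norm_nonneg _) hx)
  have h2x : ‖((2 : ℕ) : ℂ_[p]) * i (xc P) ^ 3‖ ≤ 1 := by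
    rw [norm_mul, norm_pow]; exact mul_le_one₀ (a7_nat 2) (pow_nonneg (norm_nonneg _) _) (pow_le_one₀ (norm_nonneg _) hx)
  refine Fn_sub (Fn_neg (Fn_const hy)) (Fn_mul hs (Fn_mul hs (Fn_sub (Fn_const norm_one.le)
    (Fn_mul hs (Fn_scal hs hy (Fn_pow hs ht 3)) hv)) ?_) (a7_inv hV hL N c hx 3))
  refine Fn_sub (Fn_add (Fn_add (Fn_sub (Fn_add ?_ ?_) ?_) ?_) ?_) ?_
  · exact Fn_mul hs (Fn_scal hs hA ht) (Fn_pow hs hv 2)
  · exact Fn_mul hs (Fn_scal hs hB (Fn_pow hs ht 3)) (Fn_pow hs hv 3)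
  · exact Fn_scal hs h2y (Fn_pow hs hv 2)
  · exact Fn_mul hs (Fn_scal hs hyy (Fn_pow hs ht 3)) (Fn_pow hs hv 3)
  · exact Fn_mul hs (Fn_scal hs h3x ht) (Fn_pow hs hv 2)
  · exact Fn_mul hs (Fn_scal hs h2x (Fn_pow hs ht 3)) (Fn_pow hs hv 3)

theorem x_cong (hV : GV A B V) (hL : LocM A B Om j act p V i T L) (N : ℕ) (a : 𝓞 F)
    {P : Pt (WAB A B) Ω} (hP : ¬ Ker V P) : ‖i (xc (P + act a (T N))) - i (xc P)‖ < 1 := by
  rw [← map_sub, ← loc_lt hL]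
  have hR := hL.ker N a
  have h1 := (transl hV hP hR).2.1
  have ht := ttlt hV hR
  have hy := gv_y hV hP
  have e : xc (P + act a (T N)) - xc P = (xc (P + act a (T N)) - xc P + 2 * yc P * tt (act a (T N))) -
      2 * yc P * tt (act a (T N)) := by ring
  rw [e]
  refine V.valuation.map_sub_lt ?_ ?_
  · exact h1.trans_lt (pow_lt_one₀ zero_le ht (by norm_num))
  · rw [map_mul, map_mul]
    calc _ ≤ 1 * V.valuation (tt (act a (T N))) := by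
          refine mul_le_mul_left ?_ _
          exact mul_le_one' hV.two.le hy
      _ < 1 := by rw [one_mul]; exact ht

end SSG
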