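import Mathlib
import Pool.Agent.Lib.SSG.E.A7
import Pool.Agent.Lib.H35P.A4

open NumberField IsDedekindDomain WeierstrassCurve

namespace SSG

open H55P (IQ embF eF LF Per IsHecke Pt ac Inert Dec)
open H35P (WAB Ker tt)
open H55K

variable {F : Type} [Field F] [NumberField F] [IQ F] {A B : F} {Om : ℂ} {Ω : Type} [Field Ω] [DecidableEq Ω]
  [Algebra F Ω] {j : Ω →+* ℂ} {act : 𝓞 F →+* AddMonoid.End (Pt (WAB A B) Ω)} {p : ℕ} [Fact p.Prime]
  {V : ValuationSubring Ω} {i : Ω →+* ℂ_[p]} {T : ℕ → Pt (WAB A B) Ω} {L : LTF F ℂ_[p]}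

/-- The point P has the parameter z. -/
def Um (A B : F) (Om : ℂ) (j : Ω →+* ℂ) (P : Pt (WAB A B) Ω) (z : ℂ) : Prop :=
  P ≠ 0 ∧ z ∉ (LF F).lattice ∧ j (xc P) = (LF F).weierstrassP z / Om ^ 2 ∧ j (yc P) = (LF F).derivWeierstrassP z / (2 * Om ^ 3)

/-! Chunk A8 (M). (0) T2_perz: reindex the sum over the lattice by l -> l + l0 (Equiv.addRight, Equiv.tsum_eq). (1) T2_lat: T2 (LF F) z u = 0 for u in the lattice: H35P.A4_F_per (T2 z (0 + u) = T2 z 0) and T2 z 0 = sum of tT z 0 l = 0 (each term is 2/(z+l) - 2/(z+l)).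
(2) T2_val: T_formula (H35P/A4.lean) with z, u, z + u, z - u not in the lattice: T2 * (wp z - wp u) = wp' z. Substitute wp z = j(xc P) Om^2, wp u = j(xc Q) Om^2, wp' z = 2 Om^3 j (yc P) (Om <> 0: Per); divide by Om^3. xc P <> xc Q because
wp z <> wp u (H35P wp_ne / or: if xc P = xc Q then yc P = 0 .. not needed: hypothesis hne). -/

theorem T2_perz (z u w : ℂ) (hw : w ∈ (LF F).lattice) : H35P.T2 (LF F) (z + w) u = H35P.T2 (LF F) z u := by
  unfold H35P.T2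
  rw [← Equiv.tsum_eq (Equiv.addRight (⟨w, hw⟩ : (LF F).lattice)) (fun l => H35P.tT (LF F) z u l)]
  refine tsum_congr fun l => ?_
  unfold H35P.tT
  have e : (((Equiv.addRight (⟨w, hw⟩ : (LF F).lattice)) l : (LF F).lattice) : ℂ) = (l : ℂ) + w := rfl
  rw [e]
  have e1 : z + w + u + (l : ℂ) = z + u + ((l : ℂ) + w) := by ring
  have e2 : z + w - u + (l : ℂ) = z - u + ((l : ℂ) + w) := by ring
  have e3 : z + w + (l : ℂ) = z + ((l : ℂ) + w) := by ring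
  rw [e1, e2, e3]

theorem T2_lat (z u : ℂ) (hu : u ∈ (LF F).lattice) : H35P.T2 (LF F) z u = 0 := by
  have h1 := H35P.A4_F_per (LF F) z 0 u hu
  rw [zero_add] at h1
  rw [h1]
  unfold H35P.T2 H35P.tT
  have h2 : ∀ l : (LF F).lattice, (z + 0 + (l : ℂ))⁻¹ + (z - 0 + (l : ℂ))⁻¹ - 2 * (z + (l : ℂ))⁻¹ = 0 := by
    intro l
    rw [add_zero, sub_zero]
    ring
  simp_rw [h2]
  exact tsum_zero

theorem T2_val (hOm : Om ≠ 0) {P Q : Pt (WAB A B) Ω} {z u : ℂ} (hP : Um A B Om j P z) (hQ : Um A B Om j Q u)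
    (h1 : z + u ∉ (LF F).lattice) (h2 : z - u ∉ (LF F).lattice) (hne : xc P ≠ xc Q) :
    H35P.T2 (LF F) z u / Om = j (2 * yc P * (xc P - xc Q)⁻¹) := by
  have h3 := H35P.T_formula (LF F) z u hP.2.1 hQ.2.1 h1 h2
  have h4 := hP.2.2.1
  have h5 := hP.2.2.2
  have h6 := hQ.2.2.1
  have hx : j (xc P) - j (xc Q) ≠ 0 := sub_ne_zero.2 fun h => hne (j.injective h)
  have e1 : (LF F).weierstrassP z = j (xc P) * Om ^ 2 := by rw [h4]; field_simp
  have e2 : (LF F).weierstrassP u = j (xc Q) * Om ^ 2 := by rw [h6]; field_simp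
  have e3 : (LF F).derivWeierstrassP z = j (yc P) * (2 * Om ^ 3) := by rw [h5]; field_simp
  rw [e1, e2, e3] at h3
  rw [map_mul, map_mul, map_inv₀, map_sub, map_ofNat, div_eq_iff hOm]
  field_simp
  have h7 : H35P.T2 (LF F) z u * (j (xc P) - j (xc Q)) * Om ^ 2 = 2 * j (yc P) * Om * Om ^ 2 := by
    linear_combination h3
  exact mul_right_cancel₀ (pow_ne_zero 2 hOm) h7

end SSG
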