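import Mathlib
import Pool.Agent.Lib.SSG.E.A8

open NumberField IsDedekindDomain WeierstrassCurve

namespace SSG

open H55P (IQ embF eF LF Per IsHecke Pt ac Inert Dec)
open H35P (WAB Ker tt)
open H55K

variable {F : Type} [Field F] [NumberField F] [IQ F] {A B : F} {Om : ℂ} {Ω : Type} [Field Ω] [DecidableEq Ω]
  [Algebra F Ω] {j : Ω →+* ℂ} {act : 𝓞 F →+* AddMonoid.End (Pt (WAB A B) Ω)} {p : ℕ} [Fact p.Prime]
  {V : ValuationSubring Ω} {i : Ω →+* ℂ_[p]} {T : ℕ → Pt (WAB A B) Ω} {L : LTF F ℂ_[p]}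

/-! Chunk A9 (M/L). One second difference as a function of the torsion point of p-power order. Case e(δ)/M in the lattice: hh = 0 (T2_lat). Otherwise put b := (-p)^N M (in 𝓞 F), T_b from h.gen b (h := CMA): act a T_b has the parameter e(a)/e(b) for b not dividing a;
e(x)/e(b) is in the lattice LF F iff b | x (mem_LF, eF_inj). act M T_b = T N: both are zero if N = 0; in general compare the coordinates (h.gen and hL.unif at a = 1; j injective; two nonzero points with the same xc, yc are equal), or act 1.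
P₀ := act ((-p)^N τ) T_b, Q := act ((-p)^N δ) T_b, killed by M (n • = act of the natural number). P₀ + act s (T N) = act ((-p)^N τ + M s) T_b has the parameter e(s)/(-p)^N + e(τ)/M. l divides M, δ, not τ and not p (coprime): so l does not divide (-p)^N (τ + δ') + M s
for δ' in {0, δ, -δ}: none of these elements is divisible by b (l | b). Hence: P₀, P₀ + Q, P₀ - Q, Q nonzero, of order prime to p (V(M) = 1), so not in Ker (ker_tors), V(xc P₀ - xc Q) = 1 (cls_diff). T2_val for z, u; xc (P₀ + R) <> xc Q because ‖i xc (P₀+R) - i xc P₀‖ < 1 = ‖i xc P₀ - i xc Q‖.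
hh a = 2 * yc (P₀ + R a) * (xc (P₀ + R a) - xc Q)⁻¹, R a = act (sum c_k a_k) (T N). i (hh a): fn_y, fn_x, Fn_const, Fn_sub, Fn_inv with u = i xc P₀ - i xc Q, Fn_mul, ‖2‖ <= 1. -/

section mult

variable {M R : Type} [AddCommGroup M] [CommRing R] {act : R →+* AddMonoid.End M}

theorem a9_mul (a b : R) (P : M) : act (a * b) P = act a (act b P) := by rw [map_mul]; rfl

theorem a9_add (a b : R) (P : M) : act (a + b) P = act a P + act b P := by rw [map_add]; rfl

theorem a9_sub (a b : R) (P : M) : act (a - b) P = act a P - act b P := by rw [map_sub]; rfl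

theorem a9_one (P : M) : act (1 : R) P = P := by rw [map_one]; rfl

theorem a9_nat (n : ℕ) (P : M) : act (n : R) P = n • P := by
  rw [map_natCast]
  induction n with
  | zero => rw [Nat.cast_zero, zero_smul]; rfl
  | succ n ih => rw [Nat.cast_succ, succ_nsmul, ← ih]; rfl

end mult

omit [DecidableEq Ω] in
theorem a9_val (hVp : V.valuation (p : Ω) < 1) {M : ℕ} (hpM : ¬ p ∣ M) : V.valuation (M : Ω) = 1 := by
  have hle : ∀ n : ℕ, V.valuation (n : Ω) ≤ 1 := fun n => (V.valuation_le_one_iff _).2 (natCast_mem V n)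
  have hlz : ∀ n : ℤ, V.valuation (n : Ω) ≤ 1 := fun n => (V.valuation_le_one_iff _).2 (intCast_mem V n)
  refine le_antisymm (hle M) (not_lt.1 fun hlt => ?_)
  have hc : Nat.gcd p M = 1 := (Nat.Prime.coprime_iff_not_dvd (Fact.out : p.Prime)).2 hpM
  have h1 := Nat.gcd_eq_gcd_ab p M
  rw [hc] at h1
  have h2 : (1 : Ω) = (p : Ω) * ((p.gcdA M : ℤ) : Ω) + (M : Ω) * ((p.gcdB M : ℤ) : Ω) := by
    have := congrArg (fun z : ℤ => (z : Ω)) h1
    push_cast at this
    exact this
  have h3 : V.valuation (1 : Ω) < 1 := by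
    rw [h2]
    refine V.valuation.map_add_lt ?_ ?_
    · rw [map_mul]
      exact (mul_le_of_le_one_right' (hlz _)).trans_lt hVp
    · rw [map_mul]
      exact (mul_le_of_le_one_right' (hlz _)).trans_lt hlt
  rw [map_one] at h3
  exact lt_irrefl _ h3

theorem term_fn (h : CMA F A B Om j act) (hV : GV A B V) (hVp : V.valuation (p : Ω) < 1) (hL : LocM A B Om j act p V i T L)
    (N : ℕ) {ι : Type} [Fintype ι] (c : ι → 𝓞 F) {l τ δ : 𝓞 F} {M : ℕ} (hM : M ≠ 0) (hpM : ¬ p ∣ M) (hl : Prime l)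
    (hlp : IsCoprime l (p : 𝓞 F)) (hlM : l ∣ (M : 𝓞 F)) (hlδ : l ∣ δ) (hlτ : ¬ l ∣ τ) :
    ∃ hh : (ι → 𝓞 F) → Ω, (∀ a, j (hh a) = H35P.T2 (LF F)
        (eF F (∑ k, c k * a k) / (-(p : ℂ)) ^ N + eF F τ / M) (eF F δ / M) / Om) ∧
      L.Fn N ι (fun a => i (hh a)) := by
  classical
  have hOm : Om ≠ 0 := h.per.ne
  have hMC : (M : ℂ) ≠ 0 := Nat.cast_ne_zero.2 hM
  have hpC : (-(p : ℂ)) ^ N ≠ 0 := pow_ne_zero N (neg_ne_zero.2 (Nat.cast_ne_zero.2 (Fact.out : p.Prime).ne_zero))
  by_cases hMδ : (M : 𝓞 F) ∣ δ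
  · obtain ⟨δ', rfl⟩ := hMδ
    refine ⟨fun _ => 0, fun a => ?_, ?_⟩
    · rw [map_zero, T2_lat, zero_div]
      rw [H55P.mem_LF]
      refine ⟨δ', ?_⟩
      rw [map_mul, map_natCast]
      field_simp
    · have := Fn_const (L := L) (N := N) (ι := ι) (c := (0 : ℂ_[p])) (by rw [norm_zero]; exact zero_le_one)
      simpa only [map_zero] using this
  · set q : 𝓞 F := (-(p : 𝓞 F)) ^ N with hq
    have hpO : (p : 𝓞 F) ≠ 0 := Nat.cast_ne_zero.2 (Fact.out : p.Prime).ne_zero
    have hq0 : q ≠ 0 := pow_ne_zero N (neg_ne_zero.2 hpO)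
    have hMO : (M : 𝓞 F) ≠ 0 := Nat.cast_ne_zero.2 hM
    have hb0 : q * M ≠ 0 := mul_ne_zero hq0 hMO
    have hqe : eF F q = (-(p : ℂ)) ^ N := by rw [hq, map_pow, map_neg, map_natCast]
    have hbe : eF F (q * M) = (-(p : ℂ)) ^ N * M := by rw [map_mul, hqe, map_natCast]
    have hqp : q = (-1) ^ N * (p : 𝓞 F) ^ N := by rw [hq, neg_pow]
    have hs1 : ((-1 : 𝓞 F) ^ N) * (-1) ^ N = 1 := by rw [← mul_pow]; simp
    obtain ⟨Tb, -, -, hzero, hco⟩ := h.gen (q * M) hb0
    -- parameters
    have hnl : ∀ a : 𝓞 F, ¬ q * M ∣ a → eF F a / eF F (q * M) ∉ (LF F).lattice := by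
      intro a ha hmem
      rw [H55P.mem_LF] at hmem
      obtain ⟨y, hy⟩ := hmem
      apply ha
      refine ⟨y, H55P.eF_inj ?_⟩
      rw [map_mul, ← hy, mul_div_cancel₀]
      rw [hbe]
      exact mul_ne_zero hpC hMC
    have hUm : ∀ a : 𝓞 F, ¬ q * M ∣ a → Um A B Om j (act a Tb) (eF F a / eF F (q * M)) := fun a ha =>
      ⟨fun h0 => ha ((hzero a).1 h0), hnl a ha, (hco a ha).1, (hco a ha).2⟩
    -- T N
    have hTN : act (M : 𝓞 F) Tb = T N := by
      by_cases hu : (p : 𝓞 F) ^ N ∣ 1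
      · have h1 : T N = 0 := by
          have := (hL.zero N 1).2 hu
          rwa [a9_one] at this
        rw [h1, hzero]
        obtain ⟨c, hc⟩ := hu
        refine ⟨(-1) ^ N * c, ?_⟩
        rw [hqp]
        linear_combination (M : 𝓞 F) * hc - (M : 𝓞 F) * (p : 𝓞 F) ^ N * c * hs1
      · have h1 : T N ≠ 0 := by
          intro h0
          apply hu
          rw [← hL.zero N 1, a9_one, h0]
        have h2 : ¬ q * M ∣ (M : 𝓞 F) := by
          rintro ⟨c, hc⟩
          apply hu
          refine ⟨(-1) ^ N * c, ?_⟩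
          have h3 : (M : 𝓞 F) * 1 = M * (q * c) := by linear_combination hc
          linear_combination mul_left_cancel₀ hMO h3 + c * hqp
        have h4 := hL.unif N 1 hu
        rw [a9_one] at h4
        have h5 := hUm _ h2
        have h6 : eF F (M : 𝓞 F) / eF F (q * M) = eF F 1 / (-(p : ℂ)) ^ N := by
          rw [hbe, map_one, map_natCast]
          field_simp
        refine pt_ext h5.1 h1 (j.injective ?_) (j.injective ?_)
        · rw [h5.2.2.1, h6, h4.1]
        · rw [h5.2.2.2, h6, h4.2]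
    -- divisibility
    have hlq : ¬ l ∣ q := by
      intro hd
      have h1 := (hl.dvd_of_dvd_pow (hq ▸ hd : l ∣ (-(p : 𝓞 F)) ^ N))
      rw [dvd_neg] at h1
      exact hl.not_isUnit (hlp.isUnit_of_dvd' dvd_rfl h1)
    have hlb : l ∣ q * M := hlM.mul_left q
    have hnd : ∀ (δ' s : 𝓞 F), l ∣ δ' → ¬ q * M ∣ q * τ + q * δ' + s * M := by
      intro δ' s hδ' hd
      have h1 : l ∣ q * τ + q * δ' + s * M := hlb.trans hd
      have h2 : l ∣ q * τ := by
        have h3 : q * τ = (q * τ + q * δ' + s * M) - (q * δ' + s * M) := by ring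
        rw [h3]
        exact dvd_sub h1 (dvd_add (hδ'.mul_left q) (hlM.mul_left s))
      rcases hl.dvd_or_dvd h2 with h4 | h4
      · exact hlq h4
      · exact hlτ h4
    have hndQ : ¬ q * M ∣ q * δ := by
      rintro ⟨c, hc⟩
      apply hMδ
      refine ⟨c, ?_⟩
      have h3 : q * δ = q * (M * c) := by linear_combination hc
      exact mul_left_cancel₀ hq0 h3
    -- prime to p
    have hVM := a9_val (V := V) hVp hpM
    have hnk : ∀ y : 𝓞 F, ¬ q * M ∣ q * y → ¬ Ker V (act (q * y) Tb) := by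
      intro y hy hk
      apply hy
      rw [← hzero]
      refine ker_tors hV M hVM ?_ hk
      rw [← a9_nat (act := act), ← a9_mul, hzero]
      exact ⟨y, by ring⟩
    have hP : ¬ Ker V (act (q * τ) Tb) := hnk τ (by
      have := hnd 0 0 (dvd_zero l)
      simpa using this)
    have hQ : ¬ Ker V (act (q * δ) Tb) := hnk δ hndQ
    have hPQ : ¬ Ker V (act (q * τ) Tb - act (q * δ) Tb) := by
      rw [← a9_sub, ← mul_sub]
      refine hnk _ ?_
      have := hnd (-δ) 0 ((dvd_neg).2 hlδ)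
      have e : q * (τ - δ) = q * τ + q * (-δ) + 0 * M := by ring
      rw [e]
      exact this
    have hPQ' : ¬ Ker V (act (q * τ) Tb + act (q * δ) Tb) := by
      rw [← a9_add, ← mul_add]
      refine hnk _ ?_
      have := hnd δ 0 hlδ
      have e : q * (τ + δ) = q * τ + q * δ + 0 * M := by ring
      rw [e]
      exact this
    have hcls := cls_diff hV hP hQ hPQ hPQ'
    rw [loc_eq hL, map_sub] at hcls
    set P₀ := act (q * τ) Tb with hP₀
    set Q := act (q * δ) Tb with hQ₀
    have hsum : ∀ s : 𝓞 F, P₀ + act s (T N) = act (q * τ + s * M) Tb := by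
      intro s
      rw [a9_add, a9_mul s, hTN]
    have hxq : ∀ s : 𝓞 F, xc (P₀ + act s (T N)) ≠ xc Q := by
      intro s he
      have h1 := x_cong hV hL N s hP
      rw [he, norm_sub_rev] at h1
      exact (ne_of_lt h1) hcls
    have hz : ∀ s : 𝓞 F, eF F s / (-(p : ℂ)) ^ N + eF F τ / M = eF F (q * τ + s * M) / eF F (q * M) := by
      intro s
      rw [hbe, map_add, map_mul, map_mul, hqe, map_natCast]
      field_simp
      ring
    have hu : eF F δ / M = eF F (q * δ) / eF F (q * M) := by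
      rw [hbe, map_mul, hqe]
      field_simp
    refine ⟨fun a => 2 * yc (P₀ + act (∑ k, c k * a k) (T N)) *
      (xc (P₀ + act (∑ k, c k * a k) (T N)) - xc Q)⁻¹, fun a => ?_, ?_⟩
    · set s := ∑ k, c k * a k with hs
      have hnd0 := hnd 0 s (dvd_zero l)
      rw [mul_zero, add_zero] at hnd0
      have hU1 : Um A B Om j (P₀ + act s (T N)) (eF F s / (-(p : ℂ)) ^ N + eF F τ / M) := by
        rw [hsum, hz]
        exact hUm _ hnd0
      have hU2 : Um A B Om j Q (eF F δ / M) := by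
        rw [hu]
        exact hUm _ hndQ
      refine (T2_val hOm hU1 hU2 ?_ ?_ (hxq s)).symm
      · rw [hz, hu, ← add_div, ← map_add]
        refine hnl _ ?_
        have := hnd δ s hlδ
        have e : q * τ + s * M + q * δ = q * τ + q * δ + s * M := by ring
        rw [e]
        exact this
      · rw [hz, hu, ← sub_div, ← map_sub]
        refine hnl _ ?_
        have := hnd (-δ) s ((dvd_neg).2 hlδ)
        have e : q * τ + s * M - q * δ = q * τ + q * (-δ) + s * M := by ring
        rw [e]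
        exact this
    · have hs := hL.ok.small
      have hxQ : ‖i (xc Q)‖ ≤ 1 := (loc_le hL _).1 (not_ker V hQ).2
      have h2 : ‖(2 : ℂ_[p])‖ ≤ 1 := by
        have := a7_nat (p := p) 2
        rwa [Nat.cast_ofNat] at this
      have e : (fun a : ι → 𝓞 F => i (2 * yc (P₀ + act (∑ k, c k * a k) (T N)) *
          (xc (P₀ + act (∑ k, c k * a k) (T N)) - xc Q)⁻¹)) = fun a =>
          2 * i (yc (P₀ + act (∑ k, c k * a k) (T N))) *
          (i (xc (P₀ + act (∑ k, c k * a k) (T N))) - i (xc Q))⁻¹ := by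
        funext a
        rw [map_mul, map_mul, map_inv₀, map_sub, map_ofNat]
      rw [e]
      refine Fn_mul hs (Fn_scal hs h2 (fn_y hV hL N c hP)) ?_
      refine Fn_inv (Fact.out : p.Prime).ne_zero hL.ok (u := i (xc P₀) - i (xc Q))
        (Fn_sub (fn_x hV hL N c hP) (Fn_const hxQ)) hcls fun a => ?_
      have h3 := x_cong hV hL N (∑ k, c k * a k) hP
      have e2 : i (xc (P₀ + act (∑ k, c k * a k) (T N))) - i (xc Q) - (i (xc P₀) - i (xc Q)) =
          i (xc (P₀ + act (∑ k, c k * a k) (T N))) - i (xc P₀) := by ring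
      rw [e2]
      exact h3

end SSG
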