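import Mathlib
import Pool.Agent.Lib.SSG.E.IFD

open NumberField IsDedekindDomain

namespace SSG.E

open H55N H55P

variable {F : Type} [Field F] [NumberField F] [IQ F] {K : Type} [Field K] [NumberField K] [Algebra F K] {m p N : ℕ}

/-! Chunk A10 (M). (1) lin_form: the trace against a p-integral element is a linear form in the coordinates modulo p^N. α = y₀/d, p not dividing d; d' with d d' = 1 mod p^N (Nat / Int coprime). D.Tr α x = embF (trace (x α)) (Tr_eq, Lib/H55P/A2.lean), so d * y = trace (y₀ x)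
in 𝓞 F (embF injective), so by hr.tr: mk (d y) = sum r k (y₀ x) = sum r k y₀ * r k x; c k := d' * out (r k y₀); mk (out z) = z (Ideal.Quotient.mk_out); mk y = mk (sum c k * cr r x k); then Ideal.Quotient.eq and Ideal.mem_span_singleton.
(2) alg_int: the embeddings of a p-integral element: σ x is algebraic over Q, so it is in the range of j (Ω is algebraically closed of characteristic 0: the minimal polynomial of x over Q splits in Ω; its roots in ℂ are the images of the roots in Ω: IsAlgClosed.splits, Polynomial.roots_map; see tors_range in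
Lib/H55K/C13.lean). d * x integral over Z, so j ω = σ x has d ω integral over Z (j injective), d ω in V (V is integrally closed: IsIntegral ... ValuationSubring; see ak_le in Lib/H55K/G1.lean), V(d) = 1 because p does not divide d and V(p) < 1 (Bezout). -/

theorem lin_form (D : H55P.Ctx F K m) (hE : Emb F D.σ) {v : Fin (m + 1) → HeightOneSpectrum (𝓞 K)}
    {r : Fin (m + 1) → 𝓞 K →+* RN F p N} (hp : p.Prime) (hr : Crd p N v r) {α : K} (hα : LInt p α) :
    ∃ c : Fin (m + 1) → 𝓞 F, ∀ (x : 𝓞 K) (y : 𝓞 F), D.Tr α x = eF F y →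
      (p : 𝓞 F) ^ N ∣ y - ∑ k, c k * cr r x k := by
  obtain ⟨d, hd, y0, hy0⟩ := hα
  have hco : IsCoprime (d : ℤ) ((p : ℤ) ^ N) := by
    apply IsCoprime.pow_right
    rw [Nat.isCoprime_iff_coprime]
    exact ((Nat.Prime.coprime_iff_not_dvd hp).2 hd).symm
  obtain ⟨a, b, hab⟩ := hco
  refine ⟨fun k => (a : 𝓞 F) * Quotient.out (r k y0), ?_⟩
  intro x y hxy
  rw [Tr_eq D hE] at hxy
  have h1 : Algebra.trace F K ((x : K) * α) = (y : F) := (embF F).injective hxy
  have h2 : Algebra.trace F K ((y0 * x : 𝓞 K) : K) = (((d : 𝓞 F) * y : 𝓞 F) : F) := by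
    have e1 : ((y0 * x : 𝓞 K) : K) = (d : F) • ((x : K) * α) := by
      have e0 : ((y0 * x : 𝓞 K) : K) = (y0 : K) * (x : K) := map_mul (algebraMap (𝓞 K) K) y0 x
      rw [Algebra.smul_def, e0, ← hy0]
      simp only [map_natCast]
      ring
    have e2 : (((d : 𝓞 F) * y : 𝓞 F) : F) = (d : F) * (y : F) := by
      have e3 := map_mul (algebraMap (𝓞 F) F) (d : 𝓞 F) y
      rw [map_natCast] at e3
      exact e3
    rw [e1, map_smul, h1, smul_eq_mul, e2]
  have h3 := hr.tr _ _ h2
  rw [← Ideal.mem_span_singleton, ← Ideal.Quotient.eq_zero_iff_mem, map_sub, map_sum]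
  have hout : ∀ z : RN F p N, Ideal.Quotient.mk (Ideal.span {(p : 𝓞 F) ^ N}) (Quotient.out z) = z :=
    fun z => Ideal.Quotient.mk_out z
  have h4 : ∀ k, Ideal.Quotient.mk (Ideal.span {(p : 𝓞 F) ^ N}) ((a : 𝓞 F) * Quotient.out (r k y0) * cr r x k) =
      (a : RN F p N) * r k (y0 * x) := by
    intro k
    rw [cr, map_mul, map_mul, hout, hout, map_mul, map_intCast, mul_assoc]
  rw [Finset.sum_congr rfl fun k _ => h4 k, ← Finset.mul_sum, ← h3]
  have hpN : Ideal.Quotient.mk (Ideal.span {(p : 𝓞 F) ^ N}) ((p : 𝓞 F) ^ N) = 0 := by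
    rw [Ideal.Quotient.eq_zero_iff_mem]
    exact Ideal.mem_span_singleton_self _
  have h5 : (a : RN F p N) * (d : RN F p N) + (b : RN F p N) * (p : RN F p N) ^ N = 1 := by
    have := congrArg (fun t : ℤ => (t : RN F p N)) hab
    simpa using this
  have h6 : (p : RN F p N) ^ N = 0 := by
    rw [← hpN, map_pow, map_natCast]
  rw [h6, mul_zero, add_zero] at h5
  rw [map_mul, map_natCast, ← mul_assoc, h5, one_mul, sub_self]

theorem alg_int {Ω : Type} [Field Ω] [IsAlgClosed Ω] (j : Ω →+* ℂ) (hp : p.Prime) (V : ValuationSubring Ω)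
    (hV : V.valuation (p : Ω) < 1) {α : K} (hα : LInt p α) (σ : K →+* ℂ) :
    ∃ ω : Ω, j ω = σ α ∧ V.valuation ω ≤ 1 := by
  obtain ⟨d, hd, y0, hy0⟩ := hα
  haveI : CharZero Ω := j.charZero
  have hd0 : (d : Ω) ≠ 0 := by
    intro h
    rw [Nat.cast_eq_zero] at h
    exact hd (h ▸ dvd_zero p)
  have hdV : (d : Ω) ∈ V := natCast_mem V d
  have hV1 : V.valuation (d : Ω) = 1 := by
    apply le_antisymm ((V.valuation_le_one_iff _).2 hdV)
    by_contra hlt
    rw [not_le] at hlt
    have hco : IsCoprime (d : ℤ) (p : ℤ) := by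
      rw [Nat.isCoprime_iff_coprime]
      exact ((Nat.Prime.coprime_iff_not_dvd hp).2 hd).symm
    obtain ⟨a, b, hab⟩ := hco
    have h1 : (a : Ω) * (d : Ω) + (b : Ω) * (p : Ω) = 1 := by
      have := congrArg (fun t : ℤ => (t : Ω)) hab
      simpa using this
    have ha : V.valuation (a : Ω) ≤ 1 := (V.valuation_le_one_iff _).2 (intCast_mem V a)
    have hb : V.valuation (b : Ω) ≤ 1 := (V.valuation_le_one_iff _).2 (intCast_mem V b)
    have h2 : V.valuation ((a : Ω) * (d : Ω) + (b : Ω) * (p : Ω)) < 1 := by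
      apply V.valuation.map_add_lt
      · rw [map_mul]
        exact mul_lt_one_of_nonneg_of_lt_one_right ha zero_le hlt
      · rw [map_mul]
        exact mul_lt_one_of_nonneg_of_lt_one_right hb zero_le hV
    rw [h1, map_one] at h2
    exact lt_irrefl _ h2
  -- a root
  have hint : IsIntegral ℤ (y0 : K) := y0.2
  obtain ⟨P, hPm, hP0⟩ := hint
  have hPΩ : (P.map (algebraMap ℤ Ω)).Monic := hPm.map _
  have hspl : (P.map (algebraMap ℤ Ω)).Splits := IsAlgClosed.splits _
  have hroots : ((P.map (algebraMap ℤ Ω)).map j).roots = (P.map (algebraMap ℤ Ω)).roots.map j :=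
    hspl.roots_map j
  have hmem : σ (y0 : K) ∈ ((P.map (algebraMap ℤ Ω)).map j).roots := by
    rw [Polynomial.mem_roots (hPΩ.map j).ne_zero, Polynomial.IsRoot.def, Polynomial.map_map,
      Polynomial.eval_map]
    have e1 : (j.comp (algebraMap ℤ Ω)) = σ.comp (algebraMap ℤ K) := RingHom.ext_int _ _
    rw [e1, ← Polynomial.hom_eval₂, hP0, map_zero]
  rw [hroots, Multiset.mem_map] at hmem
  obtain ⟨w, hw, hjw⟩ := hmem
  rw [Polynomial.mem_roots hPΩ.ne_zero, Polynomial.IsRoot.def, Polynomial.eval_map] at hw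
  have hwi : IsIntegral ℤ w := ⟨P, hPm, hw⟩
  have hwV : w ∈ V := by
    have h3 : IsIntegral V w := hwi.tower_top
    obtain ⟨y, hy⟩ := IsIntegrallyClosed.isIntegral_iff.1 h3
    rw [← hy]
    exact y.2
  refine ⟨w / d, ?_, ?_⟩
  · rw [map_div₀, hjw, map_natCast, ← hy0, map_mul, map_natCast, mul_comm, mul_div_assoc, div_self, mul_one]
    rw [Nat.cast_ne_zero]
    intro h
    exact hd (h ▸ dvd_zero p)
  · rw [map_div₀, hV1, div_one]
    exact (V.valuation_le_one_iff _).2 hwV

end SSG.E
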