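import Mathlib
import Pool.Agent.Lib.SSG.E.DN
import Pool.Agent.Lib.H55P.A2

open NumberField IsDedekindDomain

namespace SSG.E

open H55N H55P

variable {F : Type} [Field F] [NumberField F] [IQ F] {K : Type} [Field K] [NumberField K]
  [Algebra F K] {m : ℕ}

/-! Chunk W8 (S/M). (1) DirN gives Dirs for every class: mem: n w' i = n * w' i with n in q; orth: Tr (A k) (n x) = n Tr (A k) x (unfold Ctx.Tr, map_mul, or Tr_eq); int, low: the class of a is a subset of X (cx_mem). All functions (Tr, c) are the same (rfl).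
(2) Tr (A k) (w' i) is e of an element divisible by l: for x in X (take x = D.c₀, in X) x + w' i is in X (X_add), both values are 1 mod l; subtract (eF_inj, Tr_add). For k <> i.1 the value is 0. -/

theorem dirN_dirs (D : Ctx F K m) (l : 𝓞 F) (q : Ideal (𝓞 K)) (n : ℕ) (hn : (n : 𝓞 K) ∈ q) (A : Fin (m + 1) → K)
    (w' : Fin (m + 1) × Fin 2 → 𝓞 K) (h : DirN D l n A w') {a : 𝓞 K} (ha : a ∈ D.X) : (cx D q a).Dirs A (nw n w') := by
  refine ⟨fun i => ?_, h.self, h.oth, fun i k hk => ?_, fun x hx k => ?_, fun x hx k => ?_, h.ind⟩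
  · exact Ideal.mul_mem_mul hn (h.mem i)
  · have h1 : D.Tr (A k) (w' i) = 0 := h.orth i k hk
    change D.Tr (A k) ((n : 𝓞 K) * w' i) = 0
    have h2 : D.Tr (A k) ((n : 𝓞 K) * w' i) = (n : ℂ) * D.Tr (A k) (w' i) := by
      unfold H55P.Ctx.Tr
      rw [Finset.mul_sum]
      refine Finset.sum_congr rfl fun j _ => ?_
      have h3 : (((n : 𝓞 K) * w' i : 𝓞 K) : K) * A k = (n : K) * ((w' i : K) * A k) := by
        push_cast
        ring
      rw [h3, map_mul, map_natCast]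
    rw [h2, h1, mul_zero]
  · obtain ⟨y, hy⟩ := h.one x (cx_mem D q ha hx) k
    exact ⟨1 + l * y, hy⟩
  · exact h.low x (cx_mem D q ha hx) k

theorem dirN_tr (D : Ctx F K m) (l : 𝓞 F) (n : ℕ) (A : Fin (m + 1) → K)
    (w' : Fin (m + 1) × Fin 2 → 𝓞 K) (h : DirN D l n A w') (v : 𝓞 K) (hv : v ∈ D.I) (k : Fin (m + 1)) :
    ∃ y : 𝓞 F, D.Tr (A k) v = eF F (l * y) := by
  have h0 : D.c₀ ∈ D.X := by
    rw [H55P.Ctx.mem_X, sub_self]
    exact D.I.zero_mem
  obtain ⟨y1, hy1⟩ := h.one D.c₀ h0 k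
  obtain ⟨y2, hy2⟩ := h.one (D.c₀ + v) (D.X_add h0 hv) k
  refine ⟨y2 - y1, ?_⟩
  rw [H55P.Ctx.Tr_add, hy1] at hy2
  have h1 : D.Tr (A k) v = eF F (1 + l * y2) - eF F (1 + l * y1) := by
    rw [← hy2]
    ring
  rw [h1, ← map_sub]
  congr 1
  ring

end SSG.E
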