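import Mathlib
import Pool.Agent.Lib.SSG.E.IFD
import Pool.Agent.Lib.SSG.E.A9
import Pool.Agent.Lib.SSG.E.A10
import Pool.Agent.Lib.SSG.E.W8

open NumberField IsDedekindDomain

namespace SSG.E

open H55N H55P
open H35P (WAB Ker tt)
open H55K (CMA Dta)

variable {F : Type} [Field F] [NumberField F] [IQ F]

/-! Chunk E3 (M/L). The p-adic shape of the values: assembly of A1-A10. p does not divide S.M (hS.bez, N >= 1), S.M <> 0. For β in S.B (in D.X: hS.rep.sub) and each k: D.Tr (S.A k) β = eF (1 + l y) (hS.dir.one); S.d k i = eF (l δ_i) (dirN_tr, W8, with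
hS.dir.mem). l does not divide S.e₂ (e₁ M + e₂ P = 1, l | M). τ := e₂ (1 + l y) - l δ_0 - l δ_1 is not divisible by l; δ± := l (δ_0 ± δ_1). For a in D.X: D.Tr (S.A k) a = eF (y_k a), y_k a = sum c_k x cr r a x mod p^N (lin_form; hS.dir.one gives y_k a), so with c' := (-1)^N e₁ c:
S.z a β k = eF (sum c' * cr) / (-p)^N + eF τ / M + (an element e(t) of the lattice LF F): e₁ e(y)/p^N = e((-1)^N e₁ y)/(-p)^N; T2_perz. term_fn (A9) for c', τ, δ+ and δ- gives hh+, hh-. Put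
h a := ω * sum over β of G β * prod over k of (M⁻¹ * (hh+ (cr r a) - hh- (cr r a))), ω with j ω = det (σ_i (A k)) (alg_int for each entry, RingHom.map_det), H' a := i of the same expression at the vector a; H' in Fn: Fn_scal (‖i ω‖ <= 1), Fn_sum, Fn_prod, Fn_sub, ‖i M‖ = 1 (V(M) = 1: loc_eq), ‖G β‖ <= 1
(an integer). j (h a) = S.H a / Om^(m+1): unfold LD.H, the m + 1 factors Om⁻¹ go into the product (Finset.prod_div_distrib / prod_const, card Fin). GV: d.good V hV. -/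

theorem e3_det {Ω : Type} [Field Ω] (j : Ω →+* ℂ) (V : ValuationSubring Ω) {m : ℕ} (M : Matrix (Fin (m + 1)) (Fin (m + 1)) ℂ)
    (h : ∀ k i, ∃ ω : Ω, j ω = M k i ∧ V.valuation ω ≤ 1) : ∃ ω : Ω, j ω = M.det ∧ V.valuation ω ≤ 1 := by
  choose w hw hw' using h
  let W : Matrix (Fin (m + 1)) (Fin (m + 1)) V := Matrix.of fun k i => ⟨w k i, (V.valuation_le_one_iff _).1 (hw' k i)⟩
  refine ⟨algebraMap V Ω W.det, ?_, V.valuation_le_one W.det⟩
  have h1 := RingHom.map_det (j.comp (algebraMap V Ω)) W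
  have h2 : (j.comp (algebraMap V Ω)).mapMatrix W = M := by
    ext k i
    exact hw k i
  rw [h2] at h1
  exact h1

/-- (E3) The p-adic shape of the values. -/
theorem ldH_fn {A B : F} {Om : ℂ} {Ω : Type} [Field Ω] [DecidableEq Ω]
    [Algebra F Ω] [IsAlgClosure F Ω] {j : Ω →+* ℂ} {act : 𝓞 F →+* AddMonoid.End (Pt (WAB A B) Ω)}
    {mm : Ideal (𝓞 F)} {ψ : Ideal (𝓞 F) →*₀ 𝓞 F} {p : ℕ} [Fact p.Prime] (d : Dta A B Om j act mm ψ p)
    (hin : (Ideal.span {(p : 𝓞 F)}).IsPrime) (V : ValuationSubring Ω) (hV : V.valuation (p : Ω) < 1)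
    (i : Ω →+* ℂ_[p]) (T : ℕ → Pt (WAB A B) Ω) (L : LTF F ℂ_[p]) (hL : LocM A B Om j act p V i T L)
    {K : Type} [Field K] [NumberField K] [Algebra F K] {m N : ℕ}
    (v : Fin (m + 1) → HeightOneSpectrum (𝓞 K)) (r : Fin (m + 1) → 𝓞 K →+* RN F p N) (hr : Crd p N v r)
    {l : 𝓞 F} (hl : Prime l) (hlp : IsCoprime l (p : 𝓞 F)) (D : H55P.Ctx F K m) (hD : D.Ok)
    (hI : IsCoprime D.I (Ideal.span {(p : 𝓞 K)})) (S : LD D l (p ^ N)) (hS : S.Ok)
    (hA : ∀ k, LInt p (S.A k)) (hN : 1 ≤ N) :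
    ∃ (h : 𝓞 K → Ω) (H' : (Fin (m + 1) → 𝓞 F) → ℂ_[p]), (∀ a ∈ D.X, j (h a) = S.H a / Om ^ (m + 1)) ∧
      L.Fn N (Fin (m + 1)) H' ∧ ∀ a ∈ D.X, i (h a) = H' (cr r a) := by
  classical
  have hp := (Fact.out : p.Prime)
  have hac : IsAlgClosed Ω := IsAlgClosure.isAlgClosed F
  have hip : ‖(p : ℂ_[p])‖ < 1 := by
    have h1 := (loc_lt hL (p : Ω)).1 hV
    rwa [map_natCast] at h1
  have hiM : ‖(S.M : ℂ_[p])‖ = 1 := by
    refine le_antisymm (a7_nat S.M) ?_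
    by_contra hlt
    push Not at hlt
    have h1 : ((S.e₁ : ℂ_[p])) * S.M + S.e₂ * (p : ℂ_[p]) ^ N = 1 := by exact_mod_cast congrArg (Int.cast (R := ℂ_[p])) hS.bez
    have h2 : ‖((S.e₁ : ℂ_[p])) * S.M + S.e₂ * (p : ℂ_[p]) ^ N‖ < 1 := by
      refine (IsUltrametricDist.norm_add_le_max _ _).trans_lt (max_lt ?_ ?_)
      · rw [norm_mul]
        exact (mul_le_of_le_one_left (norm_nonneg _) (IsUltrametricDist.norm_intCast_le_one _ _)).trans_lt hlt
      · rw [norm_mul, norm_pow]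
        exact (mul_le_of_le_one_left (pow_nonneg (norm_nonneg _) _) (IsUltrametricDist.norm_intCast_le_one _ _)).trans_lt
          (pow_lt_one₀ (norm_nonneg _) hip (by omega))
    rw [h1, NormOneClass.norm_one] at h2
    exact lt_irrefl _ h2
  have hpM : ¬ p ∣ S.M := by
    rintro ⟨c, hc⟩
    rw [hc, Nat.cast_mul, norm_mul] at hiM
    have h1 : ‖(p : ℂ_[p])‖ * ‖(c : ℂ_[p])‖ < 1 :=
      (mul_le_of_le_one_right (norm_nonneg _) (a7_nat c)).trans_lt hip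
    exact h1.ne hiM
  have hle2 : ¬ l ∣ (S.e₂ : 𝓞 F) := by
    intro h1
    apply hl.not_isUnit
    rw [isUnit_iff_dvd_one]
    have h2 : ((S.e₁ : 𝓞 F)) * S.M + S.e₂ * (p : 𝓞 F) ^ N = 1 := by exact_mod_cast congrArg (Int.cast (R := 𝓞 F)) hS.bez
    rw [← h2]
    exact dvd_add (Dvd.dvd.mul_left hS.lM _) (Dvd.dvd.mul_right h1 _)
  -- the traces
  have hone : ∀ (x : 𝓞 K) (k : Fin (m + 1)), ∃ y : 𝓞 F, x ∈ D.X → D.Tr (S.A k) x = eF F (1 + l * y) := by
    intro x k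
    by_cases hx : x ∈ D.X
    · obtain ⟨y, hy⟩ := hS.dir.one x hx k
      exact ⟨y, fun _ => hy⟩
    · exact ⟨0, fun h => absurd h hx⟩
  choose yy hyy using hone
  have hdd : ∀ (k : Fin (m + 1)) (s : Fin 2), ∃ y : 𝓞 F, S.d k s = eF F (l * y) := fun k s =>
    dirN_tr D l (2 * p ^ N) S.A S.w' hS.dir (S.w' (k, s)) (hS.dir.mem _) k
  choose dd hdd using hdd
  choose c hc using fun k => lin_form (N := N) D hD.emb hp hr (hA k)
  let τ : 𝓞 K → Fin (m + 1) → 𝓞 F := fun β k => S.e₂ * (1 + l * yy β k) - l * dd k 0 - l * dd k 1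
  have hτ : ∀ β k, ¬ l ∣ τ β k := by
    intro β k h1
    apply hle2
    have h2 : (S.e₂ : 𝓞 F) = τ β k - l * (S.e₂ * yy β k - dd k 0 - dd k 1) := by
      show _ = (S.e₂ * (1 + l * yy β k) - l * dd k 0 - l * dd k 1) - l * (S.e₂ * yy β k - dd k 0 - dd k 1)
      ring
    rw [h2]
    exact dvd_sub h1 (Dvd.intro _ rfl)
  have hGV := d.good V hV
  have htp := fun β k => term_fn d.cma hGV hV hL N (ι := Fin (m + 1)) (fun s => (-1) ^ N * (S.e₁ : 𝓞 F) * c k s) (δ := l * (dd k 0 + dd k 1))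
    hS.ne hpM hl hlp hS.lM (Dvd.intro _ rfl) (hτ β k)
  have htm := fun β k => term_fn d.cma hGV hV hL N (ι := Fin (m + 1)) (fun s => (-1) ^ N * (S.e₁ : 𝓞 F) * c k s) (δ := l * (dd k 0 - dd k 1))
    hS.ne hpM hl hlp hS.lM (Dvd.intro _ rfl) (hτ β k)
  choose hhp hp1 hp2 using htp
  choose hhm hm1 hm2 using htm
  obtain ⟨ω, hω, hω'⟩ := e3_det j V (Matrix.of fun k i => D.σ i (S.A k)) fun k i => alg_int j hp V hV (hA k) (D.σ i)
  have hiω : ‖i ω‖ ≤ 1 := (loc_le hL _).1 hω'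
  have hs := hL.ok.small
  refine ⟨fun a => ω * ∑ β ∈ S.B, (S.G β : Ω) * ∏ k, ((S.M : Ω)⁻¹ * (hhp β k (cr r a) - hhm β k (cr r a))),
    fun b => i ω * ∑ β ∈ S.B, (S.G β : ℂ_[p]) * ∏ k, ((S.M : ℂ_[p])⁻¹ * (i (hhp β k b) - i (hhm β k b))), ?_, ?_, ?_⟩
  · intro a ha
    -- the torsion points
    have hz : ∀ β ∈ S.B, ∀ k, ∃ w ∈ (LF F).lattice, S.z a β k =
        (eF F (∑ s, (-1) ^ N * (S.e₁ : 𝓞 F) * c k s * cr r a s) / (-(p : ℂ)) ^ N + eF F (τ β k) / S.M) + w := by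
      intro β hβ k
      obtain ⟨t, ht⟩ := hc k a _ (hyy a k ha)
      refine ⟨eF F (S.e₁ * t), (mem_LF _).2 ⟨_, rfl⟩, ?_⟩
      have hp0 : (p : ℂ) ≠ 0 := Nat.cast_ne_zero.2 hp.ne_zero
      have h1 : D.Tr (S.A k) a = eF F (∑ s, c k s * cr r a s) + (p : ℂ) ^ N * eF F t := by
        rw [hyy a k ha, ← map_natCast (eF F) p, ← map_pow, ← map_mul, ← map_add]
        congr 1
        rw [← ht]
        ring
      have h2 : eF F (∑ s, (-1) ^ N * (S.e₁ : 𝓞 F) * c k s * cr r a s) =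
          (-1) ^ N * S.e₁ * eF F (∑ s, c k s * cr r a s) := by
        have h3 : ∑ s, (-1) ^ N * (S.e₁ : 𝓞 F) * c k s * cr r a s = (-1) ^ N * (S.e₁ : 𝓞 F) * ∑ s, c k s * cr r a s := by
          rw [Finset.mul_sum]
          refine Finset.sum_congr rfl fun s _ => ?_
          ring
        rw [h3, map_mul, map_mul, map_pow, map_neg, map_one, map_intCast]
      have h4 : S.e₂ * D.Tr (S.A k) β - S.d k 0 - S.d k 1 = eF F (τ β k) := by
        rw [hyy β k (hS.rep.sub β hβ), hdd, hdd]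
        show _ = eF F (S.e₂ * (1 + l * yy β k) - l * dd k 0 - l * dd k 1)
        rw [map_sub, map_sub, map_mul (eF F) (S.e₂ : 𝓞 F), map_intCast]
      unfold LD.z
      rw [h4, h1, h2, map_mul, map_intCast]
      have h5 : (-(p : ℂ)) ^ N = (-1) ^ N * (p : ℂ) ^ N := by
        rw [← mul_pow, neg_one_mul]
      have h6 : ((-1 : ℂ)) ^ N ≠ 0 := pow_ne_zero _ (by norm_num)
      rw [h5]
      push_cast
      field_simp
      ring
    have hd1 : ∀ k, (S.d k 0 + S.d k 1) / S.M = eF F (l * (dd k 0 + dd k 1)) / (S.M : ℂ) := fun k => by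
      rw [hdd, hdd, ← map_add, mul_add]
    have hd2 : ∀ k, (S.d k 0 - S.d k 1) / S.M = eF F (l * (dd k 0 - dd k 1)) / (S.M : ℂ) := fun k => by
      rw [hdd, hdd, ← map_sub, mul_sub]
    rw [map_mul, hω, map_sum, LD.H, mul_div_assoc, Finset.sum_div]
    congr 1
    refine Finset.sum_congr rfl fun β hβ => ?_
    rw [map_mul, map_intCast, map_prod, mul_div_assoc]
    congr 1
    have h7 : Om ^ (m + 1) = ∏ _k : Fin (m + 1), Om := by
      rw [Finset.prod_const, Finset.card_univ, Fintype.card_fin]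
    rw [h7, ← Finset.prod_div_distrib]
    refine Finset.prod_congr rfl fun k _ => ?_
    obtain ⟨w, hw, hz⟩ := hz β hβ k
    rw [map_mul, map_inv₀, map_natCast, map_sub, hp1, hm1, hz, T2_perz _ _ _ hw, T2_perz _ _ _ hw, hd1, hd2]
    ring
  · refine Fn_scal hs hiω (Fn_sum _ fun β _ => Fn_scal hs (IsUltrametricDist.norm_intCast_le_one _ _) (Fn_prod hs _ fun k _ =>
      Fn_scal hs ?_ (Fn_sub (hp2 β k) (hm2 β k))))
    rw [norm_inv, hiM, inv_one]
  · intro a ha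
    simp only [map_mul, map_sum, map_prod, map_intCast, map_inv₀, map_natCast, map_sub]

end SSG.E
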