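import Mathlib
import Pool.Agent.Lib.SSG.E.W8
import Pool.Agent.Lib.H55P.R8

open NumberField IsDedekindDomain

namespace SSG.E

open H55N H55P

variable {F : Type} [Field F] [NumberField F] [IQ F] {K : Type} [Field K] [NumberField K]
  [Algebra F K] {m : ℕ}

/-- The second difference of 1/y in the directions a, b. -/
noncomputable def dd (y a b : ℂ) : ℂ := y⁻¹ - (y - a)⁻¹ - (y - b)⁻¹ + (y - a - b)⁻¹

/-! Chunk R1 (M). The value of J for rational labels as an absolutely convergent sum of products of second differences. First: the general statement for a context D (any), directions w with D.Dirs A w and G with D.GSpec w G.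
reg_of_good (R2.lean) with h x = prod of (Tr (A k) x)^-1 (Good as in the proof of Jv_A in R8.lean) gives HasReg h (sum of G x * Dif w univ h x) and absolute convergence; Jv_eq and HasReg.smul, Idet (A labels) = det * h as in Jv_A. Then compute
Dif w univ h x = prod over k of dd (Tr (A k) x) (Tr (A k) (w (k,0))) (Tr (A k) (w (k,1))): the index set is Fin (m+1) × Fin 2; subsets T correspond to families of subsets of Fin 2; Tr (A k) (x - sum over T of w i) = Tr (A k) x - sum over those i in T with i.1 = k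
of Tr (A k) (w i) (Dirs.orth). Use induction over the factors or Finset.prod_univ_sum / Finset.prod_add; (-1)^card is multiplicative. -/

theorem r1_Tr_sub (D : Ctx F K m) (a : K) (x y : 𝓞 K) : D.Tr a (x - y) = D.Tr a x - D.Tr a y := by
  unfold H55P.Ctx.Tr
  rw [← Finset.sum_sub_distrib]
  refine Finset.sum_congr rfl fun i _ => ?_
  rw [← map_sub]
  congr 1
  push_cast
  ring

theorem r1_Tr_sum (D : Ctx F K m) (a : K) {ι : Type} (T : Finset ι) (w : ι → 𝓞 K) :
    D.Tr a (∑ i ∈ T, w i) = ∑ i ∈ T, D.Tr a (w i) := by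
  classical
  induction T using Finset.induction_on with
  | empty =>
    rw [Finset.sum_empty, Finset.sum_empty]
    unfold H55P.Ctx.Tr
    simp
  | insert i S hi ih =>
    rw [Finset.sum_insert hi, Finset.sum_insert hi, ← ih]
    have h := r1_Tr_sub D a (w i + ∑ i ∈ S, w i) (∑ i ∈ S, w i)
    rw [add_sub_cancel_right] at h
    rw [h]
    ring

/-- subsets of a product are families of subsets -/
def r1_eqv (α β : Type) [Fintype α] [Fintype β] [DecidableEq α] [DecidableEq β] :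
    (α → Finset β) ≃ Finset (α × β) where
  toFun p := Finset.univ.filter fun i => i.2 ∈ p i.1
  invFun T k := Finset.univ.filter fun j => (k, j) ∈ T
  left_inv p := by
    funext k
    ext j
    simp
  right_inv T := by
    ext ⟨k, j⟩
    simp

theorem r1_dd (y : ℂ) (c : Fin 2 → ℂ) :
    dd y (c 0) (c 1) = ∑ t : Finset (Fin 2), (-1) ^ t.card * (y - ∑ j ∈ t, c j)⁻¹ := by
  have h : (Finset.univ : Finset (Finset (Fin 2))) = {∅, {0}, {1}, {0, 1}} := by decide
  rw [h, Finset.sum_insert (by decide), Finset.sum_insert (by decide),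
    Finset.sum_insert (by decide), Finset.sum_singleton]
  unfold dd
  simp
  ring_nf

theorem r1_sum {α β : Type} [Fintype α] [Fintype β] [DecidableEq α] [DecidableEq β]
    (p : α → Finset β) (f : α × β → ℂ) :
    ∑ i ∈ r1_eqv α β p, f i = ∑ k, ∑ j ∈ p k, f (k, j) := by
  change ∑ i ∈ Finset.univ.filter (fun i : α × β => i.2 ∈ p i.1), f i = _
  rw [Finset.sum_filter, Fintype.sum_prod_type]
  refine Finset.sum_congr rfl fun k _ => ?_
  simp

theorem r1_card {α β : Type} [Fintype α] [Fintype β] [DecidableEq α] [DecidableEq β]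
    (p : α → Finset β) : (r1_eqv α β p).card = ∑ k, (p k).card := by
  have h := r1_sum p (fun _ => (1 : ℂ))
  simp only [Finset.sum_const, nsmul_eq_mul, mul_one] at h
  exact_mod_cast h

theorem dif_prod (D : Ctx F K m) (A : Fin (m + 1) → K) (w : Fin (m + 1) × Fin 2 → 𝓞 K)
    (horth : ∀ i k, k ≠ i.1 → D.Tr (A k) (w i) = 0) (x : 𝓞 K) :
    Dif w Finset.univ (fun x : 𝓞 K => ∏ k, (D.Tr (A k) x)⁻¹) x =
      ∏ k, dd (D.Tr (A k) x) (D.Tr (A k) (w (k, 0))) (D.Tr (A k) (w (k, 1))) := by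
  classical
  unfold Dif
  rw [Finset.powerset_univ]
  have e1 : ∀ k : Fin (m + 1), dd (D.Tr (A k) x) (D.Tr (A k) (w (k, 0))) (D.Tr (A k) (w (k, 1))) =
      ∑ t : Finset (Fin 2), (-1) ^ t.card * (D.Tr (A k) x - ∑ j ∈ t, D.Tr (A k) (w (k, j)))⁻¹ :=
    fun k => r1_dd _ (fun j => D.Tr (A k) (w (k, j)))
  simp only [e1]
  rw [Finset.prod_univ_sum, Fintype.piFinset_univ]
  symm
  refine Fintype.sum_equiv (r1_eqv (Fin (m + 1)) (Fin 2)) _ _ fun p => ?_
  rw [r1_card, Finset.prod_mul_distrib, Finset.prod_pow_eq_pow_sum]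
  congr 1
  refine Finset.prod_congr rfl fun k _ => ?_
  rw [r1_Tr_sub, r1_Tr_sum, r1_sum p (fun i => D.Tr (A k) (w i))]
  congr 2
  rw [Finset.sum_eq_single k]
  · intro k' _ hk'
    exact Finset.sum_eq_zero fun j _ => horth (k', j) k (Ne.symm hk')
  · intro h
    exact absurd (Finset.mem_univ k) h

theorem Jv_rat (D : Ctx F K m) (hD : D.Ok) (A : Fin (m + 1) → K) (w : Fin (m + 1) × Fin 2 → 𝓞 K)
    (hdir : D.Dirs A w) (G : 𝓞 K → ℂ) (hG : D.GSpec w G) :
    (Summable fun x : D.X => ‖G x * ∏ k, dd (D.Tr (A k) x) (D.Tr (A k) (w (k, 0))) (D.Tr (A k) (w (k, 1)))‖) ∧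
    D.Jv (fun k => .A (A k)) = Matrix.det (Matrix.of fun k i => D.σ i (A k)) *
      ∑' x : D.X, G x * ∏ k, dd (D.Tr (A k) x) (D.Tr (A k) (w (k, 0))) (D.Tr (A k) (w (k, 1))) := by
  have hX := R2_stab D A w hdir
  have h1 : Good D.X w (D.gl A) (fun (_ : Unit) x => D.bl A x)
      (fun _ (x : 𝓞 K) => ∏ k, (D.Tr (A k) x)⁻¹) :=
    Good.prod hX (sv_gl D A w) Finset.univ
      (fun k (_ : Unit) x => (1 + ‖D.Tr (A k) x‖)⁻¹)
      (fun k (_ : Unit) x => (D.Tr (A k) x)⁻¹)
      (fun k _ => SV.inv hX (sv_tr (P := Unit) D A w k))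
      (fun k _ => good_tr (P := Unit) D A w hdir k)
  obtain ⟨h3, h2⟩ := reg_of_good D hD A w hdir G hG (fun x : 𝓞 K => ∏ k, (D.Tr (A k) x)⁻¹) h1
  have hd : ∀ x : 𝓞 K, Dif w Finset.univ (fun x : 𝓞 K => ∏ k, (D.Tr (A k) x)⁻¹) x =
      ∏ k, dd (D.Tr (A k) x) (D.Tr (A k) (w (k, 0))) (D.Tr (A k) (w (k, 1))) :=
    dif_prod D A w hdir.orth
  simp only [hd] at h3 h2
  refine ⟨h3, ?_⟩
  have h5 := HasReg.smul D h2 (Matrix.det (Matrix.of fun k i : Fin (m + 1) => D.σ i (A k)))
  apply Jv_eq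
  refine HasReg.congr D h5 fun x _ => ?_
  symm
  have h3 : D.Idet (fun k => .A (A k)) x = Matrix.det (Matrix.of fun k i : Fin (m + 1) =>
      (D.Tr (A k) x)⁻¹ * (Matrix.of fun k i : Fin (m + 1) => D.σ i (A k)) k i) := by
    unfold H55P.Ctx.Idet
    congr 1
    ext k i
    show D.σ i (A k) / D.Tr (A k) x = (D.Tr (A k) x)⁻¹ * D.σ i (A k)
    rw [div_eq_inv_mul]
  rw [h3, Matrix.det_mul_column]
  ring

end SSG.E
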