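import Mathlib
import Pool.Agent.Lib.SSG.E.R1
import Pool.Agent.Lib.H35P.A4
import Pool.Agent.Lib.H55P.EDef

open NumberField IsDedekindDomain

namespace SSG.E

open H55N H55P

variable {F : Type} [Field F] [NumberField F] [IQ F]

/-! Chunk R2 (M). The sum of the second differences over a coset of M 𝓞 F (M = m0 > 0). Put z = (α - (a+b)/2)/M, u = (a+b)/(2M), v = (a-b)/(2M). Then for y = α + M x:
y = M (z + u + x), y - a - b = M (z - u + x), y - a = M (z - v + x), y - b = M (z + v + x) (x the element e(x) of the lattice LF F). So dd y a b = M^-1 (tT z u - tT z v) (the middle terms -2/(z + x) cancel), all terms finite sums of inverses (Lean: inverse of 0 is 0,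
no case distinction is needed: the identity M^-1 (..)^-1 holds for all values). Sum: tT_summable and T2 (H35P.A3, E0), transported from the lattice to 𝓞 F by x -> e x (mem_LF, eF_inj: an equivalence 𝓞 F ≃ (LF F).lattice). -/

theorem r2_dd (M : ℂ) (hM : M ≠ 0) (α a b x : ℂ) (l : (LF F).lattice) (hl : (l : ℂ) = x) :
    dd (α + M * x) a b = M⁻¹ * (H35P.tT (LF F) ((α - (a + b) / 2) / M) ((a + b) / (2 * M)) l -
      H35P.tT (LF F) ((α - (a + b) / 2) / M) ((a - b) / (2 * M)) l) := by
  unfold dd H35P.tT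
  rw [hl]
  have e1 : α + M * x = M * ((α - (a + b) / 2) / M + (a + b) / (2 * M) + x) := by
    field_simp
    ring
  have e2 : α + M * x - a - b = M * ((α - (a + b) / 2) / M - (a + b) / (2 * M) + x) := by
    field_simp
    ring
  have e3 : α + M * x - a = M * ((α - (a + b) / 2) / M - (a - b) / (2 * M) + x) := by
    field_simp
    ring
  have e4 : α + M * x - b = M * ((α - (a + b) / 2) / M + (a - b) / (2 * M) + x) := by
    field_simp
    ring
  rw [e2, e3, e4, e1, mul_inv, mul_inv, mul_inv, mul_inv]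
  ring

theorem dd_sum (M : ℕ) (hM : M ≠ 0) (α a b : ℂ) :
    (Summable fun x : 𝓞 F => ‖dd (α + M * eF F x) a b‖) ∧
    ∑' x : 𝓞 F, dd (α + M * eF F x) a b = (M : ℂ)⁻¹ *
      (H35P.T2 (LF F) ((α - (a + b) / 2) / M) ((a + b) / (2 * M)) -
        H35P.T2 (LF F) ((α - (a + b) / 2) / M) ((a - b) / (2 * M))) := by
  have hMC : (M : ℂ) ≠ 0 := by exact_mod_cast hM
  have h1 := H35P.tT_summable (LF F) ((α - (a + b) / 2) / M) ((a + b) / (2 * M))
  have h2 := H35P.tT_summable (LF F) ((α - (a + b) / 2) / M) ((a - b) / (2 * M))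
  have h3 := (h1.hasSum.sub h2.hasSum).mul_left (M : ℂ)⁻¹
  have h4 := (LF_equiv F).hasSum_iff.2 h3
  have h5 : (fun x : 𝓞 F => dd (α + M * eF F x) a b) = (fun l : (LF F).lattice => (M : ℂ)⁻¹ *
      (H35P.tT (LF F) ((α - (a + b) / 2) / M) ((a + b) / (2 * M)) l -
      H35P.tT (LF F) ((α - (a + b) / 2) / M) ((a - b) / (2 * M)) l)) ∘ (LF_equiv F) := by
    funext x
    exact r2_dd (M : ℂ) hMC α a b (eF F x) (LF_equiv F x) rfl
  rw [← h5] at h4
  exact ⟨h4.summable.norm, h4.tsum_eq⟩

end SSG.E
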