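import Mathlib
import Pool.Agent.Lib.SSG.E.HV
import Pool.Agent.Lib.H55P.E8

open NumberField IsDedekindDomain

namespace SSG.E

open H55N H55P

variable {F : Type} [Field F] [NumberField F] [IQ F] {K : Type} [Field K] [NumberField K]
  [Algebra F K] {m : ℕ}

/-! Chunk R3 (M). A sum over X of products of functions of the traces, by classes modulo the lattice. COPY of the class decomposition in rat_val (Lib/H55P/E8.lean). For β in B the class β + Lat is parametrised by y in (𝓞 F)^(m+1): x = β + z y with
z y the element of D.I in all D.c i with traces M y k (Full), injective because eF is injective and M <> 0, onto the class by Tr_inj (hA). G (β + z y) = G β. The sum over y is the product of the one dimensional sums (pi_hasSum, as in E8.lean).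
Then add up over the finite set B (X is the disjoint union of the classes). -/

theorem sum_lat (D : Ctx F K m) (hD : D.Ok) (A : Fin (m + 1) → K) (hA : LinearIndependent F A) (M : ℕ) (hM : M ≠ 0)
    (hfull : Full D A M) (B : Finset (𝓞 K)) (hB : RpL D A M B) (G : 𝓞 K → ℂ) (hG : ∀ x, ∀ y ∈ Lat D A M, G (x + y) = G x)
    (f : Fin (m + 1) → ℂ → ℂ)
    (hf : ∀ β ∈ B, ∀ k, Summable fun y : 𝓞 F => ‖f k (D.Tr (A k) β + M * eF F y)‖) :
    ∑' x : D.X, G x * ∏ k, f k (D.Tr (A k) x) =
      ∑ β ∈ B, G β * ∏ k, ∑' y : 𝓞 F, f k (D.Tr (A k) β + M * eF F y) := by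
  classical
  have hm0 : (M : ℂ) ≠ 0 := by exact_mod_cast hM
  choose z hzI hzc hzT using hfull
  have hzL : ∀ y, z y ∈ Lat D A M := fun y => ⟨hzI y, hzc y, fun k => ⟨y k, hzT y k⟩⟩
  have hr : ∀ x : D.X, ∃ y, y ∈ B ∧ (x : 𝓞 K) - y ∈ Lat D A M := fun x => (hB.ex x x.2).exists
  choose r hrB hrL using hr
  have hru : ∀ (x : D.X) (y : 𝓞 K), y ∈ B → (x : 𝓞 K) - y ∈ Lat D A M → r x = y := fun x y h1 h2 =>
    (hB.ex x x.2).unique ⟨hrB x, hrL x⟩ ⟨h1, h2⟩
  have hclass : ∀ β ∈ B, HasSum (fun x : D.X => if r x = β then G x * ∏ k, f k (D.Tr (A k) x) else 0)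
      (G β * ∏ k, ∑' y : 𝓞 F, f k (D.Tr (A k) β + M * eF F y)) := by
    intro β hβ
    let j : (Fin (m + 1) → 𝓞 F) → D.X := fun y => ⟨β + z y, D.X_add (hB.sub β hβ) (hzI y)⟩
    have hjv : ∀ y, ((j y : D.X) : 𝓞 K) = β + z y := fun y => rfl
    have hjT : ∀ y k, D.Tr (A k) (j y) = D.Tr (A k) β + M * eF F (y k) := by
      intro y k
      show D.Tr (A k) (β + z y) = _
      rw [D.Tr_add, hzT]
    have hjinj : Function.Injective j := by
      intro y y' h
      funext k
      have h1 := hjT y k
      rw [h, hjT y' k] at h1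
      have h2 : eF F (y' k) = eF F (y k) := mul_left_cancel₀ hm0 (add_left_cancel h1)
      exact (eF_inj h2).symm
    have hjq : ∀ y, r (j y) = β := by
      intro y
      apply hru _ _ hβ
      rw [hjv, add_sub_cancel_left]
      exact hzL y
    have hjr : ∀ x : D.X, r x = β → x ∈ Set.range j := by
      intro x hx
      have h0 := hrL x
      rw [hx] at h0
      choose t ht using h0.2.2
      refine ⟨t, Subtype.ext ?_⟩
      show β + z t = x
      have h2 : z t = x - β := by
        refine Tr_inj D hD.emb A hA _ _ fun k => ?_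
        rw [hzT, ht k]
      rw [h2]; ring
    have hs := (pi_hasSum (m + 1) (fun k y => f k (D.Tr (A k) β + M * eF F y)) (fun k => hf β hβ k)).mul_left (G β)
    refine (hjinj.hasSum_iff ?_).1 ?_
    · intro x hx
      exact if_neg fun h => hx (hjr x h)
    · have hcongr : ((fun x : D.X => if r x = β then G x * ∏ k, f k (D.Tr (A k) x) else 0) ∘ j) =
          fun y => G β * ∏ k, f k (D.Tr (A k) β + M * eF F (y k)) := by
        funext y
        show (if r (j y) = β then G (β + z y) * ∏ k, f k (D.Tr (A k) (j y)) else 0) = _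
        rw [if_pos (hjq y), hG _ _ (hzL y)]
        congr 1
        exact Finset.prod_congr rfl fun k _ => by rw [hjT]
      rw [hcongr]
      exact hs
  have h1 := hasSum_sum (s := B) hclass
  have h2 : (fun x : D.X => ∑ β ∈ B, if r x = β then G x * ∏ k, f k (D.Tr (A k) x) else 0) =
      fun x : D.X => G x * ∏ k, f k (D.Tr (A k) x) := by
    funext x
    rw [Finset.sum_ite_eq]
    exact if_pos (hrB x)
  rw [h2] at h1
  exact h1.tsum_eq

end SSG.E
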