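import Mathlib
import Pool.Agent.Lib.SSG.E.HV
import Pool.Agent.Lib.SSG.E.W8

open NumberField IsDedekindDomain

namespace SSG.E

open H55N H55P

variable {F : Type} [Field F] [NumberField F] [IQ F] {K : Type} [Field K] [NumberField K]
  [Algebra F K] {m : ℕ}

/-- The representative of the class of β in the class of a. -/
noncomputable def LD.x {D : Ctx F K m} {l : 𝓞 F} {P : ℕ} (S : LD D l P) (a β : 𝓞 K) : 𝓞 K :=
  (S.e₁ * S.M : ℤ) * a + (S.e₂ * P : ℤ) * β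

/-! Chunk R4 (M/L). Chinese remainder theorem. q = (P), C = cx D q a, lattice of C: Lat C A (P M) = P Lat D A M: if y is in it then y = P z with z in I (q * I = P I: Ideal.mem_span_singleton_mul), z in c i (P z in c i, c i is prime of norm D.p i
coprime to P, see W9 / dirs_of for the prime ideal c i), P Tr z = P M t so Tr z = M t.
x(a,β) = e₁ M a + e₂ P β = a + e₂ P (β - a) = β + e₁ M (a - β). So x(a,β) - a = P (e₂ (β - a)) in q * I, x(a,β) - β = e₁ (M (a - β)) is in Lat D A M (in I; in c i because M is in c i; the trace is M times the trace of a - β in I,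
which is an e-value: DirN.one on X, difference of two values).
(1) x(a,β) is in C.X. (2) For x in C.X (so x in D.X) let β be the representative with x - β in Lat D A M; then x - x(a,β) is in q I and in Lat D A M; write it as P z, z in I: z in c i; P Tr z = M t in 𝓞 F-values, P and M coprime (bez), so Tr z is in M e(𝓞 F)
(Tr z is an e-value; use e₁ M + e₂ P = 1: Tr z = e₁ M Tr z + e₂ (P Tr z)). Uniqueness: x(a,β) - x(a,β') in Lat C gives β - β' in Lat D (differences in Lat D A M), so β = β' . So the image of B is a set of representatives; injective on B. -/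

theorem r4_Tr_int (D : Ctx F K m) (A : K) (z : ℤ) (x : 𝓞 K) :
    D.Tr A ((z : 𝓞 K) * x) = (z : ℂ) * D.Tr A x := by
  unfold H55P.Ctx.Tr
  rw [Finset.mul_sum]
  refine Finset.sum_congr rfl fun i _ => ?_
  have h1 : (((z : 𝓞 K) * x : 𝓞 K) : K) * A = (z : K) * ((x : K) * A) := by
    have h := map_mul (algebraMap (𝓞 K) K) (z : 𝓞 K) x
    rw [map_intCast] at h
    have h2 : (((z : 𝓞 K) * x : 𝓞 K) : K) = (z : K) * (x : K) := h
    rw [h2]
    ring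
  rw [h1, map_mul, map_intCast]

theorem r4_Tr_nat (D : Ctx F K m) (A : K) (n : ℕ) (x : 𝓞 K) :
    D.Tr A ((n : 𝓞 K) * x) = (n : ℂ) * D.Tr A x := by
  have h := r4_Tr_int D A (n : ℤ) x
  rw [Int.cast_natCast, Int.cast_natCast] at h
  exact h

theorem r4_sub (D : Ctx F K m) {x y : 𝓞 K} (hx : x ∈ D.X) (hy : y ∈ D.X) : x - y ∈ D.I := by
  have h1 : x - D.c₀ ∈ D.I := hx
  have h2 : y - D.c₀ ∈ D.I := hy
  have h3 : x - y = (x - D.c₀) - (y - D.c₀) := by ring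
  rw [h3]
  exact D.I.sub_mem h1 h2

theorem r4_x_beta {D : Ctx F K m} {l : 𝓞 F} {P : ℕ} (S : LD D l P) (hS : S.Ok) (a β : 𝓞 K) :
    S.x a β - β = (S.M : 𝓞 K) * ((S.e₁ : 𝓞 K) * (a - β)) := by
  have h1 : ((S.e₂ : 𝓞 K) * (P : 𝓞 K)) = 1 - (S.e₁ : 𝓞 K) * (S.M : 𝓞 K) := by
    have h := hS.bez
    have h2 : (((S.e₁ * S.M + S.e₂ * P : ℤ)) : 𝓞 K) = 1 := by rw [h]; simp
    push_cast at h2
    linear_combination h2
  unfold LD.x
  push_cast
  rw [h1]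
  ring

theorem r4_x_a {D : Ctx F K m} {l : 𝓞 F} {P : ℕ} (S : LD D l P) (hS : S.Ok) (a β : 𝓞 K) :
    S.x a β - a = (P : 𝓞 K) * ((S.e₂ : 𝓞 K) * (β - a)) := by
  have h1 : ((S.e₁ : 𝓞 K) * (S.M : 𝓞 K)) = 1 - (S.e₂ : 𝓞 K) * (P : 𝓞 K) := by
    have h := hS.bez
    have h2 : (((S.e₁ * S.M + S.e₂ * P : ℤ)) : 𝓞 K) = 1 := by rw [h]; simp
    push_cast at h2
    linear_combination h2
  unfold LD.x
  push_cast
  rw [h1]
  ring

theorem x_mem {D : Ctx F K m} {l : 𝓞 F} {P : ℕ} (hP : P ≠ 0) (S : LD D l P) (hS : S.Ok) (hD : D.Ok) {a : 𝓞 K} (ha : a ∈ D.X)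
    {β : 𝓞 K} (hβ : β ∈ S.B) : S.x a β - β ∈ Lat D S.A S.M ∧ S.x a β ∈ (cx D (Ideal.span {(P : 𝓞 K)}) a).X := by
  have hβX := hS.rep.sub β hβ
  have hab := r4_sub D ha hβX
  constructor
  · rw [r4_x_beta S hS]
    refine ⟨?_, fun i => ?_, fun k => ?_⟩
    · exact D.I.mul_mem_left _ (D.I.mul_mem_left _ hab)
    · exact (D.c i).mul_mem_right _ (hS.smo i)
    · obtain ⟨y, hy⟩ := dirN_tr D l (2 * P) S.A S.w' hS.dir (a - β) hab k
      refine ⟨(S.e₁ : 𝓞 F) * (l * y), ?_⟩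
      rw [r4_Tr_nat, r4_Tr_int, hy, map_mul (eF F) (S.e₁ : 𝓞 F), map_intCast]
  · show S.x a β - a ∈ Ideal.span {(P : 𝓞 K)} * D.I
    rw [r4_x_a S hS]
    refine Ideal.mul_mem_mul (Ideal.mem_span_singleton_self _) (D.I.mul_mem_left _ ?_)
    exact r4_sub D hβX ha

theorem r4_up {D : Ctx F K m} {l : 𝓞 F} {P : ℕ} (S : LD D l P) (hS : S.Ok) {a v : 𝓞 K}
    (h1 : v ∈ Lat D S.A S.M) (h2 : v ∈ Ideal.span {(P : 𝓞 K)} * D.I) :
    v ∈ Lat (cx D (Ideal.span {(P : 𝓞 K)}) a) S.A (P * S.M) := by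
  refine ⟨h2, h1.2.1, fun k => ?_⟩
  obtain ⟨z, hz, hzv⟩ := Ideal.mem_span_singleton_mul.1 h2
  obtain ⟨t, ht⟩ := h1.2.2 k
  obtain ⟨y, hy⟩ := dirN_tr D l (2 * P) S.A S.w' hS.dir z hz k
  have h3 : D.Tr (S.A k) v = (P : ℂ) * eF F (l * y) := by
    rw [← hzv, r4_Tr_nat, hy]
  refine ⟨(S.e₁ : 𝓞 F) * (l * y) + (S.e₂ : 𝓞 F) * t, ?_⟩
  have h : ((S.e₁ * S.M + S.e₂ * P : ℤ) : ℂ) = 1 := by rw [hS.bez]; simp
  push_cast at h
  change D.Tr (S.A k) v = _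
  rw [map_add (eF F), map_mul (eF F) (S.e₁ : 𝓞 F), map_mul (eF F) (S.e₂ : 𝓞 F) t, map_intCast,
    map_intCast]
  push_cast
  have h4 : (S.M : ℂ) * eF F t = (P : ℂ) * eF F (l * y) := by rw [← ht, h3]
  have h5 : (P : ℂ) * ((S.M : ℂ) * (S.e₂ * eF F t)) = (P : ℂ) * (S.e₂ * ((P : ℂ) * eF F (l * y))) := by
    rw [← h4]; ring
  have h6 : (P : ℂ) * (S.M : ℂ) * ((S.e₁ : ℂ) * eF F (l * y) + S.e₂ * eF F t) =
      (P : ℂ) * eF F (l * y) := by
    have h7 : (P : ℂ) * (S.M : ℂ) * ((S.e₁ : ℂ) * eF F (l * y) + S.e₂ * eF F t) =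
      (P : ℂ) * (S.M : ℂ) * ((S.e₁ : ℂ) * eF F (l * y)) +
        (P : ℂ) * ((S.M : ℂ) * (S.e₂ * eF F t)) := by ring
    rw [h7, h5]
    linear_combination (P : ℂ) * eF F (l * y) * h
  rw [h6, h3]

theorem r4_down {D : Ctx F K m} {P M : ℕ} {A : Fin (m + 1) → K} {a v : 𝓞 K}
    (h : v ∈ Lat (cx D (Ideal.span {(P : 𝓞 K)}) a) A (P * M)) : v ∈ Lat D A M := by
  refine ⟨cx_le D _ h.1, h.2.1, fun k => ?_⟩
  obtain ⟨t, ht⟩ := h.2.2 k
  refine ⟨(P : 𝓞 F) * t, ?_⟩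
  change D.Tr (A k) v = _ at ht
  rw [ht, map_mul, map_natCast]
  push_cast
  ring

open Classical in
theorem x_rep {D : Ctx F K m} {l : 𝓞 F} {P : ℕ} (hP : P ≠ 0) (S : LD D l P) (hS : S.Ok) (hD : D.Ok) {a : 𝓞 K} (ha : a ∈ D.X) :
    Set.InjOn (S.x a) S.B ∧ RpL (cx D (Ideal.span {(P : 𝓞 K)}) a) S.A (P * S.M) (S.B.image (S.x a)) := by
  have huniq : ∀ β ∈ S.B, ∀ β' ∈ S.B, S.x a β - S.x a β' ∈ Lat D S.A S.M → β = β' := by
    intro β hβ β' hβ' hd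
    have h1 := (x_mem hP S hS hD ha hβ).1
    have h2 := (x_mem hP S hS hD ha hβ').1
    have h3 : β - β' ∈ Lat D S.A S.M := by
      have h4 : β - β' = (S.x a β - S.x a β') - (S.x a β - β) + (S.x a β' - β') := by ring
      rw [h4]
      exact add_mem (sub_mem hd h1) h2
    refine (hS.rep.ex β (hS.rep.sub β hβ)).unique ⟨hβ, ?_⟩ ⟨hβ', h3⟩
    rw [sub_self]
    exact zero_mem _
  refine ⟨?_, ?_, ?_⟩
  · intro β hβ β' hβ' h
    refine huniq β hβ β' hβ' ?_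
    rw [h, sub_self]
    exact zero_mem _
  · intro x hx
    obtain ⟨β, hβ, rfl⟩ := Finset.mem_image.1 hx
    exact (x_mem hP S hS hD ha hβ).2
  · intro x hx
    have hxX : x ∈ D.X := cx_mem D _ ha hx
    obtain ⟨β, ⟨hβ, hxβ⟩, _⟩ := hS.rep.ex x hxX
    have h1 := x_mem hP S hS hD ha hβ
    have hxy : x - S.x a β ∈ Lat D S.A S.M := by
      have h4 : x - S.x a β = (x - β) - (S.x a β - β) := by ring
      rw [h4]
      exact sub_mem hxβ h1.1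
    have hxyI : x - S.x a β ∈ Ideal.span {(P : 𝓞 K)} * D.I :=
      r4_sub (cx D (Ideal.span {(P : 𝓞 K)}) a) hx h1.2
    have hxyC := r4_up S hS (a := a) hxy hxyI
    refine ⟨S.x a β, ⟨Finset.mem_image_of_mem _ hβ, hxyC⟩, ?_⟩
    rintro y ⟨hy, hxy'⟩
    obtain ⟨β', hβ', rfl⟩ := Finset.mem_image.1 hy
    have h5 : S.x a β' - S.x a β ∈ Lat D S.A S.M := by
      have h4 : S.x a β' - S.x a β = (x - S.x a β) - (x - S.x a β') := by ring
      rw [h4]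
      exact r4_down (sub_mem hxyC hxy')
    rw [huniq β' hβ' β hβ h5]

theorem x_full {D : Ctx F K m} {l : 𝓞 F} {P : ℕ} (S : LD D l P) (hS : S.Ok) (a : 𝓞 K) :
    Full (cx D (Ideal.span {(P : 𝓞 K)}) a) S.A (P * S.M) := by
  intro y
  obtain ⟨x, hx1, hx2, hx3⟩ := hS.full y
  refine ⟨(P : 𝓞 K) * x, Ideal.mul_mem_mul (Ideal.mem_span_singleton_self _) hx1,
    fun i => (D.c i).mul_mem_left _ (hx2 i), fun k => ?_⟩
  change D.Tr (S.A k) ((P : 𝓞 K) * x) = _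
  rw [r4_Tr_nat, hx3]
  push_cast
  ring

theorem x_per {D : Ctx F K m} {l : 𝓞 F} {P : ℕ} (S : LD D l P) (hS : S.Ok) (a : 𝓞 K) (x : 𝓞 K) :
    ∀ y ∈ Lat (cx D (Ideal.span {(P : 𝓞 K)}) a) S.A (P * S.M), S.G (x + y) = S.G x :=
  fun y hy => hS.per x y hy.2.1

end SSG.E
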