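import Mathlib
import Pool.Agent.Lib.SSG.E.R1
import Pool.Agent.Lib.SSG.E.R2
import Pool.Agent.Lib.SSG.E.R3
import Pool.Agent.Lib.SSG.E.R4

open NumberField IsDedekindDomain

namespace SSG.E

open H55N H55P

variable {F : Type} [Field F] [NumberField F] [IQ F] {K : Type} [Field K] [NumberField K]
  [Algebra F K] {m : ℕ}

/-! Chunk R5 (M). The value of J on the class of a. C = cx D q a, q = (P), w = nw (2P) w'. Jv_rat for C (Dirs: dirN_dirs with 2P in q; GSpec: S.spec) gives Jv = det * sum over C.X of G * prod dd (Tr x) (2P d(k,0)) (2P d(k,1)) (Tr (A k) (n w') = n Tr (A k) w').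
sum_lat for C with M := P M (x_full, x_per, x_rep, S.dir.ind) turns it into the sum over the image of B; Finset.sum_image with injectivity turns it into a sum over B with β replaced by x(a,β); G (x(a,β)) = G β (x_mem and S.per).
dd_sum with M := P M, α = Tr (A k) (x(a,β)) = e₁ M Tr a + e₂ P Tr β, a := 2P d(k,0), b := 2P d(k,1): (α - (a+b)/2)/(P M) = S.z a β k, (a+b)/(2 P M) = (d0 + d1)/M, (a-b)/(2 P M) = (d0 - d1)/M (field_simp). The factor (P M)^-1 = P^-1 M^-1, m+1 times. -/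

theorem Jv_H {D : Ctx F K m} {l : 𝓞 F} {P : ℕ} (hP : P ≠ 0) (S : LD D l P) (hS : S.Ok) (hD : D.Ok) {a : 𝓞 K} (ha : a ∈ D.X) :
    (cx D (Ideal.span {(P : 𝓞 K)}) a).Jv (fun k => .A (S.A k)) = ((P : ℂ)⁻¹) ^ (m + 1) * S.H a := by
  classical
  have hq : ((2 * P : ℕ) : 𝓞 K) ∈ Ideal.span {(P : 𝓞 K)} := by
    rw [Nat.cast_mul]
    exact Ideal.mul_mem_left _ _ (Ideal.mem_span_singleton_self _)
  have hPM : P * S.M ≠ 0 := mul_ne_zero hP hS.ne
  have hPC : (P : ℂ) ≠ 0 := by exact_mod_cast hP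
  have hMC : (S.M : ℂ) ≠ 0 := by exact_mod_cast hS.ne
  have hdirs := dirN_dirs D l (Ideal.span {(P : 𝓞 K)}) (2 * P) hq S.A S.w' hS.dir ha
  have h1 := (Jv_rat (cx D (Ideal.span {(P : 𝓞 K)}) a) (cx_ok D hD _ ha) S.A (nw (2 * P) S.w')
    hdirs (fun x => ((S.G x : ℤ) : ℂ)) (hS.spec a ha)).2
  have h2 : ∀ k j, (cx D (Ideal.span {(P : 𝓞 K)}) a).Tr (S.A k) (nw (2 * P) S.w' (k, j)) =
      2 * P * S.d k j := by
    intro k j
    change D.Tr (S.A k) (((2 * P : ℕ) : 𝓞 K) * S.w' (k, j)) = _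
    rw [r4_Tr_nat]
    unfold LD.d
    push_cast
    ring
  simp only [h2] at h1
  have hrep := x_rep hP S hS hD ha
  have h3 := sum_lat (cx D (Ideal.span {(P : 𝓞 K)}) a) (cx_ok D hD _ ha) S.A hS.dir.ind (P * S.M) hPM
    (x_full S hS a) (S.B.image (S.x a)) hrep.2 (fun x => ((S.G x : ℤ) : ℂ))
    (fun x y hy => by
      change ((S.G (x + y) : ℤ) : ℂ) = ((S.G x : ℤ) : ℂ)
      rw [x_per S hS a x y hy])
    (fun k y => dd y (2 * P * S.d k 0) (2 * P * S.d k 1))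
    (fun β _ k => (dd_sum (F := F) (P * S.M) hPM _ _ _).1)
  rw [h1, h3, Finset.sum_image fun x hx y hy h => hrep.1 hx hy h]
  unfold LD.H
  have h4 : ∀ β ∈ S.B, (((S.G (S.x a β) : ℤ) : ℂ) * ∏ k, ∑' y : 𝓞 F,
      dd ((cx D (Ideal.span {(P : 𝓞 K)}) a).Tr (S.A k) (S.x a β) + ((P * S.M : ℕ) : ℂ) * eF F y)
        (2 * P * S.d k 0) (2 * P * S.d k 1)) = ((P : ℂ)⁻¹) ^ (m + 1) *
      (((S.G β : ℤ) : ℂ) * ∏ k, (S.M : ℂ)⁻¹ *
        (H35P.T2 (LF F) (S.z a β k) ((S.d k 0 + S.d k 1) / S.M) -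
          H35P.T2 (LF F) (S.z a β k) ((S.d k 0 - S.d k 1) / S.M))) := by
    intro β hβ
    have h5 : S.G (S.x a β) = S.G β := by
      have h6 := (x_mem hP S hS hD ha hβ).1.2.1
      have h7 := hS.per β (S.x a β - β) h6
      rw [← h7]
      congr 1
      ring
    have h8 : ∀ k : Fin (m + 1), (∑' y : 𝓞 F,
        dd ((cx D (Ideal.span {(P : 𝓞 K)}) a).Tr (S.A k) (S.x a β) + ((P * S.M : ℕ) : ℂ) * eF F y)
          (2 * P * S.d k 0) (2 * P * S.d k 1)) = (P : ℂ)⁻¹ * ((S.M : ℂ)⁻¹ *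
        (H35P.T2 (LF F) (S.z a β k) ((S.d k 0 + S.d k 1) / S.M) -
          H35P.T2 (LF F) (S.z a β k) ((S.d k 0 - S.d k 1) / S.M))) := by
      intro k
      rw [(dd_sum (F := F) (P * S.M) hPM _ _ _).2]
      have h9 : (cx D (Ideal.span {(P : 𝓞 K)}) a).Tr (S.A k) (S.x a β) =
          S.e₁ * S.M * D.Tr (S.A k) a + S.e₂ * P * D.Tr (S.A k) β := by
        change D.Tr (S.A k) (S.x a β) = _
        unfold LD.x
        rw [D.Tr_add, r4_Tr_int, r4_Tr_int]
        push_cast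
        ring
      have h10 : ((cx D (Ideal.span {(P : 𝓞 K)}) a).Tr (S.A k) (S.x a β) -
          (2 * P * S.d k 0 + 2 * P * S.d k 1) / 2) / ((P * S.M : ℕ) : ℂ) = S.z a β k := by
        rw [h9]
        unfold LD.z
        push_cast
        field_simp
        ring
      have h11 : (2 * P * S.d k 0 + 2 * P * S.d k 1) / (2 * ((P * S.M : ℕ) : ℂ)) =
          (S.d k 0 + S.d k 1) / S.M := by
        push_cast
        field_simp
      have h12 : (2 * P * S.d k 0 - 2 * P * S.d k 1) / (2 * ((P * S.M : ℕ) : ℂ)) =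
          (S.d k 0 - S.d k 1) / S.M := by
        push_cast
        field_simp
      rw [h10, h11, h12, Nat.cast_mul, mul_inv, mul_assoc]
    rw [h5, Finset.prod_congr rfl fun k _ => h8 k, Finset.prod_mul_distrib, Finset.prod_const,
      Finset.card_univ, Fintype.card_fin]
    ring
  rw [Finset.sum_congr rfl h4, ← Finset.mul_sum]
  change Matrix.det (Matrix.of fun k i => D.σ i (S.A k)) * _ = _
  ring

end SSG.E
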