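import Mathlib
import Pool.Agent.Lib.SSG.E.DN
import Pool.Agent.Lib.H55P.B4

open NumberField IsDedekindDomain

namespace SSG.E

open H55N H55P

variable {F : Type} [Field F] [NumberField F] [IQ F] {K : Type} [Field K] [NumberField K]
  [Algebra F K] {m : ℕ}

/-! Chunk W10 (M). Summation by parts with an integer valued function G, the same for all classes. COPY of gspec_exists (Lib/H55P/B4.lean), with t i x = ((u i x - 1).val : integer) and G x = prod of t i x, an integer; u i is
additive and vanishes exactly on c i (B4_map), so u i (x + y) = u i x for y in c i, which gives the periodicity. The proof of GSpec uses of Dirs only mem, self, oth: for the context cx D q a these are: n w' i in q I (n in q), DirN.self, DirN.oth. -/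

theorem w10_spec (D : Ctx F K m) (hD : D.Ok)
    (w : Fin (m + 1) × Fin 2 → 𝓞 K) (hmem : ∀ i, w i ∈ D.I)
    (hother : ∀ i k, k ≠ i → w i ∈ D.c k)
    (u : (i : Fin (m + 1) × Fin 2) → 𝓞 K → ZMod (D.p i))
    (hu_add : ∀ i x y, u i (x + y) = u i x + u i y) (hu_zero : ∀ i x, u i x = 0 ↔ x ∈ D.c i)
    (hu_one : ∀ i, u i (w i) = 1) :
    D.GSpec w (fun x => ∏ i, (((u i x - 1).val : ℕ) : ℂ)) := by
  classical
  -- the functions t_i
  let t : Fin (m + 1) × Fin 2 → 𝓞 K → ℂ := fun i x => (((u i x - 1).val : ℕ) : ℂ)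
  have hbd : ∀ i x, ‖t i x‖ ≤ (D.p i : ℝ) := by
    intro i x
    have hpi : Fact (D.p i).Prime := ⟨hD.smooth.prime i⟩
    change ‖(((u i x - 1).val : ℕ) : ℂ)‖ ≤ _
    rw [Complex.norm_natCast]
    exact_mod_cast (ZMod.val_lt _).le
  have hself : ∀ i x, t i (x + w i) - t i x = if x ∈ D.c i then 1 - (D.p i : ℂ) else 1 := by
    intro i x
    change (((u i (x + w i) - 1).val : ℕ) : ℂ) - (((u i x - 1).val : ℕ) : ℂ) = _
    rw [hu_add, hu_one, add_sub_cancel_right, B4_val _ (hD.smooth.prime i)]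
    by_cases hx : x ∈ D.c i
    · rw [if_pos hx, if_pos ((hu_zero i x).2 hx)]
    · rw [if_neg hx, if_neg (fun h' => hx ((hu_zero i x).1 h'))]
  have hoth : ∀ i k x, k ≠ i → t i (x + w k) = t i x := by
    intro i k x hk
    change (((u i (x + w k) - 1).val : ℕ) : ℂ) = (((u i x - 1).val : ℕ) : ℂ)
    rw [hu_add, (hu_zero i (w k)).2 (hother k i (Ne.symm hk)), add_zero]
  let G : 𝓞 K → ℂ := fun x => ∏ i, t i x
  -- values at shifted points
  have hshift : ∀ (T : Finset (Fin (m + 1) × Fin 2)) (i : Fin (m + 1) × Fin 2) (x : 𝓞 K),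
      t i (x + ∑ k ∈ T, w k) = if i ∈ T then t i (x + w i) else t i x := by
    intro T
    induction T using Finset.induction_on with
    | empty => intro i x; simp
    | insert a T ha ih =>
      intro i x
      rw [Finset.sum_insert ha, ← add_assoc, ih i (x + w a)]
      by_cases hia : i = a
      · subst hia
        rw [if_neg ha, if_pos (Finset.mem_insert_self _ _)]
      · by_cases hiT : i ∈ T
        · rw [if_pos hiT, if_pos (Finset.mem_insert_of_mem hiT)]
          rw [show x + w a + w i = (x + w i) + w a by ring, hoth i a _ (Ne.symm hia)]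
        · rw [if_neg hiT, if_neg (by simp [hia, hiT]), hoth i a _ (Ne.symm hia)]
  have hG : ∀ (T : Finset (Fin (m + 1) × Fin 2)) (x : 𝓞 K), G (x + ∑ k ∈ T, w k) =
      (∏ i ∈ T, t i (x + w i)) * ∏ i ∈ Finset.univ \ T, t i x := by
    intro T x
    change ∏ i, t i (x + ∑ k ∈ T, w k) = _
    rw [← Finset.prod_sdiff (Finset.subset_univ T), mul_comm]
    congr 1
    · exact Finset.prod_congr rfl fun i hi => by rw [hshift, if_pos hi]
    · exact Finset.prod_congr rfl fun i hi => by
        rw [hshift, if_neg (Finset.mem_sdiff.1 hi).2]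
  have hg : ∀ x, D.g x = ∑ T ∈ (Finset.univ : Finset (Fin (m + 1) × Fin 2)).powerset,
      (-1) ^ T.card * G (x + ∑ k ∈ T, w k) := by
    intro x
    have h1 : D.g x = ∏ i, (t i (x + w i) - t i x) := by
      change ∏ i, _ = _
      refine Finset.prod_congr rfl fun i _ => ?_
      rw [hself]
    rw [h1]
    simp only [sub_eq_add_neg]
    rw [Finset.prod_add]
    refine Finset.sum_congr rfl fun T _ => ?_
    rw [hG, Finset.prod_neg]
    have hcard : (Finset.univ \ T).card + T.card = (m + 1) * 2 := by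
      rw [Finset.card_sdiff_add_card_eq_card (Finset.subset_univ T)]
      simp
    have hpar : (-1 : ℂ) ^ (Finset.univ \ T).card = (-1) ^ T.card := by
      have h2 : (-1 : ℂ) ^ ((Finset.univ \ T).card + T.card) = 1 := by
        rw [hcard, mul_comm, pow_mul]
        norm_num
      rw [pow_add] at h2
      have h3 : (-1 : ℂ) ^ T.card * (-1) ^ T.card = 1 := by
        rw [← mul_pow]; norm_num
      calc (-1 : ℂ) ^ (Finset.univ \ T).card
          = (-1) ^ (Finset.univ \ T).card * ((-1) ^ T.card * (-1) ^ T.card) := by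
            rw [h3, mul_one]
        _ = ((-1) ^ (Finset.univ \ T).card * (-1) ^ T.card) * (-1) ^ T.card := by ring
        _ = (-1) ^ T.card := by rw [h2, one_mul]
    rw [hpar]
    ring
  refine ⟨⟨∏ i, (D.p i : ℝ), ?_⟩, ?_⟩
  · intro x
    change ‖∏ i, t i x‖ ≤ _
    rw [norm_prod]
    exact Finset.prod_le_prod (fun i _ => norm_nonneg _) fun i _ => hbd i x
  · intro f hf
    have hGb : ∀ x, ‖G x‖ ≤ ∏ i, (D.p i : ℝ) := by
      intro x
      change ‖∏ i, t i x‖ ≤ _
      rw [norm_prod]
      exact Finset.prod_le_prod (fun i _ => norm_nonneg _) fun i _ => hbd i x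
    have hmemT : ∀ T : Finset (Fin (m + 1) × Fin 2), ∑ k ∈ T, w k ∈ D.I := fun T =>
      D.I.sum_mem fun k _ => hmem k
    -- translation
    let tr : Finset (Fin (m + 1) × Fin 2) → D.X ≃ D.X := fun T =>
      { toFun := fun x => ⟨x.1 + ∑ k ∈ T, w k, D.X_add x.2 (hmemT T)⟩
        invFun := fun x => ⟨x.1 - ∑ k ∈ T, w k, D.X_sub x.2 (hmemT T)⟩
        left_inv := fun x => by
          apply Subtype.ext
          change x.1 + ∑ k ∈ T, w k - ∑ k ∈ T, w k = x.1
          ring
        right_inv := fun x => by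
          apply Subtype.ext
          change x.1 - ∑ k ∈ T, w k + ∑ k ∈ T, w k = x.1
          ring }
    have hs1 : ∀ T : Finset (Fin (m + 1) × Fin 2),
        Summable fun x : D.X => (-1 : ℂ) ^ T.card * G (x.1 + ∑ k ∈ T, w k) * f x := by
      intro T
      refine Summable.of_norm_bounded (g := fun x : D.X => (∏ i, (D.p i : ℝ)) * ‖f x‖)
        (hf.mul_left _) fun x => ?_
      rw [norm_mul, norm_mul, norm_pow, norm_neg, NormOneClass.norm_one, one_pow, one_mul]
      exact mul_le_mul_of_nonneg_right (hGb _) (norm_nonneg _)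
    have hs2 : ∀ T : Finset (Fin (m + 1) × Fin 2),
        Summable fun x : D.X => G x.1 * ((-1 : ℂ) ^ T.card * f (x.1 - ∑ k ∈ T, w k)) := by
      intro T
      have := (Equiv.summable_iff (tr T).symm).2 (hs1 T)
      refine this.congr fun x => ?_
      change (-1 : ℂ) ^ T.card * G (x.1 - ∑ k ∈ T, w k + ∑ k ∈ T, w k) *
          f (x.1 - ∑ k ∈ T, w k) = G x.1 * ((-1 : ℂ) ^ T.card * f (x.1 - ∑ k ∈ T, w k))
      rw [sub_add_cancel]
      ring
    calc ∑' x : D.X, D.g x * f x
        = ∑' x : D.X, ∑ T ∈ (Finset.univ : Finset (Fin (m + 1) × Fin 2)).powerset,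
            (-1 : ℂ) ^ T.card * G (x.1 + ∑ k ∈ T, w k) * f x := by
          refine tsum_congr fun x => ?_
          rw [hg, Finset.sum_mul]
      _ = ∑ T ∈ (Finset.univ : Finset (Fin (m + 1) × Fin 2)).powerset,
            ∑' x : D.X, (-1 : ℂ) ^ T.card * G (x.1 + ∑ k ∈ T, w k) * f x :=
          Summable.tsum_finsetSum fun T _ => hs1 T
      _ = ∑ T ∈ (Finset.univ : Finset (Fin (m + 1) × Fin 2)).powerset,
            ∑' x : D.X, G x.1 * ((-1 : ℂ) ^ T.card * f (x.1 - ∑ k ∈ T, w k)) := by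
          refine Finset.sum_congr rfl fun T _ => ?_
          rw [← Equiv.tsum_eq (tr T).symm]
          refine tsum_congr fun x => ?_
          change (-1 : ℂ) ^ T.card * G (x.1 - ∑ k ∈ T, w k + ∑ k ∈ T, w k) *
              f (x.1 - ∑ k ∈ T, w k) = _
          rw [sub_add_cancel]
          ring
      _ = ∑' x : D.X, ∑ T ∈ (Finset.univ : Finset (Fin (m + 1) × Fin 2)).powerset,
            G x.1 * ((-1 : ℂ) ^ T.card * f (x.1 - ∑ k ∈ T, w k)) :=
          (Summable.tsum_finsetSum fun T _ => hs2 T).symm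
      _ = ∑' x : D.X, G x * Dif w Finset.univ f x := by
          refine tsum_congr fun x => ?_
          rw [Dif, Finset.mul_sum]

theorem gInt (D : Ctx F K m) (hD : D.Ok) (l : 𝓞 F) (q : Ideal (𝓞 K)) (n : ℕ) (hn : (n : 𝓞 K) ∈ q) (A : Fin (m + 1) → K)
    (w' : Fin (m + 1) × Fin 2 → 𝓞 K) (h : DirN D l n A w') :
    ∃ G : 𝓞 K → ℤ, (∀ x y, (∀ i, y ∈ D.c i) → G (x + y) = G x) ∧
      ∀ a ∈ D.X, (cx D q a).GSpec (nw n w') (fun x => ((G x : ℤ) : ℂ)) := by
  classical
  choose u hu_add hu_zero hu_one using fun i => B4_map (D.c i) (D.p i) (hD.smooth.prime i)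
    (hD.smooth.norm i) (nw n w' i) (h.self i)
  refine ⟨fun x => ∏ i, (((u i x - 1).val : ℕ) : ℤ), ?_, ?_⟩
  · intro x y hy
    refine Finset.prod_congr rfl fun i _ => ?_
    rw [hu_add, (hu_zero i y).2 (hy i), add_zero]
  · intro a ha
    have h1 := w10_spec (cx D q a) (cx_ok D hD q ha) (nw n w')
      (fun i => Ideal.mul_mem_mul hn (h.mem i)) h.oth u hu_add hu_zero hu_one
    have h2 : (fun x => (((∏ i, (((u i x - 1).val : ℕ) : ℤ) : ℤ)) : ℂ)) =
        (fun x => ∏ i, (((u i x - 1).val : ℕ) : ℂ)) := by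
      funext x
      push_cast
      rfl
    rw [h2]
    exact h1

end SSG.E
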