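import Mathlib
import Pool.Agent.Lib.SSG.E.DN
import Pool.Agent.Lib.H55P.L1
import Pool.Agent.Lib.H55P.L4

open NumberField IsDedekindDomain

namespace SSG.E

open H55N H55P

variable {F : Type} [Field F] [NumberField F] [IQ F] {K : Type} [Field K] [NumberField K]
  [Algebra F K] {m : ℕ}

/-! Chunk W9 (S/M). COPY of dirs_of (Lib/H55P/L4.lean): w' i = (prod over k <> i of D.p k) * d i.1. self: n, the product and d i.1 are not in the prime ideal D.c i; oth: the product contains D.p k, which is in D.c k; orth: D.Tr (A k) (..) is e of the trace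
(Tr_eq as in dirs_of). -/

theorem dirN_of (D : Ctx F K m) (hD : D.Ok) (l : 𝓞 F) (n : ℕ) (A : Fin (m + 1) → K) (d : Fin (m + 1) → 𝓞 K)
    (hd : ∀ j, d j ∈ D.I) (hdc : ∀ i j, d j ∉ D.c i) (hnc : ∀ i, (n : 𝓞 K) ∉ D.c i)
    (horth : ∀ j k, k ≠ j → Algebra.trace F K ((d j : K) * A k) = 0)
    (hone : ∀ x ∈ D.X, ∀ k, ∃ y : 𝓞 F, D.Tr (A k) x = eF F (1 + l * y))
    (hlow : ∀ x ∈ D.X, ∀ k, 1 ≤ ‖D.Tr (A k) x‖) (hA : LinearIndependent F A) :
    ∃ w', DirN D l n A w' := by
  classical
  have hprime : ∀ i, (D.c i).IsPrime := fun i =>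
    Ideal.isPrime_of_irreducible_absNorm (by
      rw [hD.smooth.norm i]
      exact (hD.smooth.prime i))
  have hpc : ∀ i, (D.p i : 𝓞 K) ∈ D.c i := fun i => by
    have := Ideal.absNorm_mem (D.c i)
    rwa [hD.smooth.norm i] at this
  refine ⟨fun i => ((∏ k ∈ Finset.univ.erase i, D.p k : ℕ) : 𝓞 K) * d i.1, ?_, ?_, ?_, ?_, hone,
    hlow, hA⟩
  · intro i
    exact D.I.mul_mem_left _ (hd _)
  · intro i h0
    rcases (hprime i).mem_or_mem h0 with h00 | h
    · exact hnc i h00
    rcases (hprime i).mem_or_mem h with h1 | h1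
    · have hcop : Nat.Coprime (∏ k ∈ Finset.univ.erase i, D.p k) (D.p i) := by
        refine Nat.Coprime.prod_left fun k hk => ?_
        rw [Nat.coprime_primes (hD.smooth.prime k) (hD.smooth.prime i)]
        intro h2
        exact (Finset.mem_erase.1 hk).1 (hD.smooth.inj h2)
      have h2 := Nat.isCoprime_iff_coprime.2 hcop
      obtain ⟨a, b, hab⟩ := h2
      apply (hprime i).ne_top
      rw [Ideal.eq_top_iff_one]
      have h3 := congrArg (Int.cast : ℤ → 𝓞 K) hab
      push_cast at h3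
      rw [← h3]
      refine (D.c i).add_mem ((D.c i).mul_mem_left _ ?_) ((D.c i).mul_mem_left _ (hpc i))
      push_cast at h1
      exact h1
    · exact hdc i i.1 h1
  · intro i k hk
    refine (D.c k).mul_mem_left _ ((D.c k).mul_mem_right _ ?_)
    rw [← Finset.mul_prod_erase (Finset.univ.erase i) (fun k => D.p k)
      (Finset.mem_erase.2 ⟨hk, Finset.mem_univ k⟩)]
    push_cast
    exact (D.c k).mul_mem_right _ (hpc k)
  · intro i k hk
    rw [Tr_eq D hD.emb]
    have h1 : (((((∏ k ∈ Finset.univ.erase i, D.p k : ℕ) : 𝓞 K) * d i.1 : 𝓞 K)) : K) * A k =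
        ((∏ k ∈ Finset.univ.erase i, D.p k : ℕ) : F) • ((d i.1 : K) * A k) := by
      rw [Algebra.smul_def, map_natCast, ← mul_assoc]
      congr 1
    rw [h1, map_smul, horth i.1 k hk, smul_zero, map_zero]

end SSG.E
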