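import Mathlib
import Pool.Agent.Lib.SSG.E.HV
import Pool.Agent.Lib.SSG.E.W8
import Pool.Agent.Lib.SSG.E.W9
import Pool.Agent.Lib.SSG.E.W10
import Pool.Agent.Lib.H55P.E9

open NumberField IsDedekindDomain

namespace SSG.E

open H55N H55P

variable {F : Type} [Field F] [NumberField F] [IQ F] {K : Type} [Field K] [NumberField K]
  [Algebra F K] {m : ℕ}

/-! Chunk R6 (M). Existence of the data. (1) rpl_exists: Lat D A M contains M I (if M is in all c i and the traces of I are e-values), M <> 0, so I / Lat is finite (a quotient of I / M I; 𝓞 K / (M) is finite) and X / Lat is finite: choose representatives.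
(2) ld_exists: A, M₀ from m0_exists (Lib/H55P/E9.lean), M := M₀ * prod of D.p i (Full D A M: take the element for prod * y; M is in c i because D.p i is in c i: absNorm_mem, D.smooth.norm); P coprime to M; e₁, e₂ from Int.isCoprime (Nat.isCoprime_iff_coprime);
G from gInt with q = (P), n = 2P; B from (1). Traces of I: dirN_tr. -/

theorem r6_Tr_nat (D : Ctx F K m) (A : K) (n : ℕ) (x : 𝓞 K) :
    D.Tr A ((n : 𝓞 K) * x) = (n : ℂ) * D.Tr A x := by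
  unfold H55P.Ctx.Tr
  rw [Finset.mul_sum]
  refine Finset.sum_congr rfl fun i _ => ?_
  have h1 : (((n : 𝓞 K) * x : 𝓞 K) : K) * A = (n : K) * ((x : K) * A) := by
    have h := map_mul (algebraMap (𝓞 K) K) (n : 𝓞 K) x
    rw [map_natCast] at h
    have h2 : (((n : 𝓞 K) * x : 𝓞 K) : K) = (n : K) * (x : K) := h
    rw [h2]
    ring
  rw [h1, map_mul, map_natCast]

theorem r6_lat (D : Ctx F K m) (A : Fin (m + 1) → K) (M : ℕ) (hc : ∀ i, (M : 𝓞 K) ∈ D.c i)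
    (htr : ∀ v ∈ D.I, ∀ k, ∃ y : 𝓞 F, D.Tr (A k) v = eF F y) {v : 𝓞 K}
    (hv : v ∈ Ideal.span {(M : 𝓞 K)} * D.I) : v ∈ Lat D A M := by
  obtain ⟨z, hz, hzv⟩ := Ideal.mem_span_singleton_mul.1 hv
  rw [← hzv]
  refine ⟨D.I.mul_mem_left _ hz, fun i => (D.c i).mul_mem_right _ (hc i), fun k => ?_⟩
  obtain ⟨y, hy⟩ := htr z hz k
  exact ⟨y, by rw [r6_Tr_nat, hy]⟩

theorem rpl_exists (D : Ctx F K m) (A : Fin (m + 1) → K) (M : ℕ) (hM : M ≠ 0) (hc : ∀ i, (M : 𝓞 K) ∈ D.c i)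
    (htr : ∀ v ∈ D.I, ∀ k, ∃ y : 𝓞 F, D.Tr (A k) v = eF F y) : ∃ B : Finset (𝓞 K), RpL D A M B := by
  classical
  let f : 𝓞 K → 𝓞 K ⧸ Lat D A M := fun x => (x : 𝓞 K ⧸ Lat D A M)
  have hf : ∀ x y : 𝓞 K, f x = f y ↔ x - y ∈ Lat D A M := by
    intro x y
    rw [eq_comm, show (f y = f x ↔ x - y ∈ Lat D A M) ↔ (f y = f x ↔ x - y ∈ Lat D A M) from Iff.rfl]
    change ((y : 𝓞 K ⧸ Lat D A M) = (x : 𝓞 K ⧸ Lat D A M)) ↔ _
    rw [QuotientAddGroup.eq, neg_add_eq_sub]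
  obtain ⟨s, hsX, hs⟩ := Set.exists_subset_bijOn D.X f
  have hfin : (f '' D.X).Finite := by
    by_cases hI : D.I = ⊥
    · have h1 : D.X = {D.c₀} := by
        ext x
        rw [H55P.Ctx.mem_X, hI, Ideal.mem_bot, sub_eq_zero, Set.mem_singleton_iff]
      rw [h1]
      exact (Set.finite_singleton _).image _
    · have hJ : Ideal.span {(M : 𝓞 K)} * D.I ≠ ⊥ := by
        intro h0
        rcases Ideal.mul_eq_bot.1 h0 with h | h
        · rw [Ideal.span_singleton_eq_bot] at h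
          exact hM (by exact_mod_cast h)
        · exact hI h
      have hfq : Finite (𝓞 K ⧸ (Ideal.span {(M : 𝓞 K)} * D.I)) :=
        Ideal.finiteQuotientOfFreeOfNeBot _ hJ
      refine (Set.finite_range (fun t : 𝓞 K ⧸ (Ideal.span {(M : 𝓞 K)} * D.I) =>
        f (Quotient.out t))).subset ?_
      rintro _ ⟨x, hx, rfl⟩
      refine ⟨Ideal.Quotient.mk _ x, ?_⟩
      rw [hf]
      apply r6_lat D A M hc htr
      rw [← Ideal.Quotient.eq]
      exact Quotient.out_eq _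
  have hsfin : s.Finite := Set.Finite.of_finite_image (by rw [hs.image_eq]; exact hfin) hs.injOn
  refine ⟨hsfin.toFinset, ?_, ?_⟩
  · intro x hx
    exact hsX ((Set.Finite.mem_toFinset _).1 hx)
  · intro x hx
    obtain ⟨y, hy, hyx⟩ := hs.surjOn (Set.mem_image_of_mem f hx)
    refine ⟨y, ⟨(Set.Finite.mem_toFinset _).2 hy, (hf x y).1 hyx.symm⟩, ?_⟩
    rintro z ⟨hz, hxz⟩
    exact hs.injOn ((Set.Finite.mem_toFinset _).1 hz) hy (((hf x z).2 hxz).symm.trans hyx.symm)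

theorem ld_exists (D : Ctx F K m) (hD : D.Ok) (l : 𝓞 F) (P : ℕ) (hP : P ≠ 0) (hPc : ∀ i, IsCoprime (P : ℤ) (D.p i : ℤ))
    (A : Fin (m + 1) → K) (w' : Fin (m + 1) × Fin 2 → 𝓞 K) (hdir : DirN D l (2 * P) A w') (M₀ : ℕ) (h0 : M₀ ≠ 0)
    (hcop : IsCoprime (P : ℤ) (M₀ : ℤ)) (hlM : l ∣ (M₀ : 𝓞 F)) (hfull : Full D A M₀) :
    ∃ S : LD D l P, S.Ok ∧ S.A = A := by
  classical
  have hq : ((2 * P : ℕ) : 𝓞 K) ∈ Ideal.span {(P : 𝓞 K)} := by
    rw [Nat.cast_mul]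
    exact Ideal.mul_mem_left _ _ (Ideal.mem_span_singleton_self _)
  obtain ⟨G, hG1, hG2⟩ := gInt D hD l (Ideal.span {(P : 𝓞 K)}) (2 * P) hq A w' hdir
  have hM : M₀ * (∏ i, D.p i) ≠ 0 :=
    mul_ne_zero h0 (Finset.prod_ne_zero_iff.2 fun i _ => (hD.smooth.prime i).ne_zero)
  have hsmo : ∀ i, ((M₀ * (∏ i, D.p i) : ℕ) : 𝓞 K) ∈ D.c i := by
    intro i
    have h1 : ((D.p i : ℕ) : 𝓞 K) ∈ D.c i := by
      rw [← hD.smooth.norm i]
      exact Ideal.absNorm_mem _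
    obtain ⟨t, ht⟩ : D.p i ∣ M₀ * (∏ i, D.p i) :=
      (Finset.dvd_prod_of_mem _ (Finset.mem_univ i)).mul_left _
    rw [ht, Nat.cast_mul]
    exact Ideal.mul_mem_right _ _ h1
  have hcopM : IsCoprime (P : ℤ) ((M₀ * (∏ i, D.p i) : ℕ) : ℤ) := by
    rw [Nat.cast_mul, Nat.cast_prod]
    exact hcop.mul_right (IsCoprime.prod_right fun i _ => hPc i)
  obtain ⟨e₂, e₁, he⟩ := hcopM
  obtain ⟨B, hB⟩ := rpl_exists D A (M₀ * (∏ i, D.p i)) hM hsmo (fun v hv k => by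
    obtain ⟨y, hy⟩ := dirN_tr D l (2 * P) A w' hdir v hv k
    exact ⟨l * y, hy⟩)
  refine ⟨⟨A, w', G, M₀ * (∏ i, D.p i), e₁, e₂, B⟩, ⟨hdir, hG1, hG2, hM, ?_, hsmo, hPc, ?_, ?_, hB⟩,
    rfl⟩
  · rw [← he]
    ring
  · rw [Nat.cast_mul]
    exact hlM.mul_right _
  · intro y
    obtain ⟨x, hx1, hx2, hx3⟩ := hfull fun k => ((∏ i, D.p i : ℕ) : 𝓞 F) * y k
    refine ⟨x, hx1, hx2, fun k => ?_⟩
    rw [hx3, map_mul, map_natCast]
    push_cast
    ring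

end SSG.E
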