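import Mathlib
import Pool.Agent.Lib.SSG.E.D

open NumberField IsDedekindDomain

namespace SSG.E

open H55N H55P

variable {F : Type} [Field F] [NumberField F] [IQ F] {K : Type} [Field K] [NumberField K]
  [Algebra F K] {m : ℕ}

/-! Chunk W1 (S). The context depends only on the class of a modulo q I. (1) X: x - a and x - b differ by a - b in q I. (2) Ctx.HasReg for (cx D q a) and (cx D q b): the fields
σ, I, c, p are the same, so row, Q, cut, Idet, g are the same functions (rfl) and the sets X agree by (1) (rewrite the subtype: after `have hX : (cx D q a).X = (cx D q b).X`, unfold Ctx.HasReg, rw [hX]; if the motive is wrong state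
the lemma for a general set X, or use tsum over indicator / Equiv.setCongr hX). Ctx.Jv is defined by HasReg: same value (the two propositions and the choices are equal: funext/propext on S, then simp only / congr 1). Same for Bv (a sum over X) and GSpec. -/

theorem cx_X (D : Ctx F K m) (q : Ideal (𝓞 K)) {a b : 𝓞 K} (h : a - b ∈ q * D.I) : (cx D q a).X = (cx D q b).X := by
  ext x
  show x - a ∈ q * D.I ↔ x - b ∈ q * D.I
  have e1 : x - b = (x - a) + (a - b) := by ring
  have e2 : x - a = (x - b) - (a - b) := by ring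
  constructor
  · intro hx
    rw [e1]
    exact (q * D.I).add_mem hx h
  · intro hx
    rw [e2]
    exact (q * D.I).sub_mem hx h

theorem w1_reg (D : Ctx F K m) (f : 𝓞 K → ℂ) (S : ℂ) {X Y : Set (𝓞 K)} (hXY : X = Y) :
    ((∃ C : ℝ, ∀ x ∈ X, ‖f x‖ ≤ C) ∧ ∀ B : Matrix (Fin (m + 1)) (Fin (m + 1)) ℂ, B.det ≠ 0 →
      Filter.Tendsto (fun R : ℝ => ∑' x : X, D.g x * f x * (D.cut B R x : ℂ)) Filter.atTop (nhds S)) ↔
    ((∃ C : ℝ, ∀ x ∈ Y, ‖f x‖ ≤ C) ∧ ∀ B : Matrix (Fin (m + 1)) (Fin (m + 1)) ℂ, B.det ≠ 0 →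
      Filter.Tendsto (fun R : ℝ => ∑' x : Y, D.g x * f x * (D.cut B R x : ℂ)) Filter.atTop (nhds S)) := by
  subst hXY
  exact Iff.rfl

open Classical in
theorem w1_choose {P Q : ℂ → Prop} (h : P = Q) : (if h : ∃ S, P S then h.choose else 0) =
    (if h : ∃ S, Q S then h.choose else 0 : ℂ) := by
  subst h
  rfl

theorem cx_reg (D : Ctx F K m) (q : Ideal (𝓞 K)) {a b : 𝓞 K} (h : a - b ∈ q * D.I) (f : 𝓞 K → ℂ) (S : ℂ) :
    (cx D q a).HasReg f S ↔ (cx D q b).HasReg f S :=
  w1_reg D f S (cx_X D q h)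

theorem cx_Jv (D : Ctx F K m) (q : Ideal (𝓞 K)) {a b : 𝓞 K} (h : a - b ∈ q * D.I) (L : Fin (m + 1) → Lab K m) :
    (cx D q a).Jv L = (cx D q b).Jv L := by
  unfold H55P.Ctx.Jv
  exact w1_choose (funext fun S => propext (cx_reg D q h _ S))

end SSG.E
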