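import Mathlib
import Pool.Agent.Lib.SSG.E.D
import Pool.Agent.Lib.H55P.R5

open NumberField IsDedekindDomain

namespace SSG.E

open H55N H55P

variable {F : Type} [Field F] [NumberField F] [IQ F] {K : Type} [Field K] [NumberField K]
  [Algebra F K] {m : ℕ}

/-! Chunk W2 (M). Multiplication by a unit v moves the class of a to the class of v a. COPY of R5_inv, R5_memX, R5_equiv, R5_reg, reg_act, Jv_act in Lib/H55P/R5.lean; the assumption (v - 1) c0 in I is not needed because the class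
is allowed to move: x in (cx D q a).X iff v x in (cx D q (v a)).X (v x - v a = v (x - a); conversely multiply by v^-1). g (v x) = g x (R5_g), cut (B diag) R (v x) = cut B R x (R5_cut), Idet (act v L) x = Idet L (v x) (R5_Idet);
all these functions are the same for (cx D q a) and for D (rfl: they do not use I, c0). So (cx D q (v a)).HasReg h S implies (cx D q a).HasReg (fun x => h (v x)) S (for B use B diag(σ_j v)^-1), and conversely with v^-1 (v^-1 (v a) = a).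
Then Jv by cases on existence as in Jv_act. -/

theorem w2_mem (D : Ctx F K m) (q : Ideal (𝓞 K)) (v : (𝓞 K)ˣ) (a : 𝓞 K) {x : 𝓞 K} (hx : x ∈ (cx D q a).X) :
    (v : 𝓞 K) * x ∈ (cx D q ((v : 𝓞 K) * a)).X := by
  have h1 : x - a ∈ q * D.I := hx
  show (v : 𝓞 K) * x - v * a ∈ q * D.I
  rw [← mul_sub]
  exact Ideal.mul_mem_left _ _ h1

theorem w2_mem' (D : Ctx F K m) (q : Ideal (𝓞 K)) (v : (𝓞 K)ˣ) (a : 𝓞 K) {x : 𝓞 K} (hx : x ∈ (cx D q ((v : 𝓞 K) * a)).X) :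
    ((v⁻¹ : (𝓞 K)ˣ) : 𝓞 K) * x ∈ (cx D q a).X := by
  have h1 : x - v * a ∈ q * D.I := hx
  show ((v⁻¹ : (𝓞 K)ˣ) : 𝓞 K) * x - a ∈ q * D.I
  have h2 : ((v⁻¹ : (𝓞 K)ˣ) : 𝓞 K) * x - a = ((v⁻¹ : (𝓞 K)ˣ) : 𝓞 K) * (x - v * a) := by
    rw [mul_sub, ← mul_assoc, v.inv_mul, one_mul]
  rw [h2]
  exact Ideal.mul_mem_left _ _ h1

/-- Multiplication by v from the class of a to the class of v a. -/
noncomputable def w2_equiv (D : Ctx F K m) (q : Ideal (𝓞 K)) (v : (𝓞 K)ˣ) (a : 𝓞 K) :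
    (cx D q a).X ≃ (cx D q ((v : 𝓞 K) * a)).X where
  toFun x := ⟨v * x, w2_mem D q v a x.2⟩
  invFun x := ⟨((v⁻¹ : (𝓞 K)ˣ) : 𝓞 K) * x, w2_mem' D q v a x.2⟩
  left_inv x := by
    apply Subtype.ext
    show ((v⁻¹ : (𝓞 K)ˣ) : 𝓞 K) * (v * x) = x
    rw [← mul_assoc, v.inv_mul, one_mul]
  right_inv x := by
    apply Subtype.ext
    show (v : 𝓞 K) * (((v⁻¹ : (𝓞 K)ˣ) : 𝓞 K) * x) = x
    rw [← mul_assoc, v.mul_inv, one_mul]

theorem mv_reg (D : Ctx F K m) (q : Ideal (𝓞 K)) (v : (𝓞 K)ˣ) (a : 𝓞 K) {h : 𝓞 K → ℂ} {S : ℂ}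
    (hS : (cx D q ((v : 𝓞 K) * a)).HasReg h S) : (cx D q a).HasReg (fun x => h (v * x)) S := by
  obtain ⟨⟨C, hC⟩, hB⟩ := hS
  refine ⟨⟨C, fun x hx => hC _ (w2_mem D q v a hx)⟩, fun B hdet => ?_⟩
  have hd : (B * Matrix.diagonal fun j => (D.σ j ((v : 𝓞 K) : K))⁻¹).det ≠ 0 := by
    rw [Matrix.det_mul, Matrix.det_diagonal]
    exact mul_ne_zero hdet (Finset.prod_ne_zero_iff.2 fun j _ => inv_ne_zero (R5_ne D v j))
  have h1 := hB _ hd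
  refine h1.congr fun R => ?_
  rw [← (w2_equiv D q v a).tsum_eq]
  refine tsum_congr fun x => ?_
  have e1 : (cx D q ((v : 𝓞 K) * a)).g (v * x) = (cx D q a).g x := R5_g (cx D q a) v x
  have e2 : (cx D q ((v : 𝓞 K) * a)).cut (B * Matrix.diagonal fun j => (D.σ j ((v : 𝓞 K) : K))⁻¹) R (v * x) =
      (cx D q a).cut B R x := R5_cut (cx D q a) v B R x
  show (cx D q ((v : 𝓞 K) * a)).g (v * x) * h (v * x) *
    ((cx D q ((v : 𝓞 K) * a)).cut (B * Matrix.diagonal fun j => (D.σ j ((v : 𝓞 K) : K))⁻¹) R (v * x) : ℂ) = _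
  rw [e1, e2]

theorem w2_iff (D : Ctx F K m) (q : Ideal (𝓞 K)) (v : (𝓞 K)ˣ) (hN : ∏ i, D.σ i ((v : 𝓞 K) : K) = 1) (a : 𝓞 K)
    (L : Fin (m + 1) → Lab K m) (S : ℂ) :
    (cx D q a).HasReg ((cx D q a).Idet fun j => D.act v (L j)) S ↔
      (cx D q ((v : 𝓞 K) * a)).HasReg ((cx D q ((v : 𝓞 K) * a)).Idet L) S := by
  have h1 : ((cx D q a).Idet fun j => D.act v (L j)) = fun x => (cx D q ((v : 𝓞 K) * a)).Idet L (v * x) :=
    funext fun x => R5_Idet (cx D q a) v hN L x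
  rw [h1]
  constructor
  · intro h
    have e : ((v⁻¹ : (𝓞 K)ˣ) : 𝓞 K) * ((v : 𝓞 K) * a) = a := by rw [← mul_assoc, v.inv_mul, one_mul]
    have h2 := mv_reg D q v⁻¹ ((v : 𝓞 K) * a) (h := fun x => (cx D q ((v : 𝓞 K) * a)).Idet L (v * x)) (S := S)
      (by rw [e]; exact h)
    have h3 : (fun x : 𝓞 K => (cx D q ((v : 𝓞 K) * a)).Idet L (v * (((v⁻¹ : (𝓞 K)ˣ) : 𝓞 K) * x))) =
        (cx D q ((v : 𝓞 K) * a)).Idet L := by
      funext x
      rw [← mul_assoc, v.mul_inv, one_mul]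
    rwa [h3] at h2
  · exact fun h => mv_reg D q v a h

theorem mv_Jv (D : Ctx F K m) (q : Ideal (𝓞 K)) (v : (𝓞 K)ˣ) (hN : ∏ i, D.σ i ((v : 𝓞 K) : K) = 1) (a : 𝓞 K)
    (L : Fin (m + 1) → Lab K m) : (cx D q a).Jv (fun j => D.act v (L j)) = (cx D q ((v : 𝓞 K) * a)).Jv L := by
  by_cases h : ∃ S, (cx D q ((v : 𝓞 K) * a)).HasReg ((cx D q ((v : 𝓞 K) * a)).Idet L) S
  · obtain ⟨S, hS⟩ := h
    rw [Jv_eq _ hS, Jv_eq _ ((w2_iff D q v hN a L S).2 hS)]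
  · have h' : ¬ ∃ S, (cx D q a).HasReg ((cx D q a).Idet fun j => D.act v (L j)) S :=
      fun ⟨S, hS⟩ => h ⟨S, (w2_iff D q v hN a L S).1 hS⟩
    unfold H55P.Ctx.Jv
    rw [dif_neg h, dif_neg h']

end SSG.E
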