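import Mathlib
import Pool.Agent.Lib.SSG.E.W1
import Pool.Agent.Lib.SSG.E.W2

open NumberField IsDedekindDomain

namespace SSG.E

open H55N H55P

variable {F : Type} [Field F] [NumberField F] [IQ F] {K : Type} [Field K] [NumberField K]
  [Algebra F K] {m : ℕ}

/-! Chunk W3 (M). Jw is invariant under the units. v = uu u z. By mv_Jv the left side is the sum over a in R of φ(a) (cx D q (v a)).Jv L. For a in R let s(a) be the element of R with v a - s(a) in q I (v a is in X: uu_act D u hu z and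
R5_memX; Rp.ex). By cx_Jv the a-term is φ(a) (cx D q (s a)).Jv L, and φ(s a) = φ(v a) = φ(a) (Wt.per, Wt.inv). s : R -> R is injective: s a = s b gives v (a - b) in q I, so a - b in q I (multiply by v^-1), so a = b by uniqueness in Rp.ex for a;
R is finite, so s is a bijection of R (Finset.sum_bij / Finset.sum_nbij with surjectivity from Finset.surj_on_of_inj_on_of_card_le or Finset.map_eq_of_subset). -/

theorem w3_uniq {D : Ctx F K m} {q : Ideal (𝓞 K)} {R : Finset (𝓞 K)} (hR : Rp D q R) {a b : 𝓞 K} (ha : a ∈ R) (hb : b ∈ R)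
    (h : a - b ∈ q * D.I) : a = b := by
  obtain ⟨c, _, hc⟩ := hR.ex a (hR.sub a ha)
  have h0 : a - a ∈ q * D.I := by
    rw [sub_self]
    exact (q * D.I).zero_mem
  exact (hc a ⟨ha, h0⟩).trans (hc b ⟨hb, h⟩).symm

theorem w3_sel {D : Ctx F K m} {q : Ideal (𝓞 K)} {R : Finset (𝓞 K)} (hR : Rp D q R) (v : (𝓞 K)ˣ)
    (hv : ((v : 𝓞 K) - 1) * D.c₀ ∈ D.I) (a : 𝓞 K) (ha : a ∈ R) : ∃ s, s ∈ R ∧ (v : 𝓞 K) * a - s ∈ q * D.I :=
  (hR.ex _ (R5_memX D v hv (hR.sub a ha))).exists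

theorem w3_inv {D : Ctx F K m} {q : Ideal (𝓞 K)} (v w : (𝓞 K)ˣ) (hvw : (w : 𝓞 K) * v = 1) {a s t : 𝓞 K}
    (h1 : (v : 𝓞 K) * a - s ∈ q * D.I) (h2 : (w : 𝓞 K) * s - t ∈ q * D.I) : t - a ∈ q * D.I := by
  have e : t - a = -((w : 𝓞 K) * ((v : 𝓞 K) * a - s)) - ((w : 𝓞 K) * s - t) := by
    linear_combination a * hvw
  rw [e]
  exact (q * D.I).sub_mem ((q * D.I).neg_mem ((q * D.I).mul_mem_left _ h1)) h2

theorem Jw_act (D : Ctx F K m) (u : Fin m → (𝓞 K)ˣ) (hu : D.UOk u) (q : Ideal (𝓞 K)) (R : Finset (𝓞 K)) (hR : Rp D q R)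
    (φ : 𝓞 K → ℂ) (hφ : Wt D q u φ) (z : Fin m → ℤ) (L : Fin (m + 1) → Lab K m) :
    Jw D q R φ (fun j => D.act (uu u z) (L j)) = Jw D q R φ L := by
  classical
  obtain ⟨hv, hN, -⟩ := uu_act D u hu z
  have hv' := R5_inv D (uu u z) hv
  unfold Jw
  choose s hs using w3_sel hR (uu u z) hv
  choose t ht using w3_sel hR (uu u z)⁻¹ hv'
  refine Finset.sum_bij' s t (fun a ha => (hs a ha).1) (fun a ha => (ht a ha).1) (fun a ha => ?_) (fun a ha => ?_) (fun a ha => ?_)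
  · exact w3_uniq hR (ht _ (hs a ha).1).1 ha (w3_inv (uu u z) (uu u z)⁻¹ (uu u z).inv_mul (hs a ha).2 (ht _ (hs a ha).1).2)
  · exact w3_uniq hR (hs _ (ht a ha).1).1 ha (w3_inv (uu u z)⁻¹ (uu u z) (uu u z).mul_inv (ht a ha).2 (hs _ (ht a ha).1).2)
  · have h1 := hs a ha
    rw [mv_Jv D q (uu u z) hN a L, cx_Jv D q h1.2 L, ← hφ.per _ (R5_memX D (uu u z) hv (hR.sub a ha)) _ h1.2,
      hφ.inv a (hR.sub a ha) z]

end SSG.E
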