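import Mathlib
import Pool.Agent.Lib.SSG.E.D
import Pool.Agent.Lib.H55P.R7

open NumberField IsDedekindDomain

namespace SSG.E

open H55N H55P

variable {F : Type} [Field F] [NumberField F] [IQ F] {K : Type} [Field K] [NumberField K]
  [Algebra F K] {m : ℕ}

/-! Chunk W4 (S). The cocycle identity and the degenerate simplices for Jw: both are linear, from prism_cocycle and Jv_degenerate for each context cx D q a (cx_ok). (Interchange the two sums: Finset.sum_comm, Finset.mul_sum.) -/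

theorem Jw_prism {V : Type} (D : Ctx F K m) (hD : D.Ok) (q : Ideal (𝓞 K)) (R : Finset (𝓞 K)) (hR : Rp D q R) (φ : 𝓞 K → ℂ)
    (A : Fin (m + 1) → K) (w : Fin (m + 1) × Fin 2 → 𝓞 K) (hdir : ∀ a ∈ R, (cx D q a).Dirs A w) (L L' : V → Lab K m) (v : ℕ → V)
    (hL : ∀ k : Fin (m + 1), L (v k) = .A (A k) ∨ ∃ t, L (v k) = .T t ∧ ∀ i, 0 < t i)
    (hL' : ∀ k ≤ m, ∃ t, L' (v k) = .T t ∧ ∀ i, 0 < t i) (i : ℕ) (hi : i ≤ m) :
    ∑ j : Fin (m + 2), (-1) ^ (j : ℕ) * Jw D q R φ (fun k : Fin (m + 1) =>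
      prism L L' v i (j.succAbove k : Fin (m + 2))) = 0 := by
  have h1 : ∀ a ∈ R, ∑ j : Fin (m + 2), (-1) ^ (j : ℕ) * (cx D q a).Jv (fun k : Fin (m + 1) =>
      prism L L' v i (j.succAbove k : Fin (m + 2))) = 0 := fun a ha =>
    H55P.prism_cocycle (cx D q a) (cx_ok D hD q (hR.sub a ha)) A w (hdir a ha) L L' v hL hL' i hi
  unfold Jw
  simp only [Finset.mul_sum]
  rw [Finset.sum_comm]
  apply Finset.sum_eq_zero
  intro a ha
  have h2 : ∀ j : Fin (m + 2), (-1) ^ (j : ℕ) * (φ a * (cx D q a).Jv (fun k : Fin (m + 1) =>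
      prism L L' v i (j.succAbove k : Fin (m + 2))))
      = φ a * ((-1) ^ (j : ℕ) * (cx D q a).Jv (fun k : Fin (m + 1) =>
      prism L L' v i (j.succAbove k : Fin (m + 2)))) := fun j => by ring
  rw [Finset.sum_congr rfl (fun j _ => h2 j), ← Finset.mul_sum, h1 a ha, mul_zero]

theorem Jw_degenerate (D : Ctx F K m) (q : Ideal (𝓞 K)) (R : Finset (𝓞 K)) (φ : 𝓞 K → ℂ)
    (L : Fin (m + 1) → Lab K m) (h : ∃ j : Fin m, L j.castSucc = L j.succ) : Jw D q R φ L = 0 := by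
  unfold Jw
  apply Finset.sum_eq_zero
  intro a _
  rw [H55P.Jv_degenerate (cx D q a) L h, mul_zero]

end SSG.E
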