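import Mathlib
import Pool.Agent.Lib.SSG.E.W3
import Pool.Agent.Lib.SSG.E.W4
import Pool.Agent.Lib.H55P.CN

open NumberField IsDedekindDomain MeasureTheory

namespace SSG.E

open H55N H55P

variable {F : Type} [Field F] [NumberField F] [IQ F] {K : Type} [Field K] [NumberField K]
  [Algebra F K] {m : ℕ}

/-! Chunk W5 (M). The value of the alternating sum. COPY of CN_value (Lib/H55P/CN.lean) with D.Jv replaced by Jw D q R φ: hJ is Jw_act; the two cocycle identities are Jw_prism; degenerate simplices: Jw_degenerate;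
reg_T for each class (cx D q a): the T-labels give det * sum over R of φ a * (cx D q a).Bv w G t; riemann with B t = sum over a in R of φ a * (cx D q a).Bv w G t (ContinuousOn: finite sum of Bv_cont for each a). Z1_Lin, Z1_Fl, Z1_Lin_add, Z1_Fl_add
of CN.lean are used for D itself. -/

theorem CNw_value (D : Ctx F K m) (hD : D.Ok) (u : Fin m → (𝓞 K)ˣ) (hu : D.UOk u) (q : Ideal (𝓞 K)) (R : Finset (𝓞 K))
    (hR : Rp D q R) (φ : 𝓞 K → ℂ) (hφ : Wt D q u φ)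
    (A : Fin (m + 1) → K) (w : Fin (m + 1) × Fin 2 → 𝓞 K) (hdir : ∀ a ∈ R, (cx D q a).Dirs A w) (G : 𝓞 K → ℂ)
    (hG : ∀ a ∈ R, (cx D q a).GSpec w G) (L : (Fin m → ℤ) → K)
    (hequi : ∀ a z : Fin m → ℤ, L (a + ((m + 1 : ℕ) : ℤ) • z) = ((uu u z : 𝓞 K) : K) * L a)
    (hdirs : ∀ (a : Fin m → Fin (m + 1)) (π : Equiv.Perm (Fin m)),
      ∃ w', ∀ r ∈ R, (cx D q r).Dirs (fun k : Fin (m + 1) => L (kv (fun k => ((a k : ℕ) : ℤ)) π k)) w') :
    CN (m + 1) (Jw D q R φ) (fun a => .A (L a)) = (m.factorial : ℂ) * ((Delta (D.lm u) : ℝ) : ℂ) *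
      ∫ z in Set.Icc (0 : Fin m → ℝ) 1, ∑ a ∈ R, φ a * (cx D q a).Bv w G (fun _ => tt (D.lm u) z) := by
  have hJ : ∀ (z : Fin m → ℤ) (l : Fin (m + 1) → Lab K m),
      Jw D q R φ (fun j => D.act (uu u z) (l j)) = Jw D q R φ l := fun z l =>
    Jw_act D u hu q R hR φ hφ z l
  have h1 : CN (m + 1) (Jw D q R φ) (fun a => .A (L a)) =
      CN (m + 1) (Jw D q R φ) (Z1_Lin D u (m + 1)) := by
    refine CN_eq (m + 1) (Nat.succ_pos m) (Jw D q R φ) (fun a => .A (L a)) (Z1_Lin D u (m + 1))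
      (fun z => D.act (uu u z)) hJ ?_ (fun a z => Z1_Lin_add D u hu (m + 1) (Nat.succ_pos m) a z) ?_
    · intro a z
      show Lab.A (L (a + ((m + 1 : ℕ) : ℤ) • z)) = Lab.A (((uu u z : 𝓞 K) : K) * L a)
      rw [hequi]
    · intro a π i hi
      obtain ⟨w', hw'⟩ := hdirs a π
      exact Jw_prism D hD q R hR φ _ w' hw' (fun a => .A (L a)) (Z1_Lin D u (m + 1)) _
        (fun k => Or.inl rfl) (fun k _ => ⟨_, rfl, Z1_tt_pos _ _⟩) i hi
  have h2 : ∀ N : ℕ, 0 < N → CN N (Jw D q R φ) (Z1_Lin D u N) = CN 1 (Jw D q R φ) (Z1_Fl D u) := by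
    intro N hN
    rw [← CN_floor N hN (Jw D q R φ) (Jw_degenerate D q R φ) (Z1_Fl D u)]
    refine CN_eq N hN (Jw D q R φ) (Z1_Lin D u N) (fun a => Z1_Fl D u fun k => a k / (N : ℤ))
      (fun z => D.act (uu u z)) hJ (fun a z => Z1_Lin_add D u hu N hN a z)
      (fun a z => Z1_Fl_add D u hu N hN a z) ?_
    intro a π i hi
    exact Jw_prism D hD q R hR φ A w hdir (Z1_Lin D u N) (fun a => Z1_Fl D u fun k => a k / (N : ℤ)) _
      (fun k => Or.inr ⟨_, rfl, Z1_tt_pos _ _⟩) (fun k _ => ⟨_, rfl, Z1_tt_pos _ _⟩) i hi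
  rw [h1, h2 _ (Nat.succ_pos m)]
  have hB : ContinuousOn (fun t : Fin (m + 1) → Fin (m + 1) → ℝ =>
      ∑ a ∈ R, φ a * (cx D q a).Bv w G t) {t | ∀ j i, 0 < t j i} :=
    continuousOn_finsetSum R fun a ha => continuousOn_const.mul
      (Bv_cont (cx D q a) (cx_ok D hD q (hR.sub a ha)) A w (hdir a ha) G (hG a ha))
  have h3 := riemann m (D.lm u) (lm_sum D u hu)
    (fun t => ∑ a ∈ R, φ a * (cx D q a).Bv w G t) hB
  refine tendsto_nhds_unique ?_ h3
  refine (tendsto_const_nhds (x := CN 1 (Jw D q R φ) (Z1_Fl D u))).congr' ?_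
  filter_upwards [Filter.eventually_gt_atTop 0] with N hN
  rw [← h2 N hN]
  unfold CN
  refine Finset.sum_congr rfl fun a _ => Finset.sum_congr rfl fun π _ => ?_
  congr 1
  unfold Jw
  rw [Finset.mul_sum]
  refine Finset.sum_congr rfl fun r hr => ?_
  have h4 := reg_T (cx D q r) (cx_ok D hD q (hR.sub r hr)) A w (hdir r hr) G (hG r hr)
    (fun j => tt (D.lm u) (fun k => (kv (fun k => ((a k : ℕ) : ℤ)) π j k : ℝ) / N))
    fun j i => Z1_tt_pos _ _ _
  have h5 : (cx D q r).Jv (fun j => Z1_Lin D u N (kv (fun k => ((a k : ℕ) : ℤ)) π j)) =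
      ((Matrix.det (Matrix.of fun j i : Fin (m + 1) =>
        tt (D.lm u) (fun k => (kv (fun k => ((a k : ℕ) : ℤ)) π j k : ℝ) / N) i) : ℝ) : ℂ) *
      (cx D q r).Bv w G (fun j => tt (D.lm u) (fun k => (kv (fun k => ((a k : ℕ) : ℤ)) π j k : ℝ) / N)) := h4
  rw [h5]
  ring

end SSG.E
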