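import Mathlib
import Pool.Agent.Lib.SSG.E.D
import Pool.Agent.Lib.H55P.U5

open NumberField IsDedekindDomain MeasureTheory

namespace SSG.E

open H55N H55P

variable {F : Type} [Field F] [NumberField F] [IQ F] {K : Type} [Field K] [NumberField K]
  [Algebra F K] {m : ℕ}

/-! Chunk W6 (M). Sums over X as sums over the classes: X is the disjoint union of the sets (cx D q a).X, a in R (cx_mem, Rp.ex), and φ is constant on each (Wt.per). Use Summable on X (norm), the equivalence of X with the sigma type over R of (cx D q a).X (or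
HasSum.sum over the indicator functions of the classes: hasSum_sum, Function.Injective.hasSum_iff), tsum_congr. -/

theorem w6_aux {α : Type*} (S T : Set α) (h : S ⊆ T) (f : α → ℝ) (hf : Summable fun x : T => f x) :
    Summable fun x : S => f x := hf.comp_injective (Set.inclusion_injective h)

theorem w6_summable (D : Ctx F K m) (q : Ideal (𝓞 K)) {a : 𝓞 K} (ha : a ∈ D.X) (f : 𝓞 K → ℂ)
    (hf : Summable fun x : D.X => ‖f x‖) : Summable fun x : (cx D q a).X => ‖f x‖ := by
  have h1 : (cx D q a).X ⊆ D.X := fun x hx => cx_mem D q ha hx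
  have h2 : Summable fun x : (cx D q a).X => (fun y => ‖f y‖) x :=
    w6_aux (cx D q a).X D.X h1 (fun y => ‖f y‖) hf
  exact h2

theorem sum_classes (D : Ctx F K m) (u : Fin m → (𝓞 K)ˣ) (q : Ideal (𝓞 K)) (R : Finset (𝓞 K)) (hR : Rp D q R) (φ : 𝓞 K → ℂ)
    (hφ : Wt D q u φ) (f : 𝓞 K → ℂ) (hf : Summable fun x : D.X => ‖f x‖) :
    ∑' x : D.X, φ x * f x = ∑ a ∈ R, φ a * ∑' x : (cx D q a).X, f x := by
  have hsub : ∀ a ∈ R, ∀ x, x ∈ (cx D q a).X → x ∈ D.X := fun a ha x hx =>
    cx_mem D q (hR.sub a ha) hx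
  have h1 : ∑' x : D.X, φ x * f x = ∑' x : 𝓞 K, Set.indicator D.X (fun y => φ y * f y) x :=
    tsum_subtype D.X (fun y => φ y * f y)
  have h2 : ∀ x : 𝓞 K, Set.indicator D.X (fun y => φ y * f y) x =
      ∑ a ∈ R, φ a * Set.indicator (cx D q a).X f x := by
    intro x
    by_cases hx : x ∈ D.X
    · rw [Set.indicator_of_mem hx]
      obtain ⟨a, ⟨ha, hxa⟩, huniq⟩ := hR.ex x hx
      rw [Finset.sum_eq_single a]
      · have h3 : x ∈ (cx D q a).X := hxa
        rw [Set.indicator_of_mem h3, hφ.per x hx a hxa]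
      · intro b hb hba
        have h3 : x ∉ (cx D q b).X := fun h => hba (huniq b ⟨hb, h⟩)
        rw [Set.indicator_of_notMem h3, mul_zero]
      · intro h
        exact absurd ha h
    · rw [Set.indicator_of_notMem hx]
      symm
      refine Finset.sum_eq_zero fun a ha => ?_
      have h3 : x ∉ (cx D q a).X := fun h => hx (hsub a ha x h)
      rw [Set.indicator_of_notMem h3, mul_zero]
  rw [h1, tsum_congr h2]
  have hs : ∀ a ∈ R, Summable fun x : 𝓞 K => φ a * Set.indicator (cx D q a).X f x := by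
    intro a ha
    refine Summable.mul_left _ ?_
    rw [← summable_subtype_iff_indicator]
    exact (w6_summable D q (hR.sub a ha) f hf).of_norm
  rw [Summable.tsum_finsetSum hs]
  refine Finset.sum_congr rfl fun a _ => ?_
  rw [tsum_mul_left]
  congr 1
  exact (tsum_subtype (cx D q a).X f).symm

theorem sum_classes_summable (D : Ctx F K m) (q : Ideal (𝓞 K)) {a : 𝓞 K} (ha : a ∈ D.X) (f : 𝓞 K → ℂ)
    (hf : Summable fun x : D.X => ‖f x‖) : Summable fun x : (cx D q a).X => ‖f x‖ :=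
  w6_summable D q ha f hf

/-- φ is bounded on X. -/
theorem wt_bdd (D : Ctx F K m) (u : Fin m → (𝓞 K)ˣ) (q : Ideal (𝓞 K)) (R : Finset (𝓞 K)) (hR : Rp D q R) (φ : 𝓞 K → ℂ)
    (hφ : Wt D q u φ) : ∃ C : ℝ, ∀ x ∈ D.X, ‖φ x‖ ≤ C := by
  refine ⟨∑ a ∈ R, ‖φ a‖, fun x hx => ?_⟩
  obtain ⟨a, ⟨ha, hxa⟩, -⟩ := hR.ex x hx
  rw [hφ.per x hx a hxa]
  exact Finset.single_le_sum (f := fun a => ‖φ a‖) (fun _ _ => norm_nonneg _) ha

end SSG.E
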