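import Mathlib
import Pool.Agent.Lib.SSG.E.W6

open NumberField IsDedekindDomain MeasureTheory

namespace SSG.E

open H55N H55P

variable {F : Type} [Field F] [NumberField F] [IQ F] {K : Type} [Field K] [NumberField K]
  [Algebra F K] {m : ℕ}

/-! Chunk W7 (M). The weighted zeta function. COPY of zfun in Lib/H55P/U5.lean. V(s) = int over the cube of sum over a in R of φ a * (sum over (cx D q a).X of G x * Dif w univ (D.fs (tt lm z) s) x); V is analytic: it is the finite sum over R of φ a times the
integrals (the integral of a finite sum: each integrand is integrable on the cube; to avoid integrability DEFINE V(s) as the finite sum of φ a * integral, cont_analytic for cx D q a), and use unfold for D (U3.lean) with g x := φ' x * D.g x where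
φ' x = φ x for x in X and 0 otherwise (bounded by wt_bdd; invariant on X under the units: Wt.inv, R5_g, u3_mem). unfold gives the sum over T as the integral of sum over D.X of φ x * D.g x * fs; by sum_classes (summable: fs_summable and g bounded) and hG.2 for
each class this is the sum over R of φ a * sum over the class of G x * Dif. To interchange the finite sum over R and the integral at the end (value at 1 and V(s)) one needs integrability of z -> sum over the class of G Dif (fs (tt lm z) s) for Re s > 3/2 and s = 1: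
for s = 1 it is continuous in z on the compact cube (Bv_cont, pu5_fs_one); for Re s > 3/2 it is equal to the sum over the class of D.g x * fs x, which is a uniform limit (continuousOn_tsum with the bound of u3_fs_le, u3_tt, u3_sum); IntegrableOn by
ContinuousOn.integrableOn_compact, isCompact_Icc. Gamma factors: U5_gam. -/

theorem w7_tt_cont (lm : Fin (m + 1) → Fin m → ℝ) : Continuous fun z : Fin m → ℝ => tt lm z := by
  refine continuous_pi fun i => ?_
  unfold tt
  exact Real.continuous_exp.comp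
    (continuous_finsetSum _ fun j _ => (continuous_apply j).mul continuous_const)

theorem w7_fs_cont (D : Ctx F K m) (lm : Fin (m + 1) → Fin m → ℝ) (s : ℂ) (x : 𝓞 K) (hx : x ≠ 0) :
    Continuous fun z : Fin m → ℝ => D.fs (tt lm z) s x := by
  have hQ : Continuous fun z : Fin m → ℝ => D.Q (tt lm z) x := by
    unfold H55P.Ctx.Q
    exact continuous_finsetSum _ fun i _ =>
      ((continuous_apply i).comp (w7_tt_cont lm)).mul continuous_const
  unfold H55P.Ctx.fs
  refine continuous_const.mul ?_
  refine (Complex.continuous_ofReal.comp hQ).cpow continuous_const fun z => ?_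
  have h1 : 0 < D.Q (tt lm z) x := by
    unfold H55P.Ctx.Q
    exact Finset.sum_pos (fun i _ => mul_pos (Real.exp_pos _) (u3_pos D x hx i))
      Finset.univ_nonempty
  exact Or.inl h1

theorem w7_cont (D : Ctx F K m) (hD : D.Ok) (lm : Fin (m + 1) → Fin m → ℝ) (s : ℂ)
    (hs : 3 / 2 < s.re) : ContinuousOn (fun z : Fin m → ℝ => ∑' x : D.X, D.g x * D.fs (tt lm z) s x)
      (Set.Icc (0 : Fin m → ℝ) 1) := by
  obtain ⟨Cg, hCg⟩ := g_bdd D
  have hCg0 : 0 ≤ Cg := (norm_nonneg _).trans (hCg 0)
  obtain ⟨a, ha, hat⟩ := u3_tt lm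
  obtain ⟨c, hc, hQ⟩ := Q_low D hD.emb a ha
  refine continuousOn_tsum (u := fun x : D.X => Cg * (c ^ (-((m + 1 : ℕ) * s.re)) *
    D.sz (x : 𝓞 K) ^ (-((2 * s.re - 1) * (m + 1 : ℝ))))) (fun x => ?_) ?_ fun x z hz => ?_
  · exact (continuous_const.mul
      (w7_fs_cont D lm s x (D.X_ne hD.ne x.2))).continuousOn
  · exact ((u3_sum D hD.emb s hs).mul_left _).mul_left _
  · rw [norm_mul]
    refine mul_le_mul (hCg _) ?_ (norm_nonneg _) hCg0
    exact u3_fs_le D (tt lm z) s (by linarith) c hc x (hQ _ (hat z hz) x (D.X_ne hD.ne x.2))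

theorem zfunw (D : Ctx F K m) (hD : D.Ok) (u : Fin m → (𝓞 K)ˣ) (hu : D.UOk u) (q : Ideal (𝓞 K)) (R : Finset (𝓞 K))
    (hR : Rp D q R) (φ : 𝓞 K → ℂ) (hφ : Wt D q u φ)
    (A : Fin (m + 1) → K) (w : Fin (m + 1) × Fin 2 → 𝓞 K) (hdir : ∀ a ∈ R, (cx D q a).Dirs A w) (G : 𝓞 K → ℂ)
    (hG : ∀ a ∈ R, (cx D q a).GSpec w G) : ∃ Z : ℂ → ℂ, AnalyticOnNhd ℂ Z {s | 1 / 2 < s.re} ∧
      (∀ T : Set (𝓞 K), T ⊆ D.X →
        (∀ x ∈ D.X, ∃! q : (Fin m → ℤ) × T, x = (uu u q.1 : 𝓞 K) * q.2) →
        ∀ s : ℂ, 3 / 2 < s.re → HasSum (fun x : T => φ x * (D.g x * nf F s (x : 𝓞 K))) (Z s)) ∧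
      Z 1 = (m.factorial : ℂ) * ((|Delta (D.lm u)| : ℝ) : ℂ) *
        ∫ z in Set.Icc (0 : Fin m → ℝ) 1, ∑ a ∈ R, φ a * (cx D q a).Bv w G (fun _ => tt (D.lm u) z) := by
  have hok : ∀ a ∈ R, (cx D q a).Ok := fun a ha => cx_ok D hD q (hR.sub a ha)
  set V : ℂ → ℂ := fun s => ∑ a ∈ R, φ a * ∫ z in Set.Icc (0 : Fin m → ℝ) 1,
      ∑' x : (cx D q a).X, G x * Dif w Finset.univ ((cx D q a).fs (tt (D.lm u) z) s) x with hVdef
  have hcard : Fintype.card (Fin (m + 1) × Fin 2) = 2 * (m + 1) := by
    rw [Fintype.card_prod, Fintype.card_fin, Fintype.card_fin, mul_comm]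
  have hreg : 3 / 2 - (Fintype.card (Fin (m + 1) × Fin 2) : ℝ) / (2 * (m + 1)) = 1 / 2 := by
    rw [hcard]
    push_cast
    field_simp
    norm_num
  have hV : AnalyticOnNhd ℂ V {s | 1 / 2 < s.re} := by
    refine Finset.analyticOnNhd_fun_sum R fun a ha => ?_
    have h := cont_analytic (cx D q a) (hok a ha).emb (cx D q a).I le_rfl (hok a ha).ne w
      (hdir a ha).mem hcard.le G (hG a ha).1 (D.lm u)
    rw [hreg] at h
    exact analyticOnNhd_const.mul h
  obtain ⟨hA1, hA2⟩ := U5_gam D u hu V (1 / 2) (by norm_num) hV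
  refine ⟨_, hA1, ?_, ?_⟩
  · intro T hT hbij s hs
    obtain ⟨Cφ, hCφ⟩ := wt_bdd D u q R hR φ hφ
    obtain ⟨Cg, hCg⟩ := g_bdd D
    have hCg0 : 0 ≤ Cg := (norm_nonneg _).trans (hCg 0)
    have hφ' : ∀ x, ‖Set.indicator D.X φ x‖ ≤ |Cφ| := by
      intro x
      by_cases hx : x ∈ D.X
      · rw [Set.indicator_of_mem hx]
        exact (hCφ x hx).trans (le_abs_self Cφ)
      · rw [Set.indicator_of_notMem hx, norm_zero]
        exact abs_nonneg Cφ
    have hgb : ∃ C : ℝ, ∀ x, ‖Set.indicator D.X φ x * D.g x‖ ≤ C := by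
      refine ⟨|Cφ| * Cg, fun x => ?_⟩
      rw [norm_mul]
      exact mul_le_mul (hφ' x) (hCg x) (norm_nonneg _) (abs_nonneg _)
    have hgu : ∀ x ∈ D.X, ∀ z, Set.indicator D.X φ ((uu u z : 𝓞 K) * x) * D.g ((uu u z : 𝓞 K) * x) =
        Set.indicator D.X φ x * D.g x := by
      intro x hx z
      rw [Set.indicator_of_mem hx, Set.indicator_of_mem (u3_mem D u hu z x hx), hφ.inv x hx z,
        R5_g D (uu u z) x]
    obtain ⟨h1, h2⟩ := unfold D hD.emb hD.ne u hu (fun x => Set.indicator D.X φ x * D.g x) hgb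
      hgu T hT hbij s hs
    have hsum : ∀ z : Fin m → ℝ, Summable fun x : D.X => ‖D.g x * D.fs (tt (D.lm u) z) s x‖ := by
      intro z
      refine Summable.of_nonneg_of_le (fun _ => norm_nonneg _) (fun x => ?_)
        ((fs_summable D hD.emb hD.ne (tt (D.lm u) z) (fun i => Real.exp_pos _) s hs).mul_left Cg)
      rw [norm_mul]
      exact mul_le_mul_of_nonneg_right (hCg _) (norm_nonneg _)
    have hcl : ∀ a ∈ R, ∀ z : Fin m → ℝ, ∑' x : (cx D q a).X, D.g x * D.fs (tt (D.lm u) z) s x =
        ∑' x : (cx D q a).X, G x * Dif w Finset.univ ((cx D q a).fs (tt (D.lm u) z) s) x := by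
      intro a ha z
      exact (hG a ha).2 ((cx D q a).fs (tt (D.lm u) z) s)
        (fs_summable (cx D q a) (hok a ha).emb (hok a ha).ne _ (fun i => Real.exp_pos _) s hs)
    have hint : ∀ a ∈ R, IntegrableOn (fun z : Fin m → ℝ =>
        φ a * ∑' x : (cx D q a).X, G x * Dif w Finset.univ ((cx D q a).fs (tt (D.lm u) z) s) x)
        (Set.Icc (0 : Fin m → ℝ) 1) volume := by
      intro a ha
      refine ContinuousOn.integrableOn_compact isCompact_Icc ?_
      refine continuousOn_const.mul ?_
      have hc := w7_cont (cx D q a) (hok a ha) (D.lm u) s hs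
      refine hc.congr fun z _ => ?_
      exact (hcl a ha z).symm
    have h3 : (∑' x : T, Set.indicator D.X φ x * D.g x * nf F s (x : 𝓞 K)) * cst (D.lm u) s =
        V s := by
      rw [h2, hVdef]
      simp only
      have h4 : ∀ z : Fin m → ℝ, ∑' x : D.X, Set.indicator D.X φ x * D.g x *
          D.fs (tt (D.lm u) z) s x = ∑ a ∈ R, φ a * ∑' x : (cx D q a).X,
            G x * Dif w Finset.univ ((cx D q a).fs (tt (D.lm u) z) s) x := by
        intro z
        have h5 := sum_classes D u q R hR φ hφ (fun x => D.g x * D.fs (tt (D.lm u) z) s x) (hsum z)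
        rw [Finset.sum_congr rfl fun a ha => congrArg (fun y => φ a * y) (hcl a ha z).symm, ← h5]
        refine tsum_congr fun x => ?_
        rw [Set.indicator_of_mem x.2, mul_assoc]
      rw [show (∫ z in Set.Icc (0 : Fin m → ℝ) 1, ∑' x : D.X, Set.indicator D.X φ x * D.g x *
          D.fs (tt (D.lm u) z) s x) = ∫ z in Set.Icc (0 : Fin m → ℝ) 1,
            ∑ a ∈ R, φ a * ∑' x : (cx D q a).X,
            G x * Dif w Finset.univ ((cx D q a).fs (tt (D.lm u) z) s) x from
        integral_congr_ae (Filter.Eventually.of_forall h4)]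
      rw [integral_finsetSum R hint]
      exact Finset.sum_congr rfl fun a _ => integral_const_mul _ _
    have h4 := hA2 s (by linarith) _ h3
    rw [h4]
    have h5 : ∀ x : T, Set.indicator D.X φ x * D.g x * nf F s (x : 𝓞 K) =
        φ x * (D.g x * nf F s (x : 𝓞 K)) := by
      intro x
      rw [Set.indicator_of_mem (hT x.2), mul_assoc]
    have h6 := h1.of_norm.hasSum
    have h7 : HasSum (fun x : T => φ x * (D.g x * nf F s (x : 𝓞 K)))
        (∑' x : T, Set.indicator D.X φ x * D.g x * nf F s (x : 𝓞 K)) := by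
      refine h6.congr_fun ?_
      exact fun x => (h5 x).symm
    exact h7
  · have h1 : V 1 = ∫ z in Set.Icc (0 : Fin m → ℝ) 1,
        ∑ a ∈ R, φ a * (cx D q a).Bv w G (fun _ => tt (D.lm u) z) := by
      have hint : ∀ a ∈ R, IntegrableOn (fun z : Fin m → ℝ =>
          φ a * (cx D q a).Bv w G (fun _ => tt (D.lm u) z)) (Set.Icc (0 : Fin m → ℝ) 1) volume := by
        intro a ha
        refine ContinuousOn.integrableOn_compact isCompact_Icc ?_
        refine continuousOn_const.mul ?_
        have hc := Bv_cont (cx D q a) (hok a ha) A w (hdir a ha) G (hG a ha)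
        refine hc.comp (f := fun z : Fin m → ℝ => fun _ : Fin (m + 1) => tt (D.lm u) z) ?_ ?_
        · refine Continuous.continuousOn ?_
          exact continuous_pi fun _ => w7_tt_cont (D.lm u)
        · intro z _ j i
          exact Real.exp_pos _
      rw [integral_finsetSum R hint, hVdef]
      simp only
      refine Finset.sum_congr rfl fun a ha => ?_
      rw [integral_const_mul]
      congr 1
      refine integral_congr_ae (Filter.Eventually.of_forall fun z => ?_)
      show ∑' x : (cx D q a).X, _ = ∑' x : (cx D q a).X, _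
      refine tsum_congr fun x => ?_
      congr 2
      funext y
      exact pu5_fs_one (cx D q a) _ y
    show V 1 * _ * _ / _ = _
    rw [h1, mul_one, Complex.Gamma_one, one_pow, div_one]
    have h2 : Complex.Gamma ((m + 1 : ℕ) : ℂ) = (m.factorial : ℂ) := by
      have := Complex.Gamma_nat_eq_factorial m
      rw [← this]
      push_cast
      rfl
    rw [h2]
    ring

end SSG.E
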