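import Mathlib
import Pool.Agent.Lib.SSG.E.IFD
import Pool.Agent.Lib.SSG.E.W5
import Pool.Agent.Lib.SSG.E.W7
import Pool.Agent.Lib.SSG.E.W9
import Pool.Agent.Lib.SSG.E.R5
import Pool.Agent.Lib.SSG.E.R6
import Pool.Agent.Lib.H55P.Core

open NumberField IsDedekindDomain

namespace SSG.E

open H55N H55P

/-! Chunk W11 (M/L). The weighted core. COPY of core (end of Lib/H55P/Core.lean); a weight φ invariant under units and periodic modulo P I. Data as there: σ, u (units_basis), L (labels), d (directions), Bad := the same set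
plus {c | (2 : 𝓞 K) in c}; ix := (Fin m → Fin (m + 1)) × Equiv.Perm (Fin m).
For each (a, π) (A := labels L (kv a π k)): dirN_of (W9) with n = 2 P (n not in c i: c i is prime, does not contain 2 and p, P = p^N) gives DirN D l (2P) A w' (hone, hlow from labels_low); m0_exists (E9) gives M₀ prime to p with the full trace (as in pc_CN: see how pc_CN uses it; for Full D A M₀
use its conclusion); ld_exists (R6) with hPc from D.p i <> p (primes), hcop from p not dividing M₀, gives S (a,π) with S.A = A. LInt: labels_int / pl1_dual_int (label_int in L1.lean: the proof gives d = absNorm b prime to p (absNorm_cop) and an integral element d' * a; restate it).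
Weight: Wt D (span {P}) u φ from WtU (inv for all units). Rp from RpU (same statement, definitional). Value: zfunw (W7) with w = nw (2P) w' of the first simplex and G from gInt (W10) (hdir by dirN_dirs W8 for a in R), CNw_value (W5) with hdirs from dirN_dirs for every (a,π),
CN unfolded is the sum over (a,π) of sign π * Jw .., Jw = sum over R of φ a * Jv, Jv_H (R5): Jv = P^-(m+1) * H. Sign of Delta as in core (two cases): sg j = + or - sign π. prime_change as in core: divides by ν, p not dividing ν; φ x * (gw * nf) is invariant under v.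
The value for another set of representatives R: choose R by a finite set of representatives for Z, then for arbitrary R both sums agree (φ a and H a depend only on the class: cx_Jv (W1) or prove the formula directly for every R: Z is unique because it is analytic? simplest: Z does not depend on R: zfunw is an existence statement for given R;
for two sets R, R' the sums sum over R of φ a * Jv (cx a) are equal by the bijection R -> R' (class), cx_Jv and Wt.per; so fix R0 (exists: W6-type finiteness, X / P I is finite because 𝓞 K / P I is) and convert at the end). You may split this chunk into files W11A, W11B. -/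

variable {F : Type} [Field F] [NumberField F] [IQ F]

/-- Integrality of a label at p. -/
theorem w11_lint (p : ℕ) (hp : p.Prime) {K : Type} [Field K] [NumberField K] [Algebra F K] (hK : UnrP p K) (b : Ideal (𝓞 K))
    (hb : IsCoprime b (Ideal.span {(p : 𝓞 K)})) (a : K)
    (ha : ∀ x ∈ b, ∃ y : 𝓞 F, Algebra.trace F K ((x : K) * a) = algebraMap (𝓞 F) F y) : LInt p a := by
  have hN := absNorm_cop p hp b hb
  have hNb := Ideal.absNorm_mem b
  obtain ⟨N, hNdef⟩ : ∃ N : ℕ, N = Ideal.absNorm b := ⟨_, rfl⟩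
  rw [← hNdef] at hN hNb
  obtain ⟨y, hy⟩ := pl1_dual_int (K := K) ((N : K) * a) (by
    intro x
    obtain ⟨y, hy⟩ := ha (N * x) (b.mul_mem_right x hNb)
    obtain ⟨z, hz⟩ := pl1_trace_O y
    refine ⟨z, ?_⟩
    have h1 : (x : K) * ((N : K) * a) = (((N : 𝓞 K) * x : 𝓞 K) : K) * a := by
      have h4 : (((N : 𝓞 K) * x : 𝓞 K) : K) = (N : K) * (x : K) := by
        rw [← map_natCast (algebraMap (𝓞 K) K) N]
        exact map_mul (algebraMap (𝓞 K) K) _ _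
      rw [h4]
      ring
    rw [h1, ← Algebra.trace_trace (S := F), hy]
    exact hz)
  have hd := pl1_discr p hp hK
  refine ⟨(NumberField.discr K).natAbs * N, ?_, ?_⟩
  · intro h
    rcases (hp.dvd_mul).1 h with h1 | h1
    · exact hd (Int.natCast_dvd.2 h1)
    · exact hN h1
  · rcases Int.natAbs_eq (NumberField.discr K) with h4 | h4
    · refine ⟨y, ?_⟩
      rw [hy]
      have h5 : ((NumberField.discr K : ℤ) : K) = (((NumberField.discr K).natAbs : ℕ) : K) := by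
        conv_lhs => rw [h4]
        rw [Int.cast_natCast]
      rw [h5]
      push_cast
      ring
    · refine ⟨-y, ?_⟩
      have h5 : ((NumberField.discr K : ℤ) : K) = -(((NumberField.discr K).natAbs : ℕ) : K) := by
        conv_lhs => rw [h4]
        rw [Int.cast_neg, Int.cast_natCast]
      have h6 : ((-y : 𝓞 K) : K) = -(y : K) := map_neg (algebraMap (𝓞 K) K) y
      rw [h6, hy, h5]
      push_cast
      ring

/-- A finite set of representatives. -/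
theorem w11_rep {K : Type} [Field K] [NumberField K] (I : Ideal (𝓞 K)) (hI : I ≠ ⊥) (c₀ : 𝓞 K) (P : ℕ) (hP : P ≠ 0) :
    ∃ R : Finset (𝓞 K), RpU I c₀ P R := by
  classical
  have hP0 : (P : 𝓞 K) ≠ 0 := by exact_mod_cast hP
  have hJ : Ideal.span {(P : 𝓞 K)} * I ≠ ⊥ := mul_ne_zero (by simpa using hP0) hI
  have hfin : Finite (𝓞 K ⧸ (Ideal.span {(P : 𝓞 K)} * I)) := Ideal.finiteQuotientOfFreeOfNeBot _ hJ
  have hS : ((Ideal.Quotient.mk (Ideal.span {(P : 𝓞 K)} * I)) '' (XS I c₀)).Finite := Set.toFinite _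
  have hch : ∀ y : 𝓞 K ⧸ (Ideal.span {(P : 𝓞 K)} * I), ∃ x : 𝓞 K,
      y ∈ (Ideal.Quotient.mk (Ideal.span {(P : 𝓞 K)} * I)) '' (XS I c₀) → x ∈ XS I c₀ ∧ Ideal.Quotient.mk _ x = y := by
    intro y
    by_cases h : y ∈ (Ideal.Quotient.mk (Ideal.span {(P : 𝓞 K)} * I)) '' (XS I c₀)
    · obtain ⟨x, hx, hxy⟩ := h
      exact ⟨x, fun _ => ⟨hx, hxy⟩⟩
    · exact ⟨0, fun h' => absurd h' h⟩
  choose r hr using hch
  refine ⟨hS.toFinset.image r, ?_, ?_⟩
  · intro a ha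
    obtain ⟨y, hy, rfl⟩ := Finset.mem_image.1 ha
    exact (hr y ((Set.Finite.mem_toFinset hS).1 hy)).1
  · intro x hx
    have hy : Ideal.Quotient.mk _ x ∈ (Ideal.Quotient.mk (Ideal.span {(P : 𝓞 K)} * I)) '' (XS I c₀) := ⟨x, hx, rfl⟩
    refine ⟨r (Ideal.Quotient.mk _ x), ⟨Finset.mem_image.2 ⟨_, (Set.Finite.mem_toFinset hS).2 hy, rfl⟩, ?_⟩, ?_⟩
    · rw [← Ideal.Quotient.eq, (hr _ hy).2]
    · rintro a ⟨ha, hxa⟩
      obtain ⟨y, hy', rfl⟩ := Finset.mem_image.1 ha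
      have h2 := (hr y ((Set.Finite.mem_toFinset hS).1 hy')).2
      rw [← Ideal.Quotient.eq, h2] at hxa
      rw [← hxa]

/-- Sums over representatives do not depend on the representatives. -/
theorem w11_sum {K : Type} [Field K] [NumberField K] {I : Ideal (𝓞 K)} {c₀ : 𝓞 K} {P : ℕ} {R R' : Finset (𝓞 K)}
    (hR : RpU I c₀ P R) (hR' : RpU I c₀ P R') (f : 𝓞 K → ℂ)
    (hf : ∀ x ∈ XS I c₀, ∀ y ∈ XS I c₀, x - y ∈ Ideal.span {(P : 𝓞 K)} * I → f x = f y) :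
    ∑ a ∈ R, f a = ∑ a ∈ R', f a := by
  classical
  choose g hg hg' using fun x : XS I c₀ => hR'.ex x.1 x.2
  refine Finset.sum_bij (fun a ha => g ⟨a, hR.sub a ha⟩) ?_ ?_ ?_ ?_
  · intro a ha
    exact (hg ⟨a, hR.sub a ha⟩).1
  · intro a ha a' ha' h
    have h1 := (hg ⟨a, hR.sub a ha⟩).2
    have h2 := (hg ⟨a', hR.sub a' ha'⟩).2
    have h3 : a - a' ∈ Ideal.span {(P : 𝓞 K)} * I := by
      have h4 : a - a' = (a - g ⟨a, hR.sub a ha⟩) - (a' - g ⟨a', hR.sub a' ha'⟩) := by rw [h]; ring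
      rw [h4]
      exact Ideal.sub_mem _ h1 h2
    obtain ⟨t, ht, htu⟩ := hR.ex a (hR.sub a ha)
    have e1 : a = t := htu a ⟨ha, by rw [sub_self]; exact Ideal.zero_mem _⟩
    have e2 : a' = t := htu a' ⟨ha', h3⟩
    rw [e1, e2]
  · intro b hb
    obtain ⟨t, ⟨ht, hbt⟩, _⟩ := hR.ex b (hR'.sub b hb)
    refine ⟨t, ht, ?_⟩
    refine (hg' ⟨t, hR.sub t ht⟩ b ⟨hb, ?_⟩).symm
    show t - b ∈ _
    rw [← neg_sub]
    exact neg_mem hbt
  · intro a ha
    exact hf a (hR.sub a ha) _ (hR'.sub _ (hg ⟨a, hR.sub a ha⟩).1) (hg ⟨a, hR.sub a ha⟩).2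

theorem w11_prime {K : Type} [Field K] [NumberField K] {m : ℕ} {c : Fin (m + 1) × Fin 2 → Ideal (𝓞 K)} {q : Fin (m + 1) × Fin 2 → ℕ}
    (h : Smooth c q) (i : Fin (m + 1) × Fin 2) : (c i).IsPrime :=
  Ideal.isPrime_of_irreducible_absNorm (by
    rw [h.norm i]
    exact (h.prime i))

/-- (E1) The weighted core. -/
theorem corew (p : ℕ) (hp : p.Prime) {M : Ideal (𝓞 F)} {l : 𝓞 F} (hM : Mod p M l)
    (K : Type) [Field K] [NumberField K] [Algebra F K] (m : ℕ)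
    (hm : Module.finrank F K = m + 1) (hK : UnrP p K) (b f : Ideal (𝓞 K)) (hb : b ≠ ⊥)
    (hbp : IsCoprime b (Ideal.span {(p : 𝓞 K)})) (hf : f ≠ ⊥)
    (hfp : IsCoprime f (Ideal.span {(p : 𝓞 K)}))
    (c₀ : 𝓞 K) (hc : c₀ ∈ b) (hc' : c₀ ∉ Ideal.span {algebraMap (𝓞 F) (𝓞 K) l} * b) (P : ℕ) (hP : ∃ N, P = p ^ N) :
    ∃ Bad : Set (Ideal (𝓞 K)), Bad.Finite ∧
      ∀ (c : Fin (m + 1) × Fin 2 → Ideal (𝓞 K)) (q : Fin (m + 1) × Fin 2 → ℕ), Smooth c q →
        (∀ i, c i ∉ Bad) → ∃ (σ : Fin (m + 1) → K →+* ℂ) (ν : ℕ) (ix : Type) (_ : Fintype ix) (sg : ix → ℤ)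
          (S : ix → LD (⟨σ, mK K M * f * b, c₀, c, q⟩ : H55P.Ctx F K m) l P),
          Emb F σ ∧ ¬ p ∣ ν ∧ (∀ j, (S j).Ok) ∧ (∀ j k, LInt p ((S j).A k)) ∧
          ∀ φ : 𝓞 K → ℂ, WtU (mK K M * f * b) c₀ P φ → ∃ Z : ℂ → ℂ, AnalyticOnNhd ℂ Z {s | 1 / 2 < s.re} ∧
            (∀ T : Set (𝓞 K), Transv (mK K M * f) (XS (mK K M * f * b) c₀) T →
              ∀ s : ℂ, 3 / 2 < s.re → HasSum (fun x : T => φ x * (gw c q x * nf F s (x : 𝓞 K))) (Z s)) ∧
            ∀ R : Finset (𝓞 K), RpU (mK K M * f * b) c₀ P R →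
              Z 1 = (ν : ℂ)⁻¹ * ((P : ℂ)⁻¹) ^ (m + 1) * ∑ a ∈ R, φ a * ∑ j, (sg j : ℂ) * (S j).H a := by
  classical
  obtain ⟨NN, hNN⟩ := hP
  obtain ⟨σ, hσ⟩ := emb_exists (F := F) K m hm
  set J : Ideal (𝓞 K) := mK K M * f with hJdef
  set J' : Ideal (𝓞 K) := Ideal.span {(p : 𝓞 K)} * J with hJ'def
  obtain ⟨hJ0, hJ'0, hJ'J, hJM, hJ'p, hJ'l, hJ'pl⟩ := pc_J hp hM f hf J J' hJdef hJ'def
  obtain ⟨u, hu1, hu2, hu3, hu4⟩ := units_basis hm J' hJ'0
    (torsion_free p hp l hM.prime (pc_cop hM) J' hJ'p hJ'l)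
  obtain ⟨L, hL⟩ := labels_exist hm p hp l hM.prime (pc_cop hM) b hb c₀ hc hc' u
    (fun z => hJ'pl (hu2 z))
  have hle : mK K M * f * b ≤ Ideal.span {algebraMap (𝓞 F) (𝓞 K) l} * b :=
    Ideal.mul_mono_left (hJM.trans (pc_mK hM.le))
  have hI0 : mK K M * f * b ≠ ⊥ := mul_ne_zero hJ0 hb
  have hdir := fun (q : (Fin m → Fin (m + 1)) × Equiv.Perm (Fin m)) =>
    directions hm (fun k : Fin (m + 1) => L (kv (fun k => ((q.1 k : ℕ) : ℤ)) q.2 k))
      (labels_indep p hp l b c₀ u L hL _ _) (mK K M * f * b) hI0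
  choose d hd1 hd2 hd3 using hdir
  have hp0 : (p : 𝓞 K) ≠ 0 := by exact_mod_cast hp.ne_zero
  have h20 : (2 : 𝓞 K) ≠ 0 := two_ne_zero
  have hP0 : P ≠ 0 := by rw [hNN]; exact pow_ne_zero _ hp.ne_zero
  refine ⟨((⋃ q : ((Fin m → Fin (m + 1)) × Equiv.Perm (Fin m)) × Fin (m + 1),
    {c : Ideal (𝓞 K) | d q.1 q.2 ∈ c}) ∪ {c : Ideal (𝓞 K) | (p : 𝓞 K) ∈ c}) ∪ {c : Ideal (𝓞 K) | (2 : 𝓞 K) ∈ c}, ?_, ?_⟩
  · refine Set.Finite.union (Set.Finite.union (Set.finite_iUnion fun q => finite_ideals _ (hd2 _ _)) ?_) ?_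
    · exact finite_ideals _ hp0
    · exact finite_ideals _ h20
  intro c q hcq hbad
  let D : Ctx F K m := ⟨σ, mK K M * f * b, c₀, c, q⟩
  have hD : D.Ok := ⟨hσ, fun h => hc' (hle h), hcq⟩
  have h0X : (0 : 𝓞 K) ∉ D.X := fun h => D.X_ne hD.ne h rfl
  have hpc : ∀ i, (p : 𝓞 K) ∉ c i := fun i h => hbad i (Or.inl (Or.inr h))
  have h2c : ∀ i, (2 : 𝓞 K) ∉ c i := fun i h => hbad i (Or.inr h)
  have hp2 : ∀ i, D.p i ≠ p := by
    intro i hi
    apply hpc i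
    have h1 : ((Ideal.absNorm (c i) : ℕ) : 𝓞 K) ∈ c i := Ideal.absNorm_mem _
    rw [hcq.norm i] at h1
    have h2 : q i = p := hi
    rw [h2] at h1
    exact h1
  have hnc : ∀ i, ((2 * P : ℕ) : 𝓞 K) ∉ D.c i := by
    intro i h
    have hpr := w11_prime hcq i
    rw [Nat.cast_mul, hNN, Nat.cast_pow, Nat.cast_ofNat] at h
    rcases hpr.mem_or_mem h with h1 | h1
    · exact h2c i h1
    · exact hpc i (hpr.mem_of_pow_mem _ h1)
  have hPc : ∀ i, IsCoprime (P : ℤ) (D.p i : ℤ) := by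
    intro i
    rw [Nat.isCoprime_iff_coprime, hNN]
    exact Nat.Coprime.pow_left _ ((Nat.coprime_primes hp (hcq.prime i)).2 (hp2 i).symm)
  have hact : ∀ v : (𝓞 K)ˣ, (v : 𝓞 K) - 1 ∈ J → ((v : 𝓞 K) - 1) * D.c₀ ∈ D.I :=
    fun v hv => Ideal.mul_mem_mul hv hc
  have hu : D.UOk u := ⟨fun j => hact _ (hJ'J (hu1 j)),
    fun j => norm_one D hσ hM (u j) (hJM (hJ'J (hu1 j))), delta_ne D hσ u hu4⟩
  have hlow := labels_low D hσ p M l hM.prime hM.le b f c₀ ⟨rfl, rfl⟩ u L hL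
  have hdirs : ∀ j : (Fin m → Fin (m + 1)) × Equiv.Perm (Fin m),
      ∃ w', DirN D l (2 * P) (fun k : Fin (m + 1) => L (kv (fun k => ((j.1 k : ℕ) : ℤ)) j.2 k)) w' := by
    intro j
    refine dirN_of D hD l (2 * P) _ (d j) (hd1 j) ?_ hnc (hd3 j) ?_ ?_
      (labels_indep p hp l b c₀ u L hL _ _)
    · intro i k hk
      apply hbad i
      left
      left
      exact Set.mem_iUnion.2 ⟨(j, k), hk⟩
    · intro x hx k
      exact (hlow (kv (fun k => ((j.1 k : ℕ) : ℤ)) j.2 k) x hx).1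
    · intro x hx k
      exact (hlow (kv (fun k => ((j.1 k : ℕ) : ℤ)) j.2 k) x hx).2
  choose w' hw' using hdirs
  have hn : ((2 * P : ℕ) : 𝓞 K) ∈ Ideal.span {(P : 𝓞 K)} := by
    rw [Nat.cast_mul]
    exact Ideal.mul_mem_left _ _ (Ideal.mem_span_singleton_self _)
  -- the data
  have hld : ∀ j : (Fin m → Fin (m + 1)) × Equiv.Perm (Fin m), ∃ S : LD D l P, S.Ok ∧
      S.A = fun k : Fin (m + 1) => L (kv (fun k => ((j.1 k : ℕ) : ℤ)) j.2 k) := by
    intro j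
    obtain ⟨m₀, h0, hpm, hlm, hm⟩ := m0_exists D hD p hp hM b f hf hfp rfl hp2 u L hL
      (fun k => ((j.1 k : ℕ) : ℤ)) j.2
    refine ld_exists D hD l P hP0 hPc _ (w' j) (hw' j) m₀ h0 ?_ hlm hm
    rw [Nat.isCoprime_iff_coprime, hNN]
    exact Nat.Coprime.pow_left _ ((Nat.Prime.coprime_iff_not_dvd hp).2 hpm)
  choose S hS hSA using hld
  obtain ⟨G, hGp, hG⟩ := gInt D hD l (Ideal.span {(P : 𝓞 K)}) (2 * P) hn _ (w' (fun _ => 0, 1)) (hw' (fun _ => 0, 1))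
  have hJ2 : IsCoprime J (Ideal.span {(p : 𝓞 K)}) := by
    rw [hJdef]
    exact IsCoprime.mul_left (pe9_cop hM.cop) hfp
  obtain ⟨ν, hν, hT⟩ := prime_change p hp hK J J' hJ0 hJ2 hJ'def D.X h0X (by
    intro v hv x hx
    have h1 : (v : 𝓞 K) * x - D.c₀ = ((v : 𝓞 K) - 1) * D.c₀ + v * (x - D.c₀) := by ring
    rw [D.mem_X, h1]
    exact D.I.add_mem (hact v hv) (D.I.mul_mem_left _ hx))
  refine ⟨σ, ν, (Fin m → Fin (m + 1)) × Equiv.Perm (Fin m), inferInstance,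
    fun j => (if 0 ≤ Delta (D.lm u) then 1 else -1) * (Equiv.Perm.sign j.2 : ℤ), S, hσ, hν, hS, ?_, ?_⟩
  · intro j k
    rw [hSA j]
    exact w11_lint p hp hK b hbp _ (hL.int _)
  intro φ hφ
  obtain ⟨R₀, hR₀⟩ := w11_rep (mK K M * f * b) hI0 c₀ P hP0
  have hRp : Rp D (Ideal.span {(P : 𝓞 K)}) R₀ := ⟨hR₀.sub, hR₀.ex⟩
  have hWt : Wt D (Ideal.span {(P : 𝓞 K)}) u φ := ⟨hφ.per, fun x hx z => hφ.inv x hx _⟩
  have hdD : ∀ j, ∀ a ∈ R₀, (cx D (Ideal.span {(P : 𝓞 K)}) a).Dirs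
      (fun k : Fin (m + 1) => L (kv (fun k => ((j.1 k : ℕ) : ℤ)) j.2 k)) (nw (2 * P) (w' j)) :=
    fun j a ha => dirN_dirs D l _ (2 * P) hn _ (w' j) (hw' j) (hR₀.sub a ha)
  have hGR : ∀ a ∈ R₀, (cx D (Ideal.span {(P : 𝓞 K)}) a).GSpec (nw (2 * P) (w' (fun _ => 0, 1)))
      (fun x => ((G x : ℤ) : ℂ)) := fun a ha => hG a (hR₀.sub a ha)
  obtain ⟨Z, hZ1, hZ2, hZ3⟩ := zfunw D hD u hu (Ideal.span {(P : 𝓞 K)}) R₀ hRp φ hWt _ _ (hdD (fun _ => 0, 1)) _ hGR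
  have hval := CNw_value D hD u hu (Ideal.span {(P : 𝓞 K)}) R₀ hRp φ hWt _ _ (hdD (fun _ => 0, 1)) _ hGR L hL.equi
    (fun a π => ⟨_, hdD (a, π)⟩)
  -- the value functions
  have hH : ∀ j, ∀ a ∈ D.X, (cx D (Ideal.span {(P : 𝓞 K)}) a).Jv
      (fun k : Fin (m + 1) => .A (L (kv (fun k => ((j.1 k : ℕ) : ℤ)) j.2 k))) = ((P : ℂ)⁻¹) ^ (m + 1) * (S j).H a := by
    intro j a ha
    have h1 := Jv_H hP0 (S j) (hS j) hD ha
    rw [hSA j] at h1
    exact h1
  have hPC : ((P : ℂ)⁻¹) ^ (m + 1) ≠ 0 := pow_ne_zero _ (inv_ne_zero (by exact_mod_cast hP0))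
  have hHc : ∀ j, ∀ x ∈ D.X, ∀ y ∈ D.X, x - y ∈ Ideal.span {(P : 𝓞 K)} * (mK K M * f * b) → (S j).H x = (S j).H y := by
    intro j x hx y hy hxy
    have h1 := cx_Jv D (Ideal.span {(P : 𝓞 K)}) hxy
      (fun k : Fin (m + 1) => .A (L (kv (fun k => ((j.1 k : ℕ) : ℤ)) j.2 k)))
    rw [hH j x hx, hH j y hy] at h1
    exact mul_left_cancel₀ hPC h1
  have hCN : CN (m + 1) (Jw D (Ideal.span {(P : 𝓞 K)}) R₀ φ) (fun a => .A (L a)) = ((P : ℂ)⁻¹) ^ (m + 1) *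
      ∑ a ∈ R₀, φ a * ∑ j : (Fin m → Fin (m + 1)) × Equiv.Perm (Fin m), (((Equiv.Perm.sign j.2 : ℤ)) : ℂ) * (S j).H a := by
    have h1 : CN (m + 1) (Jw D (Ideal.span {(P : 𝓞 K)}) R₀ φ) (fun a => .A (L a)) =
        ∑ j : (Fin m → Fin (m + 1)) × Equiv.Perm (Fin m), ((Equiv.Perm.sign j.2 : ℤ) : ℂ) *
          ∑ a ∈ R₀, φ a * (((P : ℂ)⁻¹) ^ (m + 1) * (S j).H a) := by
      unfold CN
      rw [Fintype.sum_prod_type]
      refine Finset.sum_congr rfl fun a _ => Finset.sum_congr rfl fun π _ => ?_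
      have h3 : Jw D (Ideal.span {(P : 𝓞 K)}) R₀ φ (fun j => .A (L (kv (fun k => ((a k : ℕ) : ℤ)) π j))) =
          ∑ r ∈ R₀, φ r * (((P : ℂ)⁻¹) ^ (m + 1) * (S (a, π)).H r) := by
        unfold Jw
        refine Finset.sum_congr rfl fun r hr => ?_
        rw [← hH (a, π) r (hR₀.sub r hr)]
      exact congrArg (fun z => ((Equiv.Perm.sign π : ℤ) : ℂ) * z) h3
    rw [h1]
    simp only [Finset.mul_sum]
    rw [Finset.sum_comm]
    refine Finset.sum_congr rfl fun a _ => Finset.sum_congr rfl fun j _ => ?_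
    ring
  have hZv : Z 1 = ((P : ℂ)⁻¹) ^ (m + 1) * ∑ a ∈ R₀, φ a * ∑ j : (Fin m → Fin (m + 1)) × Equiv.Perm (Fin m),
      ((((if 0 ≤ Delta (D.lm u) then 1 else -1) * (Equiv.Perm.sign j.2 : ℤ) : ℤ)) : ℂ) * (S j).H a := by
    by_cases h : 0 ≤ Delta (D.lm u)
    · rw [hZ3, abs_of_nonneg h, ← hval, hCN]
      simp only [if_pos h, one_mul]
    · have h' : Delta (D.lm u) ≤ 0 := (not_le.1 h).le
      rw [hZ3, abs_of_nonpos h']
      have e1 : (m.factorial : ℂ) * ((-Delta (D.lm u) : ℝ) : ℂ) *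
          (∫ z in Set.Icc (0 : Fin m → ℝ) 1, ∑ a ∈ R₀, φ a * (cx D (Ideal.span {(P : 𝓞 K)}) a).Bv
            (nw (2 * P) (w' (fun _ => 0, 1))) (fun x => ((G x : ℤ) : ℂ)) (fun _ => tt (D.lm u) z)) =
          -(CN (m + 1) (Jw D (Ideal.span {(P : 𝓞 K)}) R₀ φ) (fun a => .A (L a))) := by
        rw [hval]
        push_cast
        ring
      rw [e1, hCN]
      simp only [if_neg h, neg_mul, one_mul, Int.cast_neg, Finset.sum_neg_distrib, mul_neg]
  refine ⟨fun s => Z s / ν, ?_, ?_, ?_⟩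
  · exact fun s hs => (hZ1 s hs).div_const
  · intro T hTT s hs
    obtain ⟨T', hT', hφT⟩ := hT T hTT
    refine hφT (fun x => φ x * (gw c q x * nf F s x)) (Z s) ?_ ?_
    · intro v hv x hx
      rw [pc_gw, pc_nf hσ s v (norm_one D hσ hM v (hJM hv)), hφ.inv x hx]
    · exact hZ2 T' hT'.sub (pc_bij h0X hT' u hu2 hu3) s hs
  · intro R hR
    have h1 := w11_sum hR hR₀ (fun a => φ a * ∑ j : (Fin m → Fin (m + 1)) × Equiv.Perm (Fin m),
      ((((if 0 ≤ Delta (D.lm u) then 1 else -1) * (Equiv.Perm.sign j.2 : ℤ) : ℤ)) : ℂ) * (S j).H a) (by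
        intro x hx y hy hxy
        show φ x * _ = φ y * _
        rw [hφ.per x hx y hxy]
        exact congrArg (fun z => φ y * z) (Finset.sum_congr rfl fun j _ => by rw [hHc j x hx y hy hxy]))
    show Z 1 / ν = _
    rw [hZv, ← h1]
    ring

end SSG.E
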