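import Mathlib
import Pool.Agent.Lib.SSG.E.W11
import Pool.Agent.Lib.SSG.E.E3

open NumberField IsDedekindDomain

namespace SSG.E

open H55N H55P
open H35P (WAB Ker tt)
open H55K (CMA Dta)

variable {F : Type} [Field F] [NumberField F] [IQ F]

/-! Chunk CLW (M). One class: corew (W11) and ldH_fn (E3). Bad from corew with P = p^N. val a := ν^-1 * sum over j of sg j * (S j).H a. The formula for Z 1: pull ν^-1 inside. For the second part: ldH_fn for each S j (D.Ok: σ from corew: Emb; ne: c₀ not in I because I <= (l) b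
(pc_mK) ; smooth: Smooth c q; hI: mK K M, f, b are prime to p (pe9_cop hM.cop, hfp, hbp); l prime, coprime to p: hM.prime, pc_cop hM) gives h_j, H'_j; h := ν^-1 sum sg j h_j, H' := i(ν)^-1 sum sg j H'_j; Fn is closed under sums (Q1 + Q2) and under multiplication by constants of norm <= 1
(‖i (sg j)‖ <= 1, ‖i ν‖ = 1 because p does not divide ν: LocM.val and V(ν) = 1: an integer prime to p is a unit of V). Choose functions by Classical.choose / choose. -/

section clw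

variable {p : ℕ} [Fact p.Prime] {F' : Type} [Field F'] [NumberField F']

theorem clw_mul {L : LTF F' ℂ_[p]} {N : ℕ} {ι : Type} [Fintype ι] {H : (ι → 𝓞 F') → ℂ_[p]}
    (hH : L.Fn N ι H) (c : ℂ_[p]) (hc : ‖c‖ ≤ 1) : L.Fn N ι (fun a => c * H a) := by
  intro ε hε
  obtain ⟨Q, hQ, hQ'⟩ := hH ε hε
  refine ⟨MvPolynomial.C c * Q, fun m => ?_, fun a => ?_⟩
  · rw [MvPolynomial.coeff_C_mul, norm_mul]
    exact mul_le_one₀ hc (norm_nonneg _) (hQ m)
  · rw [map_mul, MvPolynomial.eval_C, ← mul_sub, norm_mul]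
    exact (mul_le_of_le_one_left (norm_nonneg _) hc).trans (hQ' a)

theorem clw_add {L : LTF F' ℂ_[p]} {N : ℕ} {ι : Type} [Fintype ι] {H H' : (ι → 𝓞 F') → ℂ_[p]}
    (hH : L.Fn N ι H) (hH' : L.Fn N ι H') : L.Fn N ι (fun a => H a + H' a) := by
  intro ε hε
  obtain ⟨Q, hQ, hQ1⟩ := hH (ε / 2) (half_pos hε)
  obtain ⟨Q', hQ', hQ1'⟩ := hH' (ε / 2) (half_pos hε)
  refine ⟨Q + Q', fun m => ?_, fun a => ?_⟩
  · rw [MvPolynomial.coeff_add]
    exact (PadicComplex.isNonarchimedean p _ _).trans (max_le (hQ m) (hQ' m))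
  · rw [map_add, add_sub_add_comm]
    have h1 := norm_add_le (H a - MvPolynomial.eval (fun i => L.X N (a i)) Q)
      (H' a - MvPolynomial.eval (fun i => L.X N (a i)) Q')
    have h2 := hQ1 a
    have h3 := hQ1' a
    linarith

theorem clw_sum {L : LTF F' ℂ_[p]} {N : ℕ} {ι : Type} [Fintype ι] {κ : Type} (s : Finset κ)
    (H : κ → (ι → 𝓞 F') → ℂ_[p]) (hH : ∀ k, L.Fn N ι (H k)) :
    L.Fn N ι (fun a => ∑ k ∈ s, H k a) := by
  classical
  induction s using Finset.induction_on with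
  | empty =>
    intro ε hε
    refine ⟨0, fun m => ?_, fun a => ?_⟩
    · rw [MvPolynomial.coeff_zero, norm_zero]
      exact zero_le_one
    · simp only [Finset.sum_empty, map_zero, sub_zero, norm_zero]
      exact hε.le
  | insert k s hk ih =>
    have h1 : (fun a => ∑ x ∈ insert k s, H x a) = fun a => H k a + ∑ x ∈ s, H x a := by
      funext a
      rw [Finset.sum_insert hk]
    rw [h1]
    exact clw_add (hH k) ih

theorem clw_val {Ω : Type} [Field Ω] (V : ValuationSubring Ω) (hV : V.valuation (p : Ω) < 1) (n : ℕ)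
    (hn : ¬ p ∣ n) : (n : Ω)⁻¹ ∈ V := by
  have hp : p.Prime := Fact.out
  have hint : ∀ k : ℤ, V.valuation (k : Ω) ≤ 1 := fun k => by
    have h := V.valuation_le_one (k : V)
    exact_mod_cast h
  have h1 : IsCoprime (n : ℤ) (p : ℤ) := Nat.isCoprime_iff_coprime.2
    (((Nat.Prime.coprime_iff_not_dvd hp).2 hn).symm)
  obtain ⟨a, b, h⟩ := h1
  have h5 : V.valuation (n : Ω) = 1 := by
    refine le_antisymm (by exact_mod_cast hint n) ?_
    by_contra hcon
    push Not at hcon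
    have h2 : (1 : Ω) = (a : Ω) * (n : Ω) + (b : Ω) * (p : Ω) := by
      have h0 := congrArg (Int.cast : ℤ → Ω) h.symm
      push_cast at h0
      exact h0
    have h3 : V.valuation ((a : Ω) * (n : Ω)) < 1 := by
      rw [map_mul]
      exact mul_lt_one_of_nonneg_of_lt_one_right (hint a) (zero_le) hcon
    have h4 : V.valuation ((b : Ω) * (p : Ω)) < 1 := by
      rw [map_mul]
      exact mul_lt_one_of_nonneg_of_lt_one_right (hint b) (zero_le) hV
    have h6 := V.valuation.map_add_lt h3 h4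
    rw [← h2, map_one] at h6
    exact lt_irrefl _ h6
  rw [← ValuationSubring.valuation_le_one_iff, map_inv₀, h5, inv_one]

end clw

/-- (E1) + (E3): one class. `val a` is the value of the class of a: the smoothed series with the weight φ has the value P^(-g) sum φ(a) val(a) at 1, and
val(a)/Om^g is a uniform limit of integral polynomials in the Lubin-Tate coordinates of a. -/
theorem classw (p : ℕ) [Fact p.Prime] {M : Ideal (𝓞 F)} {l : 𝓞 F} (hM : Mod p M l)
    (K : Type) [Field K] [NumberField K] [Algebra F K] (m : ℕ)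
    (hm : Module.finrank F K = m + 1) (hK : UnrP p K) (b f : Ideal (𝓞 K)) (hb : b ≠ ⊥)
    (hbp : IsCoprime b (Ideal.span {(p : 𝓞 K)})) (hf : f ≠ ⊥)
    (hfp : IsCoprime f (Ideal.span {(p : 𝓞 K)}))
    (c₀ : 𝓞 K) (hc : c₀ ∈ b) (hc' : c₀ ∉ Ideal.span {algebraMap (𝓞 F) (𝓞 K) l} * b) (N : ℕ) (hN : 1 ≤ N) :
    ∃ Bad : Set (Ideal (𝓞 K)), Bad.Finite ∧
      ∀ (c : Fin (m + 1) × Fin 2 → Ideal (𝓞 K)) (q : Fin (m + 1) × Fin 2 → ℕ), Smooth c q →
        (∀ i, c i ∉ Bad) → ∃ val : 𝓞 K → ℂ,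
          (∀ φ : 𝓞 K → ℂ, WtU (mK K M * f * b) c₀ (p ^ N) φ → ∃ Z : ℂ → ℂ, AnalyticOnNhd ℂ Z {s | 1 / 2 < s.re} ∧
            (∀ T : Set (𝓞 K), Transv (mK K M * f) (XS (mK K M * f * b) c₀) T →
              ∀ s : ℂ, 3 / 2 < s.re → HasSum (fun x : T => φ x * (gw c q x * nf F s (x : 𝓞 K))) (Z s)) ∧
            ∀ R : Finset (𝓞 K), RpU (mK K M * f * b) c₀ (p ^ N) R →
              Z 1 = (((p : ℂ) ^ N)⁻¹) ^ (m + 1) * ∑ a ∈ R, φ a * val a) ∧
          ∀ (A B : F) (Om : ℂ) (Ω : Type) [Field Ω] [DecidableEq Ω] [Algebra F Ω] [IsAlgClosure F Ω] (j : Ω →+* ℂ)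
            (act : 𝓞 F →+* AddMonoid.End (Pt (WAB A B) Ω)) (mm : Ideal (𝓞 F)) (ψ : Ideal (𝓞 F) →*₀ 𝓞 F),
            Dta A B Om j act mm ψ p → (Ideal.span {(p : 𝓞 F)}).IsPrime →
            ∀ (V : ValuationSubring Ω) (i : Ω →+* ℂ_[p]) (T : ℕ → Pt (WAB A B) Ω) (L : LTF F ℂ_[p]),
              V.valuation (p : Ω) < 1 → LocM A B Om j act p V i T L →
            ∀ (v : Fin (m + 1) → HeightOneSpectrum (𝓞 K)) (r : Fin (m + 1) → 𝓞 K →+* RN F p N), Crd p N v r →
            ∃ (h : 𝓞 K → Ω) (H' : (Fin (m + 1) → 𝓞 F) → ℂ_[p]),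
              (∀ a ∈ XS (mK K M * f * b) c₀, j (h a) = val a / Om ^ (m + 1)) ∧
              L.Fn N (Fin (m + 1)) H' ∧ ∀ a ∈ XS (mK K M * f * b) c₀, i (h a) = H' (cr r a) := by
  classical
  have hp : p.Prime := Fact.out
  obtain ⟨Bad, hBad, hcore⟩ :=
    corew p hp hM K m hm hK b f hb hbp hf hfp c₀ hc hc' (p ^ N) ⟨N, rfl⟩
  refine ⟨Bad, hBad, fun c q hs hbad => ?_⟩
  obtain ⟨σ, ν, ix, hix, sg, S, hσ, hν, hS, hA, hZ⟩ := hcore c q hs hbad
  refine ⟨fun a => (ν : ℂ)⁻¹ * ∑ jx, (sg jx : ℂ) * (S jx).H a, ?_, ?_⟩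
  · intro φ hφ
    obtain ⟨Z, h1, h2, h3⟩ := hZ φ hφ
    refine ⟨Z, h1, h2, fun R hR => ?_⟩
    rw [h3 R hR, Finset.mul_sum, Finset.mul_sum]
    refine Finset.sum_congr rfl fun a _ => ?_
    push_cast
    ring
  · intro A B Om Ω _ _ _ _ j act mm ψ hd hin V i T L hV hL v r hr
    have hle : mK K M * f * b ≤ Ideal.span {algebraMap (𝓞 F) (𝓞 K) l} * b :=
      Ideal.mul_mono_left (Ideal.mul_le_left.trans (pc_mK hM.le))
    have hD : (⟨σ, mK K M * f * b, c₀, c, q⟩ : H55P.Ctx F K m).Ok := ⟨hσ, fun h => hc' (hle h), hs⟩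
    have hI : IsCoprime (mK K M * f * b) (Ideal.span {(p : 𝓞 K)}) :=
      IsCoprime.mul_left (IsCoprime.mul_left (pe9_cop hM.cop) hfp) hbp
    have hk := fun jx => ldH_fn hd hin V hV i T L hL v r hr hM.prime (pc_cop hM)
      (⟨σ, mK K M * f * b, c₀, c, q⟩ : H55P.Ctx F K m) hD hI (S jx) (hS jx) (hA jx) hN
    choose h H' h1 h2 h3 using hk
    refine ⟨fun a => (ν : Ω)⁻¹ * ∑ jx, (sg jx : Ω) * h jx a,
      fun a => i ((ν : Ω)⁻¹) * ∑ jx, i (sg jx : Ω) * H' jx a, ?_, ?_, ?_⟩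
    · intro a ha
      have e1 : ∀ jx, j (h jx a) = (S jx).H a / Om ^ (m + 1) := fun jx => h1 jx a ha
      rw [map_mul, map_inv₀, map_natCast, map_sum, mul_div_assoc, Finset.sum_div]
      congr 1
      refine Finset.sum_congr rfl fun jx _ => ?_
      rw [map_mul, map_intCast, e1, mul_div_assoc]
    · refine clw_mul (clw_sum _ _ fun jx => clw_mul (h2 jx) _ ?_) _ ?_
      · exact (hL.val _).1 (intCast_mem V.toSubring (sg jx))
      · exact (hL.val _).1 (clw_val V hV ν hν)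
    · intro a ha
      have e1 : ∀ jx, i (h jx a) = H' jx (cr r a) := fun jx => h3 jx a ha
      rw [map_mul, map_sum]
      congr 1
      refine Finset.sum_congr rfl fun jx _ => ?_
      rw [map_mul, e1]

end SSG.E
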